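import Pool.Agent.H888R2.KC.Defs

/-!
# F4: the frame of skew-Hermitian matrices
-/

set_option autoImplicit false

namespace Pool.Agent.H888R2.KC

open MeasureTheory Set Matrix
open scoped ENNReal InnerProductSpace

variable {𝕜 : Type} [RCLike 𝕜] {N : ℕ}

namespace F4x

theorem ip_comm' (A B : Matrix (Fin N) (Fin N) 𝕜) : ip A B = ip B A := by
  unfold ip
  refine Finset.sum_congr rfl fun i _ => Finset.sum_congr rfl fun j _ => ?_
  have h : star (B i j) * A i j = star (star (A i j) * B i j) := by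
    rw [star_mul, star_star]
  rw [h]
  exact (RCLike.conj_re _).symm

theorem ip_sum {κ : Type} (s : Finset κ) (A : Matrix (Fin N) (Fin N) 𝕜)
    (f : κ → Matrix (Fin N) (Fin N) 𝕜) : ip A (∑ k ∈ s, f k) = ∑ k ∈ s, ip A (f k) := by
  classical
  induction s using Finset.induction_on with
  | empty => simp [ip]
  | insert a s ha ih => rw [Finset.sum_insert ha, Finset.sum_insert ha, ip_add, ih]

theorem ip_sub (A B C : Matrix (Fin N) (Fin N) 𝕜) : ip A (B - C) = ip A B - ip A C := by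
  simp only [ip, Matrix.sub_apply, mul_sub, map_sub, Finset.sum_sub_distrib]

theorem ip_single (K : Matrix (Fin N) (Fin N) 𝕜) (a b : Fin N) (u : 𝕜) :
    ip K (Matrix.single a b u) = RCLike.re (star (K a b) * u) := by
  unfold ip
  rw [Finset.sum_eq_single a, Finset.sum_eq_single b]
  · rw [Matrix.single_apply_same]
  · intro j _ hj
    rw [Matrix.single_apply_of_ne _ _ _ _ _ (by tauto)]
    simp
  · intro h
    exact absurd (Finset.mem_univ b) h
  · intro i _ hi
    refine Finset.sum_eq_zero fun j _ => ?_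
    rw [Matrix.single_apply_of_ne _ _ _ _ _ (by tauto)]
    simp
  · intro h
    exact absurd (Finset.mem_univ a) h

theorem ip_Km (K : Matrix (Fin N) (Fin N) 𝕜) (hK : Kᴴ = -K) (k : KI N) :
    ip (Km 𝕜 k) K = RCLike.re (star (uu 𝕜 k.2) * K k.1.1 k.1.2) := by
  have h1 : star (K k.1.1 k.1.2) = -K k.1.2 k.1.1 := by
    have := congrFun (congrFun hK k.1.2) k.1.1
    simpa [Matrix.conjTranspose_apply] using this
  have h2 : star (K k.1.2 k.1.1) = -K k.1.1 k.1.2 := by
    have := congrFun (congrFun hK k.1.1) k.1.2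
    simpa [Matrix.conjTranspose_apply] using this
  have h3 : RCLike.re (star (K k.1.1 k.1.2) * uu 𝕜 k.2) =
      RCLike.re (star (uu 𝕜 k.2) * K k.1.1 k.1.2) := by
    have h : star (uu 𝕜 k.2) * K k.1.1 k.1.2 = star (star (K k.1.1 k.1.2) * uu 𝕜 k.2) := by
      rw [star_mul, star_star]
    rw [h]
    exact (RCLike.conj_re _).symm
  rw [ip_comm', Km, ip_smul, ip_sub, ip_single, ip_single, h3, h2, neg_mul, map_neg,
    mul_comm (K k.1.1 k.1.2)]
  ring

theorem sum_uu (z : 𝕜) : ∑ t : Fin 2, RCLike.re (star (uu 𝕜 t) * z) • uu 𝕜 t = z := by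
  rw [Fin.sum_univ_two]
  have h0 : uu 𝕜 0 = 1 := by simp [uu]
  have h1 : uu 𝕜 1 = RCLike.I := by simp [uu]
  have h2 : RCLike.re (star (RCLike.I : 𝕜) * z) = RCLike.im z := by
    have : star (RCLike.I : 𝕜) = -RCLike.I := RCLike.conj_I
    rw [this, neg_mul, map_neg, RCLike.I_mul_re, neg_neg]
  rw [h0, h1, h2, star_one, one_mul, RCLike.real_smul_eq_coe_mul, RCLike.real_smul_eq_coe_mul,
    mul_one]
  exact RCLike.re_add_im z

theorem sum_uu_star (z : 𝕜) : ∑ t : Fin 2, RCLike.re (star (uu 𝕜 t) * z) • star (uu 𝕜 t) =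
    star z := by
  have h := congrArg star (sum_uu z)
  rw [star_sum] at h
  rw [← h]
  refine Finset.sum_congr rfl fun t _ => ?_
  rw [star_smul]
  simp

/-- the sum over the two directions -/
theorem sum_t (K : Matrix (Fin N) (Fin N) 𝕜) (hK : Kᴴ = -K) (a b : Fin N) :
    ∑ t : Fin 2, ip (Km 𝕜 ((a, b), t)) K • Km 𝕜 ((a, b), t) =
      (1 / 2 : ℝ) • (Matrix.single a b (K a b) - Matrix.single b a (star (K a b))) := by
  have h1 : ∀ t : Fin 2, ip (Km 𝕜 ((a, b), t)) K • Km 𝕜 ((a, b), t) = (1 / 2 : ℝ) •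
      (Matrix.single a b (RCLike.re (star (uu 𝕜 t) * K a b) • uu 𝕜 t) -
        Matrix.single b a (RCLike.re (star (uu 𝕜 t) * K a b) • star (uu 𝕜 t))) := by
    intro t
    rw [ip_Km K hK, Km, smul_comm, smul_sub, Matrix.smul_single, Matrix.smul_single]
  simp only [h1]
  rw [← Finset.smul_sum, Finset.sum_sub_distrib]
  congr 2
  · rw [← sum_uu (K a b)]
    simp only [Fin.sum_univ_two]
    rw [Matrix.single_add]
    congr 1 <;> congr 1 <;> rw [← Fin.sum_univ_two (f := fun t => RCLike.re (star (uu 𝕜 t) * K a b) • uu 𝕜 t), sum_uu]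
  · rw [← sum_uu_star (K a b)]
    simp only [Fin.sum_univ_two]
    rw [Matrix.single_add]

end F4x

open F4x

theorem Km_skew (k : KI N) : (Km 𝕜 k)ᴴ = - Km 𝕜 k := by
  unfold Km
  rw [Matrix.conjTranspose_smul, Matrix.conjTranspose_sub, Matrix.conjTranspose_single,
    Matrix.conjTranspose_single, star_star, ← smul_neg, neg_sub]
  simp

theorem Km_complete (K : Matrix (Fin N) (Fin N) 𝕜) (hK : Kᴴ = -K) :
    ∑ k, ip (Km 𝕜 k) K • Km 𝕜 k = K := by
  rw [Fintype.sum_prod_type, Fintype.sum_prod_type]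
  simp only [sum_t K hK, ← Finset.smul_sum, Finset.sum_sub_distrib]
  have h1 : ∑ a, ∑ b, Matrix.single a b (K a b) = K := (Matrix.matrix_eq_sum_single K).symm
  have h2 : ∑ a, ∑ b, Matrix.single b a (star (K a b)) = Kᴴ := by
    rw [Finset.sum_comm]
    exact (Matrix.matrix_eq_sum_single Kᴴ).symm
  rw [h1, h2, hK, sub_neg_eq_add, ← two_smul ℝ K, smul_smul]
  norm_num

theorem Km_parseval (K : Matrix (Fin N) (Fin N) 𝕜) (hK : Kᴴ = -K) :
    ∑ k, ip (Km 𝕜 k) K ^ 2 = ip K K := by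
  have h : ip K K = ip K (∑ k, ip (Km 𝕜 k) K • Km 𝕜 k) := by rw [Km_complete K hK]
  rw [h, ip_sum]
  refine Finset.sum_congr rfl fun k _ => ?_
  rw [ip_smul, ip_comm' K, sq]

end Pool.Agent.H888R2.KC
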