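import Pool.Agent.H888R2.KC.Defs
import Pool.Agent.H888R2.KC.F1
import Pool.Agent.H888R2.KC.F2
import Pool.Agent.H888R2.KC.F4

/-!
# F5: structure constants
-/

set_option autoImplicit false

namespace Pool.Agent.H888R2.KC

open MeasureTheory Set Matrix
open scoped ENNReal InnerProductSpace
open Pool.Agent.H212R2.KLS (mu Bdd ev gr)

variable {𝕜 : Type} [RCLike 𝕜] {N : ℕ} {ι : Type} [Fintype ι]
  {Φ : EuclideanSpace ℝ ι →ₗ[ℝ] Matrix (Fin N) (Fin N) 𝕜}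

namespace F5x

theorem ip_tr (A B : Matrix (Fin N) (Fin N) 𝕜) : ip A B = RCLike.re (Aᴴ * B).trace := by
  unfold ip
  rw [Matrix.trace, map_sum, Finset.sum_comm]
  refine Finset.sum_congr rfl fun j _ => ?_
  rw [Matrix.diag_apply, Matrix.mul_apply, map_sum]
  rfl

theorem ip_neg (A B : Matrix (Fin N) (Fin N) 𝕜) : ip A (-B) = - ip A B := by
  have := ip_smul A B (-1)
  rwa [neg_one_smul, neg_one_mul] at this

theorem ip_neg_left (A B : Matrix (Fin N) (Fin N) 𝕜) : ip (-A) B = - ip A B := by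
  rw [ip_comm, ip_neg, ip_comm]

/-- commutator -/
def br (A B : Matrix (Fin N) (Fin N) 𝕜) : Matrix (Fin N) (Fin N) 𝕜 := A * B - B * A

theorem br_skew (A B : Matrix (Fin N) (Fin N) 𝕜) (hA : Aᴴ = -A) (hB : Bᴴ = -B) :
    (br A B)ᴴ = - br A B := by
  unfold br
  rw [Matrix.conjTranspose_sub, Matrix.conjTranspose_mul, Matrix.conjTranspose_mul, hA, hB]
  simp

theorem br_anti (A B : Matrix (Fin N) (Fin N) 𝕜) : br B A = - br A B := by
  unfold br; abel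

theorem br_add (A B C : Matrix (Fin N) (Fin N) 𝕜) : br A (B + C) = br A B + br A C := by
  unfold br; rw [Matrix.mul_add, Matrix.add_mul]; abel

theorem br_smul (c : ℝ) (A B : Matrix (Fin N) (Fin N) 𝕜) : br A (c • B) = c • br A B := by
  unfold br; rw [Matrix.mul_smul, Matrix.smul_mul, smul_sub]

theorem br_zero (A : Matrix (Fin N) (Fin N) 𝕜) : br A 0 = 0 := by
  unfold br; simp

theorem br_sum {κ : Type*} (s : Finset κ) (A : Matrix (Fin N) (Fin N) 𝕜)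
    (B : κ → Matrix (Fin N) (Fin N) 𝕜) : br A (∑ k ∈ s, B k) = ∑ k ∈ s, br A (B k) := by
  classical
  induction s using Finset.induction_on with
  | empty => simp [br_zero]
  | insert j t hj ih => rw [Finset.sum_insert hj, Finset.sum_insert hj, br_add, ih]

/-- cyclicity -/
theorem cyc (A B C : Matrix (Fin N) (Fin N) 𝕜) (hA : Aᴴ = -A) (hB : Bᴴ = -B) (hC : Cᴴ = -C) :
    ip (br A C) B = - ip (br A B) C := by
  rw [ip_tr, ip_tr, br_skew A C hA hC, br_skew A B hA hB, ← map_neg]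
  congr 1
  unfold br
  rw [Matrix.neg_mul, Matrix.neg_mul, Matrix.trace_neg, Matrix.trace_neg, Matrix.sub_mul,
    Matrix.sub_mul, Matrix.trace_sub, Matrix.trace_sub]
  have h1 : (A * C * B).trace = (B * A * C).trace := by
    rw [Matrix.trace_mul_comm, ← Matrix.mul_assoc]
  have h2 : (C * A * B).trace = (A * B * C).trace := by
    rw [Matrix.mul_assoc, Matrix.trace_mul_comm]
  rw [h1, h2]
  ring

/-- structure constants -/
noncomputable def cc (𝕜 : Type) [RCLike 𝕜] {N : ℕ} (i j k : KI N) : ℝ :=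
  ip (br (Km 𝕜 i) (Km 𝕜 j)) (Km 𝕜 k)

theorem cc1 (i j k : KI N) : cc 𝕜 j i k = - cc 𝕜 i j k := by
  unfold cc
  rw [br_anti, ip_neg_left]

theorem cc2 (i j k : KI N) : cc 𝕜 i k j = - cc 𝕜 i j k := by
  unfold cc
  exact cyc _ _ _ (Km_skew i) (Km_skew j) (Km_skew k)

theorem br_Km (i j : KI N) : br (Km 𝕜 i) (Km 𝕜 j) = ∑ k, cc 𝕜 i j k • Km 𝕜 k := by
  have h1 := Km_complete (br (Km 𝕜 i) (Km 𝕜 j))
    (br_skew _ _ (Km_skew i) (Km_skew j))
  conv_lhs => rw [← h1]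
  refine Finset.sum_congr rfl fun k _ => ?_
  rw [ip_comm]
  rfl

theorem sum_E1 (M : Matrix (Fin N) (Fin N) 𝕜) (c d : 𝕜) : ∑ a, ∑ b,
    (Matrix.single a b c * M * Matrix.single a b d) = (c * d) • Mᵀ := by
  have h1 : ∀ a b : Fin N, Matrix.single a b c * M * Matrix.single a b d =
      Matrix.single a b (c * M b a * d) := by
    intro a b
    rw [Matrix.single_mul_mul_single]
  simp_rw [h1]
  ext p q
  rw [Matrix.smul_apply, Matrix.transpose_apply, smul_eq_mul]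
  rw [Matrix.sum_apply]
  simp_rw [Matrix.sum_apply, Matrix.single_apply]
  rw [Finset.sum_eq_single p, Finset.sum_eq_single q]
  · simp only [and_self, if_true]
    ring
  · intro b _ hb
    simp [hb]
  · simp
  · intro b _ hb
    simp [hb]
  · simp

theorem sum_E2 (M : Matrix (Fin N) (Fin N) 𝕜) (c d : 𝕜) : ∑ a, ∑ b,
    (Matrix.single a b c * M * Matrix.single b a d) =
      (c * d * M.trace) • (1 : Matrix (Fin N) (Fin N) 𝕜) := by
  have h1 : ∀ a b : Fin N, Matrix.single a b c * M * Matrix.single b a d =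
      Matrix.single a a (c * d * M b b) := by
    intro a b
    rw [Matrix.single_mul_mul_single]
    congr 1
    ring
  simp_rw [h1]
  ext p q
  rw [Matrix.sum_apply]
  simp_rw [Matrix.sum_apply, Matrix.single_apply]
  rw [Matrix.smul_apply, smul_eq_mul, Matrix.trace, Finset.mul_sum, Matrix.one_apply]
  rw [Finset.sum_eq_single p]
  · by_cases hpq : p = q
    · simp [hpq]
    · simp [hpq]
  · intro b _ hb
    simp [hb]
  · simp

theorem KMK (M : Matrix (Fin N) (Fin N) 𝕜) (a b : Fin N) (t : Fin 2) :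
    Km 𝕜 ((a, b), t) * M * Km 𝕜 ((a, b), t) = (1 / 4 : ℝ) •
      (Matrix.single a b (uu 𝕜 t) * M * Matrix.single a b (uu 𝕜 t) -
       Matrix.single a b (uu 𝕜 t) * M * Matrix.single b a (star (uu 𝕜 t)) -
       Matrix.single b a (star (uu 𝕜 t)) * M * Matrix.single a b (uu 𝕜 t) +
       Matrix.single b a (star (uu 𝕜 t)) * M * Matrix.single b a (star (uu 𝕜 t))) := by
  unfold Km
  simp only
  rw [Matrix.smul_mul, Matrix.smul_mul, Matrix.mul_smul, smul_smul, Matrix.sub_mul,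
    Matrix.sub_mul, Matrix.mul_sub, Matrix.mul_sub]
  rw [show (1 / 2 * (1 / 2) : ℝ) = 1 / 4 by norm_num]
  congr 1
  abel

theorem sum_KMK (M : Matrix (Fin N) (Fin N) 𝕜) :
    ∑ k, Km 𝕜 k * M * Km 𝕜 k = (1 / 2 : ℝ) • ((1 + RCLike.I * RCLike.I : 𝕜) • Mᵀ -
      ((1 - RCLike.I * RCLike.I : 𝕜) * M.trace) • (1 : Matrix (Fin N) (Fin N) 𝕜)) := by
  have h1 : ∀ t : Fin 2, ∑ a, ∑ b, Km 𝕜 ((a, b), t) * M * Km 𝕜 ((a, b), t) = (1 / 4 : ℝ) •
      (((uu 𝕜 t) * (uu 𝕜 t)) • Mᵀ - ((uu 𝕜 t) * star (uu 𝕜 t) * M.trace) •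
        (1 : Matrix (Fin N) (Fin N) 𝕜) - (star (uu 𝕜 t) * (uu 𝕜 t) * M.trace) •
        (1 : Matrix (Fin N) (Fin N) 𝕜) + (star (uu 𝕜 t) * star (uu 𝕜 t)) • Mᵀ) := by
    intro t
    simp_rw [KMK]
    simp_rw [← Finset.smul_sum, Finset.sum_add_distrib, Finset.sum_sub_distrib]
    rw [sum_E1, sum_E2]
    congr 2
    · congr 1
      rw [Finset.sum_comm, sum_E2]
    · rw [Finset.sum_comm, sum_E1]
  rw [Fintype.sum_prod_type, Finset.sum_comm]
  have h2 : ∀ t : Fin 2, ∑ x : Fin N × Fin N, Km 𝕜 (x, t) * M * Km 𝕜 (x, t) =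
      ∑ a, ∑ b, Km 𝕜 ((a, b), t) * M * Km 𝕜 ((a, b), t) := fun t => Fintype.sum_prod_type _
  simp_rw [h2, h1]
  rw [Fin.sum_univ_two]
  have u0 : uu 𝕜 0 = 1 := by simp [uu]
  have u1 : uu 𝕜 1 = RCLike.I := by simp [uu]
  rw [u0, u1]
  have hI : star (RCLike.I : 𝕜) = - RCLike.I := RCLike.conj_I
  rw [hI, star_one]
  ext p q
  simp only [Matrix.add_apply, Matrix.sub_apply, Matrix.smul_apply, smul_eq_mul,
    RCLike.real_smul_eq_coe_mul]
  have e1 : ((1 / 4 : ℝ) : 𝕜) = 1 / 4 := by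
    rw [RCLike.ofReal_div, RCLike.ofReal_one, RCLike.ofReal_ofNat]
  have e2 : ((1 / 2 : ℝ) : 𝕜) = 1 / 2 := by
    rw [RCLike.ofReal_div, RCLike.ofReal_one, RCLike.ofReal_ofNat]
  rw [e1, e2]
  ring

/-- a scalar matrix has zero bracket -/
theorem br_one_left (A : Matrix (Fin N) (Fin N) 𝕜) (s : 𝕜) :
    br (s • (1 : Matrix (Fin N) (Fin N) 𝕜)) A = 0 := by
  unfold br
  rw [Matrix.smul_mul, Matrix.mul_smul, Matrix.one_mul, Matrix.mul_one, sub_self]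

theorem dbl_sum (k : KI N) : ∑ l, (∑ i, ∑ j, cc 𝕜 i j k * cc 𝕜 i j l) • Km 𝕜 l =
    (2 : ℝ) • (∑ i, Km 𝕜 i * Km 𝕜 k * Km 𝕜 i) - (∑ i, Km 𝕜 i * 1 * Km 𝕜 i) * Km 𝕜 k -
      Km 𝕜 k * ∑ i, Km 𝕜 i * 1 * Km 𝕜 i := by
  have h1 : ∀ i, ∑ j, cc 𝕜 i j k • Km 𝕜 j = br (Km 𝕜 k) (Km 𝕜 i) := by
    intro i
    rw [br_anti, br_Km, ← Finset.sum_neg_distrib]
    refine Finset.sum_congr rfl fun j _ => ?_
    rw [cc2 i k j, neg_smul]
  have h2 : ∑ l, (∑ i, ∑ j, cc 𝕜 i j k * cc 𝕜 i j l) • Km 𝕜 l =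
      ∑ i, br (Km 𝕜 i) (br (Km 𝕜 k) (Km 𝕜 i)) := by
    simp_rw [← h1, br_sum, br_smul, br_Km, Finset.smul_sum, Finset.sum_smul, smul_smul]
    rw [Finset.sum_comm]
    refine Finset.sum_congr rfl fun i _ => ?_
    rw [Finset.sum_comm]
  rw [h2, Finset.sum_mul, Finset.mul_sum, Finset.smul_sum, ← Finset.sum_sub_distrib,
    ← Finset.sum_sub_distrib]
  refine Finset.sum_congr rfl fun i _ => ?_
  unfold br
  rw [two_smul, Matrix.mul_sub, Matrix.sub_mul, Matrix.mul_one]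
  simp only [Matrix.mul_assoc]
  abel

theorem trn (h0 : (RCLike.I : 𝕜) = 0) (K : Matrix (Fin N) (Fin N) 𝕜) (hK : Kᴴ = -K) :
    Kᵀ = - K := by
  rw [← hK]
  ext i j
  rw [Matrix.transpose_apply, Matrix.conjTranspose_apply]
  have h1 : star (K j i) = (starRingEnd 𝕜) (K j i) := rfl
  rw [h1, RCLike.conj_eq_re_sub_im, h0, mul_zero, sub_zero]
  conv_lhs => rw [← RCLike.re_add_im (K j i), h0, mul_zero, add_zero]

theorem kil (𝕜 : Type) [RCLike 𝕜] (N : ℕ) : ∃ κ : ℝ, (N : ℝ) - 2 ≤ κ ∧ ∀ k : KI N, ∃ s : 𝕜,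
    ∑ l, (∑ i, ∑ j, cc 𝕜 i j k * cc 𝕜 i j l) • Km 𝕜 l =
      κ • Km 𝕜 k + s • (1 : Matrix (Fin N) (Fin N) 𝕜) := by
  have e1 : ((1 / 2 : ℝ) : 𝕜) = 1 / 2 := by
    rw [RCLike.ofReal_div, RCLike.ofReal_one, RCLike.ofReal_ofNat]
  have e2 : ((2 : ℝ) : 𝕜) = 2 := by rw [RCLike.ofReal_ofNat]
  have key : ∀ k : KI N, ∑ l, (∑ i, ∑ j, cc 𝕜 i j k * cc 𝕜 i j l) • Km 𝕜 l =
      (1 + RCLike.I * RCLike.I : 𝕜) • ((Km 𝕜 k)ᵀ - Km 𝕜 k) +
      ((1 - RCLike.I * RCLike.I : 𝕜) * (N : 𝕜)) • Km 𝕜 k -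
      ((1 - RCLike.I * RCLike.I : 𝕜) * (Km 𝕜 k).trace) • (1 : Matrix (Fin N) (Fin N) 𝕜) := by
    intro k
    rw [dbl_sum, sum_KMK, sum_KMK, Matrix.transpose_one, Matrix.trace_one, Fintype.card_fin]
    rw [Matrix.smul_mul, Matrix.mul_smul, Matrix.sub_mul, Matrix.mul_sub, Matrix.smul_mul,
      Matrix.smul_mul, Matrix.mul_smul, Matrix.mul_smul, Matrix.one_mul, Matrix.mul_one]
    ext p q
    simp only [Matrix.add_apply, Matrix.sub_apply, Matrix.smul_apply, smul_eq_mul,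
      RCLike.real_smul_eq_coe_mul]
    rw [e1, e2]
    ring
  rcases (RCLike.I_mul_I (K := 𝕜)) with h0 | h1
  · refine ⟨(N : ℝ) - 2, le_refl _, fun k => ⟨- (Km 𝕜 k).trace, ?_⟩⟩
    rw [key, trn h0 _ (Km_skew k), h0]
    ext p q
    simp only [Matrix.add_apply, Matrix.sub_apply, Matrix.smul_apply, smul_eq_mul,
      RCLike.real_smul_eq_coe_mul, Matrix.neg_apply, RCLike.ofReal_sub, RCLike.ofReal_natCast, e2]
    ring
  · refine ⟨2 * (N : ℝ), by have : (0 : ℝ) ≤ N := Nat.cast_nonneg N; linarith,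
      fun k => ⟨- (2 * (Km 𝕜 k).trace), ?_⟩⟩
    rw [key, h1]
    ext p q
    simp only [Matrix.add_apply, Matrix.sub_apply, Matrix.smul_apply, smul_eq_mul,
      RCLike.real_smul_eq_coe_mul, RCLike.ofReal_mul, RCLike.ofReal_natCast, e2]
    ring

theorem br_add_left (A B C : Matrix (Fin N) (Fin N) 𝕜) : br (A + B) C = br A C + br B C := by
  unfold br; rw [Matrix.mul_add, Matrix.add_mul]; abel

theorem br_smul_left (c : ℝ) (A B : Matrix (Fin N) (Fin N) 𝕜) : br (c • A) B = c • br A B := by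
  unfold br; rw [Matrix.mul_smul, Matrix.smul_mul, smul_sub]

theorem br_sum_left {κ : Type*} (s : Finset κ) (A : Matrix (Fin N) (Fin N) 𝕜)
    (B : κ → Matrix (Fin N) (Fin N) 𝕜) : br (∑ k ∈ s, B k) A = ∑ k ∈ s, br (B k) A := by
  rw [br_anti, br_sum, ← Finset.sum_neg_distrib]
  exact Finset.sum_congr rfl fun k _ => (br_anti _ _).symm

theorem Phi_sum (h : Fr Φ) (s : KI N → ℝ) (x : EuclideanSpace ℝ ι) :
    Φ (∑ l, s l • ad Φ (Km 𝕜 l) x) = br (∑ l, s l • Km 𝕜 l) (Φ x) := by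
  rw [map_sum, br_sum_left]
  refine Finset.sum_congr rfl fun l _ => ?_
  rw [map_smul, Phi_ad h _ (Km_skew l), br_smul_left]
  rfl

theorem Phi_inj (h : Fr Φ) {x y : EuclideanSpace ℝ ι} (hxy : Φ x = Φ y) : x = y := by
  rw [← ps_Phi h x, hxy, ps_Phi h y]

end F5x

open F5x

theorem struc (h : Fr Φ) (hN : 1 ≤ N) : ∃ (c : KI N → KI N → KI N → ℝ) (κ : ℝ), (N : ℝ) - 2 ≤ κ ∧
    (∀ i j k, c j i k = - c i j k) ∧ (∀ i j k, c i k j = - c i j k) ∧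
    (∀ i j x, ad Φ (Km 𝕜 i) (ad Φ (Km 𝕜 j) x) - ad Φ (Km 𝕜 j) (ad Φ (Km 𝕜 i) x) =
      ∑ k, c i j k • ad Φ (Km 𝕜 k) x) ∧
    (∀ k x, ∑ l, (∑ i, ∑ j, c i j k * c i j l) • ad Φ (Km 𝕜 l) x = κ • ad Φ (Km 𝕜 k) x) := by
  obtain ⟨κ, hκ, hk⟩ := kil 𝕜 N
  refine ⟨cc 𝕜, κ, hκ, cc1, cc2, ?_, ?_⟩
  · intro i j x
    apply Phi_inj h
    rw [Phi_sum h, ← br_Km, map_sub, Phi_ad h _ (Km_skew i),
      Phi_ad h _ (Km_skew j), Phi_ad h _ (Km_skew j),
      Phi_ad h _ (Km_skew i)]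
    unfold br
    simp only [Matrix.mul_sub, Matrix.sub_mul, Matrix.mul_assoc]
    abel
  · intro k x
    apply Phi_inj h
    obtain ⟨s, hs⟩ := hk k
    rw [Phi_sum h, hs, br_add_left, br_one_left, add_zero, br_smul_left, map_smul,
      Phi_ad h _ (Km_skew k)]
    rfl

end Pool.Agent.H888R2.KC
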