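import Pool.Agent.H888R2.KC.Defs
import Pool.Agent.H888R2.KC.A1
import Pool.Agent.H888R2.KC.F2

/-!
# A5: invariance of the measure implies vanishing integrals of the derivations
-/

set_option autoImplicit false

namespace Pool.Agent.H888R2.KC

open MeasureTheory Set Matrix
open scoped ENNReal InnerProductSpace
open Pool.Agent.H212R2.KLS (mu Bdd ev gr)

variable {𝕜 : Type} [RCLike 𝕜] {N : ℕ} {ι : Type} [Fintype ι]
  {Φ : EuclideanSpace ℝ ι →ₗ[ℝ] Matrix (Fin N) (Fin N) 𝕜}

namespace A5x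

section
open scoped Matrix.Norms.Operator

set_option backward.isDefEq.respectTransparency false in
theorem deriv_path (K A : Matrix (Fin N) (Fin N) 𝕜) (L : Matrix (Fin N) (Fin N) 𝕜 →ₗ[ℝ]
    EuclideanSpace ℝ ι) :
    HasDerivAt (fun t : ℝ => L (NormedSpace.exp (t • K) * A * NormedSpace.exp (t • (-K))))
      (L (K * A - A * K)) 0 := by
  have h1 : HasDerivAt (fun t : ℝ => NormedSpace.exp (t • K)) K 0 := by
    have := hasDerivAt_exp_smul_const' (𝕂 := ℝ) K (0 : ℝ)
    rw [zero_smul, NormedSpace.exp_zero, mul_one] at this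
    exact this
  have h2 : HasDerivAt (fun t : ℝ => NormedSpace.exp (t • (-K))) (-K) 0 := by
    have := hasDerivAt_exp_smul_const' (𝕂 := ℝ) (-K) (0 : ℝ)
    rw [zero_smul, NormedSpace.exp_zero, mul_one] at this
    exact this
  have h3 := (h1.mul_const A).mul h2
  have h4 : K * A * NormedSpace.exp ((0 : ℝ) • (-K)) + NormedSpace.exp ((0 : ℝ) • K) * A * -K =
      K * A - A * K := by
    simp [sub_eq_add_neg]
  rw [h4] at h3
  exact (LinearMap.toContinuousLinearMap L).hasFDerivAt.comp_hasDerivAt (0 : ℝ) h3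

end

theorem exists_path (K : Matrix (Fin N) (Fin N) 𝕜) (hK : Kᴴ = -K) :
    ∃ U : ℝ → Matrix (Fin N) (Fin N) 𝕜, (∀ t, U t ∈ Matrix.unitaryGroup (Fin N) 𝕜) ∧ U 0 = 1 ∧
      (∀ s t, U (s + t) = U s * U t) ∧
      ∀ (A : Matrix (Fin N) (Fin N) 𝕜) (L : Matrix (Fin N) (Fin N) 𝕜 →ₗ[ℝ] EuclideanSpace ℝ ι),
        HasDerivAt (fun t : ℝ => L (U t * A * (U t)ᴴ)) (L (K * A - A * K)) 0 := by
  have hstar : ∀ t : ℝ, (NormedSpace.exp (t • K))ᴴ = NormedSpace.exp (t • (-K)) := by
    intro t
    rw [← Matrix.exp_conjTranspose, Matrix.conjTranspose_smul, hK]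
    simp
  have hadd : ∀ s t : ℝ, NormedSpace.exp ((s + t) • K) =
      NormedSpace.exp (s • K) * NormedSpace.exp (t • K) := by
    intro s t
    rw [add_smul]
    exact Matrix.exp_add_of_commute _ _ ((Commute.refl K).smul_left s |>.smul_right t)
  refine ⟨fun t => NormedSpace.exp (t • K), ?_, ?_, hadd, ?_⟩
  · intro t
    rw [Matrix.mem_unitaryGroup_iff]
    show NormedSpace.exp (t • K) * (NormedSpace.exp (t • K))ᴴ = 1
    rw [hstar t]
    have h1 := hadd t (-t)
    rw [add_neg_cancel, zero_smul, NormedSpace.exp_zero] at h1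
    rw [smul_neg, ← neg_smul]
    exact h1.symm
  · simp
  · intro A L
    have h := deriv_path K A L
    simp only [hstar]
    exact h

theorem differentiable_ev (p : MvPolynomial ι ℝ) : Differentiable ℝ (ev p) := by
  induction p using MvPolynomial.induction_on with
  | C a =>
    have : ev (MvPolynomial.C a : MvPolynomial ι ℝ) = fun _ : EuclideanSpace ℝ ι => a := by
      funext x
      simp [ev]
    rw [this]
    exact differentiable_const a
  | add p q hp hq =>
    have : ev (p + q) = fun x : EuclideanSpace ℝ ι => ev p x + ev q x := by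
      funext x
      simp [ev]
    rw [this]
    exact hp.add hq
  | mul_X p i hp =>
    have : ev (p * MvPolynomial.X i) = fun x : EuclideanSpace ℝ ι => ev p x * x i := by
      funext x
      simp [ev]
    rw [this]
    refine hp.mul ?_
    fun_prop

theorem continuous_cj (U : Matrix (Fin N) (Fin N) 𝕜) : Continuous (cj Φ U) :=
  LinearMap.continuous_of_finiteDimensional _

end A5x

open A5x in
theorem dl_ad_integral (h : Fr Φ) (μ : Measure (EuclideanSpace ℝ ι)) [IsFiniteMeasure μ]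
    (hinv : ∀ U ∈ Matrix.unitaryGroup (Fin N) 𝕜, μ.map (cj Φ U) = μ)
    (hb : ∃ R, μ (Metric.closedBall 0 R)ᶜ = 0) (K : Matrix (Fin N) (Fin N) 𝕜) (hK : Kᴴ = -K)
    (p : MvPolynomial ι ℝ) : ∫ x, ev (dl (ad Φ K) p) x ∂μ = 0 := by
  obtain ⟨U, hU, hU0, hUadd, hUd⟩ := exists_path (ι := ι) K hK
  obtain ⟨R, hR⟩ := hb
  have hball : ∀ᵐ x ∂μ, x ∈ Metric.closedBall (0 : EuclideanSpace ℝ ι) R := by
    rw [ae_iff]
    exact hR
  have hd0 : ∀ y, HasDerivAt (fun t => ev p (cj Φ (U t) y)) (ev (dl (ad Φ K) p) y) 0 := by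
    intro y
    have h1 : HasDerivAt (fun t => cj Φ (U t) y) (ad Φ K y) 0 := hUd (Φ y) (ps Φ)
    have h2 : HasFDerivAt (ev p) (fderiv ℝ (ev p) (cj Φ (U 0) y)) (cj Φ (U 0) y) :=
      (differentiable_ev p _).hasFDerivAt
    have h3 := h2.comp_hasDerivAt (0 : ℝ) h1
    rw [hU0, cj_one h y, ← ev_dl] at h3
    exact h3
  have hd : ∀ x t, HasDerivAt (fun τ => ev p (cj Φ (U τ) x))
      (ev (dl (ad Φ K) p) (cj Φ (U t) x)) t := by
    intro x t
    have h1 : HasDerivAt (fun s => ev p (cj Φ (U s) (cj Φ (U t) x)))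
        (ev (dl (ad Φ K) p) (cj Φ (U t) x)) (t - t) := by
      rw [sub_self]
      exact hd0 _
    have h2 := h1.comp_sub_const t t
    have h3 : (fun τ => ev p (cj Φ (U τ) x)) =
        fun τ => ev p (cj Φ (U (τ - t)) (cj Φ (U t) x)) := by
      funext τ
      rw [cj_cj h, ← hUadd, sub_add_cancel]
    rw [h3]
    exact h2
  have hcont : ∀ q : MvPolynomial ι ℝ, Continuous (ev q) := fun q => (differentiable_ev q).continuous
  obtain ⟨C, hC⟩ := (isCompact_closedBall (0 : EuclideanSpace ℝ ι) R).exists_bound_of_continuousOn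
    (hcont (dl (ad Φ K) p)).continuousOn
  obtain ⟨C', hC'⟩ := (isCompact_closedBall (0 : EuclideanSpace ℝ ι) R).exists_bound_of_continuousOn
    (hcont p).continuousOn
  have hmem : ∀ x ∈ Metric.closedBall (0 : EuclideanSpace ℝ ι) R, ∀ t,
      cj Φ (U t) x ∈ Metric.closedBall (0 : EuclideanSpace ℝ ι) R := by
    intro x hx t
    rw [mem_closedBall_zero_iff] at hx ⊢
    rw [norm_cj h (U t) (hU t)]
    exact hx
  have hmain := hasDerivAt_integral_of_dominated_loc_of_deriv_le (μ := μ)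
    (F := fun t x => ev p (cj Φ (U t) x)) (F' := fun t x => ev (dl (ad Φ K) p) (cj Φ (U t) x))
    (x₀ := (0 : ℝ)) (s := Set.univ) (bound := fun _ => C) Filter.univ_mem
    (Filter.Eventually.of_forall fun t =>
      ((hcont p).comp (continuous_cj (U t))).aestronglyMeasurable)
    (Integrable.of_bound ((hcont p).comp (continuous_cj (U 0))).aestronglyMeasurable C'
      (hball.mono fun x hx => hC' _ (hmem x hx 0)))
    ((hcont _).comp (continuous_cj (U 0))).aestronglyMeasurable
    (hball.mono fun x hx t _ => hC _ (hmem x hx t))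
    (integrable_const C)
    (Filter.Eventually.of_forall fun x t _ => hd x t)
  have h2 := hmain.2
  have h3 : (fun t : ℝ => ∫ x, ev p (cj Φ (U t) x) ∂μ) = fun _ => ∫ x, ev p x ∂μ := by
    funext t
    have h4 := integral_map (μ := μ) (φ := cj Φ (U t)) (continuous_cj (U t)).aemeasurable
      (f := ev p) (hcont p).aestronglyMeasurable
    rw [hinv (U t) (hU t)] at h4
    exact h4.symm
  rw [h3] at h2
  have h5 := h2.unique (hasDerivAt_const (0 : ℝ) (∫ x, ev p x ∂μ))
  have h6 : ∀ x, cj Φ (U 0) x = x := fun x => by rw [hU0, cj_one h x]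
  simp only [h6] at h5
  exact h5

end Pool.Agent.H888R2.KC
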