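import Pool.Agent.H888R2.KC.Defs

/-!
Task A4: a polynomial which vanishes almost everywhere for a log-concave measure is 0.
-/

set_option autoImplicit false

namespace Pool.Agent.H888R2.KC

open MeasureTheory Set Matrix
open scoped ENNReal InnerProductSpace
open Pool.Agent.H212R2.KLS (mu Bdd ev gr)

variable {ι : Type} [Fintype ι]

namespace A4x

theorem cont (p : MvPolynomial ι ℝ) : Continuous (ev p) := by
  unfold ev
  exact (MvPolynomial.continuous_eval p).comp (PiLp.continuous_ofLp 2 _)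

theorem pos_ae {ρ : EuclideanSpace ℝ ι → ℝ} (hm : Measurable ρ) {P : EuclideanSpace ℝ ι → Prop}
    (h : ∀ᵐ x ∂(mu ρ), P x) : ∀ᵐ x : EuclideanSpace ℝ ι, 0 < ρ x → P x := by
  unfold mu at h
  rw [ae_withDensity_iff (hm.ennreal_ofReal)] at h
  filter_upwards [h] with x hx hpos
  apply hx
  rw [ne_eq, ENNReal.ofReal_eq_zero, not_le]
  exact hpos

theorem supp {ρ : EuclideanSpace ℝ ι → ℝ} (hm : Measurable ρ) {R : ℝ}
    (hR : ∀ x, R < ‖x‖ → ρ x = 0) : ∀ᵐ x ∂(mu ρ), ‖x‖ ≤ R := by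
  unfold mu
  rw [ae_withDensity_iff (hm.ennreal_ofReal)]
  refine Filter.Eventually.of_forall fun x hx => ?_
  by_contra hc
  exact hx (by rw [hR x (not_le.1 hc)]; simp)

theorem convex {ρ : EuclideanSpace ℝ ι → ℝ} (hlc : ∀ x y : EuclideanSpace ℝ ι, ∀ t : ℝ,
    0 < t → t < 1 → ρ x ^ (1 - t) * ρ y ^ t ≤ ρ ((1 - t) • x + t • y)) :
    Convex ℝ {x | 0 < ρ x} := by
  intro x hx y hy a b ha hb hab
  simp only [mem_ofPred_eq] at hx hy ⊢
  rcases eq_or_lt_of_le ha with ha | ha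
  · have : b = 1 := by linarith
    rw [← ha, this, zero_smul, one_smul, zero_add]
    exact hy
  rcases eq_or_lt_of_le hb with hb | hb
  · have : a = 1 := by linarith
    rw [← hb, this, zero_smul, one_smul, add_zero]
    exact hx
  have h1 := hlc x y b hb (by linarith)
  have e : 1 - b = a := by linarith
  rw [e] at h1
  exact lt_of_lt_of_le (mul_pos (Real.rpow_pos_of_pos hx _) (Real.rpow_pos_of_pos hy _)) h1

theorem inter {ρ : EuclideanSpace ℝ ι → ℝ} (hm : Measurable ρ)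
    (hlc : ∀ x y : EuclideanSpace ℝ ι, ∀ t : ℝ,
      0 < t → t < 1 → ρ x ^ (1 - t) * ρ y ^ t ≤ ρ ((1 - t) • x + t • y)) (h0 : mu ρ ≠ 0) :
    (interior {x | 0 < ρ x}).Nonempty := by
  rw [nonempty_iff_ne_empty]
  intro he
  apply h0
  have h1 : volume {x : EuclideanSpace ℝ ι | 0 < ρ x} = 0 := by
    refine measure_mono_null ?_ ((convex hlc).addHaar_frontier volume)
    intro x hx
    rw [frontier, he, sdiff_empty]
    exact subset_closure hx
  unfold mu
  rw [withDensity_eq_zero_iff (hm.ennreal_ofReal.aemeasurable)]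
  have h2 : ∀ᵐ x : EuclideanSpace ℝ ι, x ∉ {x : EuclideanSpace ℝ ι | 0 < ρ x} :=
    measure_eq_zero_iff_ae_notMem.1 h1
  filter_upwards [h2] with x hx
  simp only [not_lt] at hx
  simp only [Pi.zero_apply, ENNReal.ofReal_eq_zero]
  exact hx

theorem poly (p : MvPolynomial ι ℝ) (O : Set (EuclideanSpace ℝ ι)) (hO : IsOpen O)
    (hne : O.Nonempty) (h : ∀ x ∈ O, ev p x = 0) : p = 0 := by
  obtain ⟨x, hx⟩ := hne
  have h1 : IsOpen ((fun y : ι → ℝ => (WithLp.toLp 2 y : EuclideanSpace ℝ ι)) ⁻¹' O) :=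
    hO.preimage (PiLp.continuous_toLp 2 _)
  obtain ⟨ε, hε, hb⟩ := Metric.isOpen_iff.1 h1 x.ofLp (by simpa using hx)
  apply MvPolynomial.funext_set (fun i => Metric.ball (x.ofLp i) ε)
  · intro i
    rw [Real.ball_eq_Ioo]
    exact Ioo_infinite (by linarith)
  · intro y hy
    have h2 : y ∈ Metric.ball x.ofLp ε := by
      rw [Metric.mem_ball, dist_pi_lt_iff hε]
      intro i
      exact hy i (mem_univ i)
    have h3 := h _ (hb h2)
    rw [map_zero]
    exact h3

end A4x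

open A4x

theorem ev_pos (ρ : EuclideanSpace ℝ ι → ℝ) (h0 : ∀ x, 0 ≤ ρ x) (hm : Measurable ρ)
    (hlc : ∀ x y : EuclideanSpace ℝ ι, ∀ t : ℝ, 0 < t → t < 1 →
      ρ x ^ (1 - t) * ρ y ^ t ≤ ρ ((1 - t) • x + t • y)) (hb : Bdd ρ) [IsFiniteMeasure (mu ρ)]
    (hne : mu ρ ≠ 0) (p : MvPolynomial ι ℝ) (hp : ∫ x, (ev p x) ^ 2 ∂(mu ρ) = 0) : p = 0 := by
  obtain ⟨R, hR⟩ := hb
  have hc : Continuous fun x : EuclideanSpace ℝ ι => (ev p x) ^ 2 := (cont p).pow 2
  obtain ⟨C, hC⟩ := (isCompact_closedBall (0 : EuclideanSpace ℝ ι) R).exists_bound_of_continuousOn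
    hc.continuousOn
  have hint : Integrable (fun x => (ev p x) ^ 2) (mu ρ) := by
    refine Integrable.of_bound hc.aestronglyMeasurable C ?_
    filter_upwards [supp hm hR] with x hx
    exact hC x (by simpa using hx)
  rw [integral_eq_zero_iff_of_nonneg (fun x => sq_nonneg _) hint] at hp
  have h1 := pos_ae hm hp
  have h2 : ∀ x ∈ interior {x : EuclideanSpace ℝ ι | 0 < ρ x}, ev p x = 0 := by
    by_contra hcon
    push Not at hcon
    obtain ⟨x, hx, hxp⟩ := hcon
    have hU : IsOpen (interior {x : EuclideanSpace ℝ ι | 0 < ρ x} ∩ {x | ev p x ≠ 0}) :=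
      isOpen_interior.inter (isOpen_ne_fun (cont p) continuous_const)
    have h3 : volume (interior {x : EuclideanSpace ℝ ι | 0 < ρ x} ∩ {x | ev p x ≠ 0}) = 0 := by
      rw [measure_eq_zero_iff_ae_notMem]
      filter_upwards [h1] with y hy hmem
      have h4 : y ∈ {x : EuclideanSpace ℝ ι | 0 < ρ x} := interior_subset hmem.1
      have h5 := hy h4
      simp only [Pi.zero_apply] at h5
      exact hmem.2 (pow_eq_zero_iff (two_ne_zero)|>.1 h5)
    have h4 := hU.eq_empty_of_measure_zero h3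
    exact (h4 ▸ (⟨hx, hxp⟩ : x ∈ interior {x : EuclideanSpace ℝ ι | 0 < ρ x} ∩ {x | ev p x ≠ 0}) :
      x ∈ (∅ : Set (EuclideanSpace ℝ ι)))
  exact poly p _ isOpen_interior (inter hm hlc hne) h2

end Pool.Agent.H888R2.KC
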