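import Pool.Agent.H888R2.KC.Defs
import Pool.Agent.H888R2.KC.A1
import Pool.Agent.H888R2.KC.F1
import Pool.Agent.H888R2.KC.F2
import Pool.Agent.H888R2.KC.F4

/-!
# A7: the bound for the angular derivatives
-/

set_option autoImplicit false

namespace Pool.Agent.H888R2.KC

open MeasureTheory Set Matrix
open scoped ENNReal InnerProductSpace
open Pool.Agent.H212R2.KLS (mu Bdd ev gr)

namespace A7x

variable {𝕜 : Type} [RCLike 𝕜] {N : ℕ}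

theorem ip_trace (A B : Matrix (Fin N) (Fin N) 𝕜) :
    ip A B = RCLike.re (Matrix.trace (Aᴴ * B)) := by
  unfold ip Matrix.trace
  simp only [Matrix.diag_apply, Matrix.mul_apply, Matrix.conjTranspose_apply, map_sum]
  rw [Finset.sum_comm]

theorem ip_self (A : Matrix (Fin N) (Fin N) 𝕜) : ip A A = ∑ i, ∑ j, ‖A i j‖ ^ 2 := by
  unfold ip
  refine Finset.sum_congr rfl fun i _ => Finset.sum_congr rfl fun j _ => ?_
  have h1 : star (A i j) * A i j = ((‖A i j‖ ^ 2 : ℝ) : 𝕜) := by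
    have := RCLike.conj_mul (A i j)
    push_cast
    exact this
  rw [h1, RCLike.ofReal_re]

theorem ip_comm_eq (P X K : Matrix (Fin N) (Fin N) 𝕜) (hP : Pᴴ = P) (hK : Kᴴ = -K) :
    ip P (K * X - X * K) = ip K (P * X - X * P) := by
  rw [ip_trace, ip_trace, hP, hK]
  congr 1
  rw [mul_sub, neg_mul, mul_sub, Matrix.trace_sub, Matrix.trace_neg, Matrix.trace_sub]
  have h1 : (P * (K * X)).trace = (K * (X * P)).trace := by
    rw [Matrix.trace_mul_comm, Matrix.mul_assoc]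
  have h2 : (P * (X * K)).trace = (K * (P * X)).trace := by
    rw [← Matrix.mul_assoc, Matrix.trace_mul_comm]
  rw [h1, h2]
  ring

theorem frob_left (X P : Matrix (Fin N) (Fin N) 𝕜) (r : ℝ) (hr : 0 ≤ r) (hX : OpL r X) :
    ∑ i, ∑ j, ‖(X * P) i j‖ ^ 2 ≤ r ^ 2 * ∑ i, ∑ j, ‖P i j‖ ^ 2 := by
  rw [Finset.sum_comm, Finset.sum_comm (f := fun i j => ‖P i j‖ ^ 2), Finset.mul_sum]
  refine Finset.sum_le_sum fun j _ => ?_
  have h1 := hX (WithLp.toLp 2 fun i => P i j)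
  have h2 : ‖(WithLp.toLp 2 (X *ᵥ fun i => P i j) : EuclideanSpace 𝕜 (Fin N))‖ ^ 2 =
      ∑ i, ‖(X * P) i j‖ ^ 2 := by
    rw [EuclideanSpace.norm_sq_eq]
    rfl
  have h3 : ‖(WithLp.toLp 2 (fun i => P i j) : EuclideanSpace 𝕜 (Fin N))‖ ^ 2 =
      ∑ i, ‖P i j‖ ^ 2 := by
    rw [EuclideanSpace.norm_sq_eq]
  rw [← h2, ← h3, ← mul_pow]
  exact pow_le_pow_left₀ (norm_nonneg _) h1 2

theorem frob_right (X P : Matrix (Fin N) (Fin N) 𝕜) (hX : Xᴴ = X) (hP : Pᴴ = P) :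
    ∑ i, ∑ j, ‖(P * X) i j‖ ^ 2 = ∑ i, ∑ j, ‖(X * P) i j‖ ^ 2 := by
  rw [Finset.sum_comm]
  refine Finset.sum_congr rfl fun i _ => Finset.sum_congr rfl fun j _ => ?_
  have h1 : (P * X) j i = star ((X * P) i j) := by
    have h2 : (P * X) = (X * P)ᴴ := by
      rw [Matrix.conjTranspose_mul, hX, hP]
    rw [h2, Matrix.conjTranspose_apply]
  rw [h1, norm_star]

theorem frob_comm (X P : Matrix (Fin N) (Fin N) 𝕜) (hX : Xᴴ = X) (hP : Pᴴ = P) (r : ℝ)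
    (hr : 0 ≤ r) (hO : OpL r X) :
    ip (P * X - X * P) (P * X - X * P) ≤ 4 * r ^ 2 * ∑ i, ∑ j, ‖P i j‖ ^ 2 := by
  rw [ip_self]
  have h1 : ∑ i, ∑ j, ‖(P * X - X * P) i j‖ ^ 2 ≤
      ∑ i, ∑ j, (2 * ‖(P * X) i j‖ ^ 2 + 2 * ‖(X * P) i j‖ ^ 2) := by
    refine Finset.sum_le_sum fun i _ => Finset.sum_le_sum fun j _ => ?_
    rw [Matrix.sub_apply]
    have h2 := norm_sub_le ((P * X) i j) ((X * P) i j)
    have h3 := norm_nonneg ((P * X) i j - (X * P) i j)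
    nlinarith [sq_nonneg (‖(P * X) i j‖ - ‖(X * P) i j‖), norm_nonneg ((P * X) i j),
      norm_nonneg ((X * P) i j)]
  refine h1.trans ?_
  have h4 : ∑ i, ∑ j, (2 * ‖(P * X) i j‖ ^ 2 + 2 * ‖(X * P) i j‖ ^ 2) =
      2 * ∑ i, ∑ j, ‖(P * X) i j‖ ^ 2 + 2 * ∑ i, ∑ j, ‖(X * P) i j‖ ^ 2 := by
    simp only [Finset.sum_add_distrib, Finset.mul_sum]
  rw [h4, frob_right X P hX hP]
  have h5 := frob_left X P r hr hO
  linarith

end A7x

variable {𝕜 : Type} [RCLike 𝕜] {N : ℕ} {ι : Type} [Fintype ι]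
  {Φ : EuclideanSpace ℝ ι →ₗ[ℝ] Matrix (Fin N) (Fin N) 𝕜}

theorem dl_bound (h : Fr Φ) (p : MvPolynomial ι ℝ) (x : EuclideanSpace ℝ ι) (r : ℝ)
    (hr : 0 ≤ r) (hx : OpL r (Φ x)) :
    ∑ k, (ev (dl (ad Φ (Km 𝕜 k)) p) x) ^ 2 ≤ 4 * r ^ 2 * ‖fderiv ℝ (ev p) x‖ ^ 2 := by
  obtain ⟨g, hg⟩ : ∃ g : EuclideanSpace ℝ ι, g =
    (InnerProductSpace.toDual ℝ (EuclideanSpace ℝ ι)).symm (fderiv ℝ (ev p) x) := ⟨_, rfl⟩
  have hg1 : ∀ y, fderiv ℝ (ev p) x y = ⟪g, y⟫_ℝ := by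
    intro y
    rw [hg, InnerProductSpace.toDual_symm_apply]
  have hg2 : ‖fderiv ℝ (ev p) x‖ = ‖g‖ := by
    rw [hg, LinearIsometryEquiv.norm_map]
  have h1 : ∀ k, ev (dl (ad Φ (Km 𝕜 k)) p) x =
      ip (Km 𝕜 k) (Φ g * Φ x - Φ x * Φ g) := by
    intro k
    rw [ev_dl, hg1, inner_Phi h, Phi_ad h _ (Km_skew k),
      A7x.ip_comm_eq _ _ _ (h.herm g) (Km_skew k)]
  have h2 : (Φ g * Φ x - Φ x * Φ g)ᴴ = -(Φ g * Φ x - Φ x * Φ g) := by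
    rw [Matrix.conjTranspose_sub, Matrix.conjTranspose_mul, Matrix.conjTranspose_mul, h.herm,
      h.herm, neg_sub]
  simp only [h1]
  rw [Km_parseval _ h2, hg2, ← h.iso g]
  exact A7x.frob_comm _ _ (h.herm x) (h.herm g) r hr hx

end Pool.Agent.H888R2.KC
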