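import Pool.Agent.H888R2.KC.Defs

/-!
# Task R2: a log-concave density with finite mass is bounded
-/

set_option autoImplicit false

namespace Pool.Agent.H888R2.KC

open MeasureTheory Set Matrix Pool.Agent.H212R2.KLS
open scoped ENNReal RealInnerProductSpace

namespace R2x

theorem exists_level {F : Type} [MeasurableSpace F] (μ : Measure F) (ρ : F → ℝ)
    (hne : μ.withDensity (fun x => ENNReal.ofReal (ρ x)) ≠ 0) :
    ∃ c : ℝ, 0 < c ∧ μ {x | c ≤ ρ x} ≠ 0 := by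
  by_contra hcon
  push Not at hcon
  apply hne
  have h1 : μ {x | 0 < ρ x} = 0 := by
    have h2 : {x | 0 < ρ x} ⊆ ⋃ n : ℕ, {x | 1 / ((n : ℝ) + 1) ≤ ρ x} := by
      intro x hx
      obtain ⟨n, hn⟩ := exists_nat_one_div_lt (show (0 : ℝ) < ρ x from hx)
      exact mem_iUnion.2 ⟨n, hn.le⟩
    refine measure_mono_null h2 (measure_iUnion_null fun n => ?_)
    exact hcon _ (by positivity)
  have h3 : (fun x => ENNReal.ofReal (ρ x)) =ᵐ[μ] 0 := by
    have h4 : ∀ᵐ x ∂μ, ¬ 0 < ρ x := by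
      rw [ae_iff]
      simpa only [not_not] using h1
    filter_upwards [h4] with x hx
    exact ENNReal.ofReal_eq_zero.2 (not_lt.1 hx)
  rw [withDensity_congr_ae h3]
  exact withDensity_zero

end R2x

open R2x in
/-- R2 -/
theorem bdd_of_finite {F : Type} [NormedAddCommGroup F] [InnerProductSpace ℝ F]
    [FiniteDimensional ℝ F] [MeasurableSpace F] [BorelSpace F] (ρ : F → ℝ) (h0 : ∀ x, 0 ≤ ρ x)
    (hm : Measurable ρ) (hlc : ∀ x y : F, ∀ t : ℝ, 0 < t → t < 1 →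
      ρ x ^ (1 - t) * ρ y ^ t ≤ ρ ((1 - t) • x + t • y)) (hfin : mu ρ univ ≠ ⊤) (hne : mu ρ ≠ 0) :
    ∃ B, ∀ x, ρ x ≤ B := by
  obtain ⟨c, hc, hA⟩ := exists_level volume ρ hne
  set A : Set F := {x | c ≤ ρ x} with hAdef
  have hM : ∫⁻ x, ENNReal.ofReal (ρ x) ≠ ⊤ := by
    have h1 : mu ρ univ = ∫⁻ x, ENNReal.ofReal (ρ x) := by
      unfold mu
      rw [withDensity_apply _ MeasurableSet.univ, Measure.restrict_univ]
    rwa [h1] at hfin
  set M : ℝ≥0∞ := ∫⁻ x, ENNReal.ofReal (ρ x) with hMdef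
  have hmark : ∀ (k : ℝ) (T : Set F), (∀ x ∈ T, k ≤ ρ x) → ENNReal.ofReal k * volume T ≤ M := by
    intro k T hT
    refine le_trans ?_ (mul_meas_ge_le_lintegral₀ (μ := volume)
      (hm.ennreal_ofReal.aemeasurable) (ENNReal.ofReal k))
    gcongr
    intro x hx
    exact ENNReal.ofReal_le_ofReal (hT x hx)
  have hAfin : volume A ≠ ⊤ := by
    intro h
    have h1 := hmark c A (fun x hx => hx)
    rw [h, ENNReal.mul_top (by simpa using hc)] at h1
    exact hM (top_le_iff.1 h1)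
  have ha : 0 < (volume A).toReal := ENNReal.toReal_pos hA hAfin
  set n : ℕ := Module.finrank ℝ F with hn
  set D : ℝ := M.toReal / (Real.sqrt c * ((1 / 2 : ℝ) ^ n * (volume A).toReal)) with hD
  have hpos : 0 < Real.sqrt c * ((1 / 2 : ℝ) ^ n * (volume A).toReal) := by positivity
  refine ⟨D ^ 2, ?_⟩
  intro x0
  have h1 : ∀ x ∈ AffineMap.homothety x0 (1 / 2 : ℝ) '' A,
      Real.sqrt (ρ x0) * Real.sqrt c ≤ ρ x := by
    rintro _ ⟨y, hy, rfl⟩
    have h2 := hlc x0 y (1 / 2) (by norm_num) (by norm_num)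
    have h3 : (1 - (1 / 2 : ℝ)) • x0 + (1 / 2 : ℝ) • y = AffineMap.homothety x0 (1 / 2 : ℝ) y := by
      rw [AffineMap.homothety_apply, vsub_eq_sub, vadd_eq_add, smul_sub, sub_smul, one_smul]
      abel
    rw [h3] at h2
    have h4 : (1 : ℝ) - 1 / 2 = 1 / 2 := by norm_num
    rw [h4, ← Real.sqrt_eq_rpow, ← Real.sqrt_eq_rpow] at h2
    refine le_trans ?_ h2
    have hy' : c ≤ ρ y := hy
    gcongr
  have h2 := hmark _ _ h1
  rw [Measure.addHaar_image_homothety, ← hn] at h2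
  have h3 : ENNReal.ofReal (Real.sqrt (ρ x0) * Real.sqrt c *
      ((1 / 2 : ℝ) ^ n * (volume A).toReal)) ≤ M := by
    refine le_trans (le_of_eq ?_) h2
    rw [ENNReal.ofReal_mul (p := Real.sqrt (ρ x0) * Real.sqrt c) (by positivity),
      ENNReal.ofReal_mul (p := (1 / 2 : ℝ) ^ n) (by positivity),
      ENNReal.ofReal_toReal hAfin, abs_of_pos (by positivity)]
  have h4 : Real.sqrt (ρ x0) * Real.sqrt c * ((1 / 2 : ℝ) ^ n * (volume A).toReal) ≤ M.toReal :=
    (ENNReal.ofReal_le_iff_le_toReal hM).1 h3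
  have h5 : Real.sqrt (ρ x0) ≤ D := by
    rw [hD, le_div_iff₀ hpos]
    linarith
  calc ρ x0 = Real.sqrt (ρ x0) ^ 2 := (Real.sq_sqrt (h0 x0)).symm
    _ ≤ D ^ 2 := by gcongr

end Pool.Agent.H888R2.KC
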