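import Pool.Agent.H888R2.KC.Defs
import Pool.Agent.H888R2.KC.F1
import Pool.Agent.H888R2.KC.F2
import Pool.Agent.H888R2.KC.W2b

/-!
# KC: uniqueness in the spectral theorem, injectivity of the local parametrisation
-/

set_option autoImplicit false

namespace Pool.Agent.H888R2.KC

open MeasureTheory Set Matrix
open scoped ENNReal InnerProductSpace

variable {𝕜 : Type} [RCLike 𝕜] {N : ℕ} {ι : Type} [Fintype ι]
  {Φ : EuclideanSpace ℝ ι →ₗ[ℝ] Matrix (Fin N) (Fin N) 𝕜}

theorem spec_unique (U W : Matrix (Fin N) (Fin N) 𝕜) (hU : U ∈ Matrix.unitaryGroup (Fin N) 𝕜)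
    (hW : W ∈ Matrix.unitaryGroup (Fin N) 𝕜) (l m : EuclideanSpace ℝ (Fin N)) (hl : l ∈ Ch N)
    (hm : m ∈ Ch N) (h : U * dm 𝕜 l * Uᴴ = W * dm 𝕜 m * Wᴴ) :
    l = m ∧ ∃ d : Fin N → 𝕜, U = W * Matrix.diagonal d ∧ ∀ i, ‖d i‖ = 1 := by
  classical
  have hU1 : Uᴴ * U = 1 := (Matrix.mem_unitaryGroup_iff').1 hU
  have hW1 : Wᴴ * W = 1 := (Matrix.mem_unitaryGroup_iff').1 hW
  have hW2 : W * Wᴴ = 1 := (Matrix.mem_unitaryGroup_iff).1 hW
  have hU2 : U * Uᴴ = 1 := (Matrix.mem_unitaryGroup_iff).1 hU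
  set M : Matrix (Fin N) (Fin N) 𝕜 := Wᴴ * U with hM
  have hcomm : M * dm 𝕜 l = dm 𝕜 m * M := by
    calc M * dm 𝕜 l = Wᴴ * (U * dm 𝕜 l * Uᴴ) * U := by
          rw [hM]
          simp only [Matrix.mul_assoc]
          rw [hU1, Matrix.mul_one]
      _ = Wᴴ * (W * dm 𝕜 m * Wᴴ) * U := by rw [h]
      _ = dm 𝕜 m * M := by
          rw [hM]
          calc Wᴴ * (W * dm 𝕜 m * Wᴴ) * U = (Wᴴ * W) * dm 𝕜 m * (Wᴴ * U) := by
                simp only [Matrix.mul_assoc]
            _ = dm 𝕜 m * (Wᴴ * U) := by rw [hW1, Matrix.one_mul]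
  have hMM : Mᴴ * M = 1 := by
    rw [hM, Matrix.conjTranspose_mul, Matrix.conjTranspose_conjTranspose]
    calc Uᴴ * W * (Wᴴ * U) = Uᴴ * (W * Wᴴ) * U := by simp only [Matrix.mul_assoc]
      _ = 1 := by rw [hW2, Matrix.mul_one, hU1]
  have hent : ∀ i j, M i j ≠ 0 → l j = m i := by
    intro i j hij
    have h1 := congrFun (congrFun hcomm i) j
    rw [dm, dm, Matrix.mul_diagonal, Matrix.diagonal_mul] at h1
    have h2 : M i j * (((l j : ℝ) : 𝕜) - ((m i : ℝ) : 𝕜)) = 0 := by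
      rw [mul_sub, h1]
      ring
    rcases mul_eq_zero.1 h2 with h3 | h3
    · exact absurd h3 hij
    · exact_mod_cast RCLike.ofReal_inj.1 (sub_eq_zero.1 h3)
  have hdet : M.det ≠ 0 := by
    intro h0
    have h1 := congrArg Matrix.det hMM
    rw [Matrix.det_mul, h0, mul_zero, Matrix.det_one] at h1
    exact zero_ne_one h1
  obtain ⟨σ, hσ⟩ : ∃ σ : Equiv.Perm (Fin N), ∀ i, M (σ i) i ≠ 0 := by
    by_contra hcon
    push Not at hcon
    apply hdet
    rw [Matrix.det_apply]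
    apply Finset.sum_eq_zero
    intro σ _
    obtain ⟨i, hi⟩ := hcon σ
    have hz : (∏ i, M (σ i) i) = 0 := Finset.prod_eq_zero (Finset.mem_univ i) hi
    exact (congrArg (fun z => Equiv.Perm.sign σ • z) hz).trans (smul_zero _)
  have hfun : (fun i => l i) = fun i => m i := by
    apply (StrictMono.range_inj hl hm).1
    ext x
    constructor
    · rintro ⟨i, rfl⟩
      exact ⟨σ i, (hent _ _ (hσ i)).symm⟩
    · rintro ⟨i, rfl⟩
      refine ⟨σ.symm i, ?_⟩
      have := hent _ _ (hσ (σ.symm i))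
      rw [Equiv.apply_symm_apply] at this
      exact this
  have hlm : l = m := by
    ext i
    exact congrFun hfun i
  refine ⟨hlm, fun i => M i i, ?_, ?_⟩
  · have hdiag : M = Matrix.diagonal fun i => M i i := by
      ext i j
      by_cases hij : i = j
      · subst hij
        rw [Matrix.diagonal_apply_eq]
      · rw [Matrix.diagonal_apply_ne _ hij]
        by_contra hne
        have h1 := hent i j hne
        rw [← hlm] at h1
        exact hij (hl.injective h1).symm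
    rw [← hdiag, hM, ← Matrix.mul_assoc, hW2, Matrix.one_mul]
  · intro i
    have hdiag0 : ∀ i j, i ≠ j → M i j = 0 := by
      intro i j hij
      by_contra hne
      have h1 := hent i j hne
      rw [← hlm] at h1
      exact hij (hl.injective h1).symm
    have h1 := congrFun (congrFun hMM i) i
    rw [Matrix.mul_apply, Matrix.one_apply_eq, Finset.sum_eq_single i] at h1
    · rw [Matrix.conjTranspose_apply, RCLike.star_def, RCLike.conj_mul] at h1
      have h2 : ‖M i i‖ ^ 2 = 1 := by exact_mod_cast h1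
      nlinarith [norm_nonneg (M i i)]
    · intro j _ hj
      rw [hdiag0 j i hj, mul_zero]
    · intro hi
      exact absurd (Finset.mem_univ i) hi

namespace W4x

theorem ip_self (A : Matrix (Fin N) (Fin N) 𝕜) : ip A A = ∑ i, ∑ j, ‖A i j‖ ^ 2 := by
  unfold ip
  refine Finset.sum_congr rfl fun i _ => Finset.sum_congr rfl fun j _ => ?_
  rw [RCLike.star_def, RCLike.conj_mul]
  rw [← RCLike.ofReal_pow, RCLike.ofReal_re]

theorem row_le (A : Matrix (Fin N) (Fin N) 𝕜) (i : Fin N) : ∑ j, ‖A i j‖ ^ 2 ≤ ip A A := by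
  rw [ip_self]
  exact Finset.single_le_sum (f := fun i => ∑ j, ‖A i j‖ ^ 2)
    (fun i _ => Finset.sum_nonneg fun j _ => sq_nonneg _) (Finset.mem_univ i)

theorem col_le (A : Matrix (Fin N) (Fin N) 𝕜) (i : Fin N) : ∑ j, ‖A j i‖ ^ 2 ≤ ip A A := by
  rw [ip_self, Finset.sum_comm]
  exact Finset.single_le_sum (f := fun i => ∑ j, ‖A j i‖ ^ 2)
    (fun i _ => Finset.sum_nonneg fun j _ => sq_nonneg _) (Finset.mem_univ i)

theorem sk_conj (A : Matrix (Fin N) (Fin N) 𝕜) (hA : Aᴴ = A) : (sk A)ᴴ = - sk A := by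
  ext i j
  have h1 : ∀ i j, star (A i j) = A j i := by
    intro i j
    have := congrFun (congrFun hA j) i
    rw [Matrix.conjTranspose_apply] at this
    exact this
  simp only [Matrix.conjTranspose_apply, sk, Matrix.of_apply, Matrix.neg_apply]
  rcases lt_trichotomy i j with h | h | h
  · rw [if_neg (not_lt.2 h.le), if_pos h, if_pos h, star_neg, h1]
  · subst h
    simp
  · rw [if_pos h, if_neg (not_lt.2 h.le), if_pos h, h1, neg_neg]

theorem sk_diag (A : Matrix (Fin N) (Fin N) 𝕜) (i : Fin N) : sk A i i = 0 := by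
  simp [sk]

end W4x

theorem cay_inj (K K' : Matrix (Fin N) (Fin N) 𝕜) (hK : Kᴴ = -K) (hK' : K'ᴴ = -K')
    (h0 : ∀ i, K i i = 0) (h0' : ∀ i, K' i i = 0) (hn : ip K K < 1 / 100)
    (hn' : ip K' K' < 1 / 100) (d : Fin N → 𝕜) (h : cay K' = cay K * Matrix.diagonal d) :
    K = K' := by
  classical
  obtain ⟨hu, -, -⟩ := cay_unit K hK
  obtain ⟨hu', -, -⟩ := cay_unit K' hK'
  set D : Matrix (Fin N) (Fin N) 𝕜 := Matrix.diagonal d with hD
  have e1 : (1 + K) * (1 - K') = (1 - K) * D * (1 + K') := by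
    have h1 : (1 - K') = (1 - K) * (1 + K)⁻¹ * D * (1 + K') := by
      calc (1 - K') = (1 - K') * ((1 + K')⁻¹ * (1 + K')) := by
            rw [Matrix.nonsing_inv_mul _ hu', Matrix.mul_one]
        _ = cay K' * (1 + K') := by rw [cay, Matrix.mul_assoc]
        _ = (1 - K) * (1 + K)⁻¹ * D * (1 + K') := by rw [h, cay]
    have hc : (1 + K) * (1 - K) = (1 - K) * (1 + K) := by noncomm_ring
    calc (1 + K) * (1 - K') = (1 + K) * ((1 - K) * (1 + K)⁻¹ * D * (1 + K')) := by rw [← h1]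
      _ = ((1 + K) * (1 - K)) * (1 + K)⁻¹ * D * (1 + K') := by simp only [Matrix.mul_assoc]
      _ = (1 - K) * ((1 + K) * (1 + K)⁻¹) * D * (1 + K') := by
          rw [hc]; simp only [Matrix.mul_assoc]
      _ = (1 - K) * D * (1 + K') := by rw [Matrix.mul_nonsing_inv _ hu, Matrix.mul_one]
  set E : Matrix (Fin N) (Fin N) 𝕜 := Matrix.diagonal fun i => d i - 1 with hE
  have hDE : D = 1 + E := by
    rw [hD, hE]
    ext i j
    by_cases hij : i = j
    · subst hij
      simp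
    · simp [hij]
  have e2 : K - K' + (K - K') = E - K * E + E * K' - K * E * K' := by
    rw [hDE] at e1
    have h2 : (1 + K) * (1 - K') - (1 - K) * (1 + K') = (1 - K) * E * (1 + K') := by
      rw [e1]
      noncomm_ring
    calc K - K' + (K - K') = (1 + K) * (1 - K') - (1 - K) * (1 + K') := by noncomm_ring
      _ = (1 - K) * E * (1 + K') := h2
      _ = E - K * E + E * K' - K * E * K' := by noncomm_ring
  -- the diagonal
  have hdg : ∀ i, d i - 1 = ∑ j, K i j * (d j - 1) * K' j i := by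
    intro i
    have h1 := congrFun (congrFun e2 i) i
    simp only [Matrix.add_apply, Matrix.sub_apply, h0, h0', sub_self, add_zero] at h1
    have h2 : (K * E) i i = 0 := by
      rw [hE, Matrix.mul_diagonal, h0, zero_mul]
    have h3 : (E * K') i i = 0 := by
      rw [hE, Matrix.diagonal_mul, h0', mul_zero]
    have h4 : E i i = d i - 1 := by rw [hE, Matrix.diagonal_apply_eq]
    have h5 : (K * E * K') i i = ∑ j, K i j * (d j - 1) * K' j i := by
      rw [Matrix.mul_apply]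
      refine Finset.sum_congr rfl fun j _ => ?_
      rw [hE, Matrix.mul_diagonal]
    rw [h2, h3, h4, h5] at h1
    linear_combination -h1
  have hE0 : ∀ i, d i - 1 = 0 := by
    by_contra hcon
    push Not at hcon
    obtain ⟨i0, hi0⟩ := hcon
    obtain ⟨i, -, hi⟩ := Finset.exists_max_image Finset.univ (fun i => ‖d i - 1‖)
      ⟨i0, Finset.mem_univ i0⟩
    have hpos : 0 < ‖d i - 1‖ := lt_of_lt_of_le (norm_pos_iff.2 hi0) (hi i0 (Finset.mem_univ _))
    have h1 : ‖d i - 1‖ ≤ ∑ j, ‖K i j‖ * ‖d i - 1‖ * ‖K' j i‖ := by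
      calc ‖d i - 1‖ = ‖∑ j, K i j * (d j - 1) * K' j i‖ := by rw [← hdg i]
        _ ≤ ∑ j, ‖K i j * (d j - 1) * K' j i‖ := norm_sum_le _ _
        _ ≤ ∑ j, ‖K i j‖ * ‖d i - 1‖ * ‖K' j i‖ := by
            refine Finset.sum_le_sum fun j _ => ?_
            rw [norm_mul, norm_mul]
            have := hi j (Finset.mem_univ _)
            gcongr
    have h2 : ∑ j, ‖K i j‖ * ‖d i - 1‖ * ‖K' j i‖ ≤
        ‖d i - 1‖ * ∑ j, (‖K i j‖ ^ 2 + ‖K' j i‖ ^ 2) / 2 := by
      rw [Finset.mul_sum]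
      refine Finset.sum_le_sum fun j _ => ?_
      have : ‖K i j‖ * ‖K' j i‖ ≤ (‖K i j‖ ^ 2 + ‖K' j i‖ ^ 2) / 2 := by
        nlinarith [sq_nonneg (‖K i j‖ - ‖K' j i‖)]
      calc ‖K i j‖ * ‖d i - 1‖ * ‖K' j i‖ = ‖d i - 1‖ * (‖K i j‖ * ‖K' j i‖) := by ring
        _ ≤ _ := by gcongr
    have h3 : ∑ j, (‖K i j‖ ^ 2 + ‖K' j i‖ ^ 2) / 2 ≤ 1 / 100 := by
      rw [← Finset.sum_div, Finset.sum_add_distrib]
      have := W4x.row_le K i
      have := W4x.col_le K' i
      linarith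
    nlinarith
  have hEz : E = 0 := by
    rw [hE]
    ext i j
    by_cases hij : i = j
    · subst hij
      simp [hE0]
    · simp [hij]
  rw [hEz] at e2
  have e3 : K - K' + (K - K') = 0 := by
    rw [e2]
    simp
  have e4 : K - K' = 0 := by
    ext i j
    have := congrFun (congrFun e3 i) j
    simp only [Matrix.add_apply, Matrix.zero_apply] at this ⊢
    have h2 : (2 : 𝕜) * ((K - K') i j) = 0 := by
      rw [two_mul]
      exact this
    rcases mul_eq_zero.1 h2 with h | h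
    · exact absurd h two_ne_zero
    · exact h
  exact sub_eq_zero.1 e4

theorem G0_injOn (h : Fr Φ) : InjOn (G0 Φ) (DD Φ) := by
  intro y hy y' hy' heq
  have hsk : ∀ z, (sk (Φ z))ᴴ = - sk (Φ z) := fun z => W4x.sk_conj _ (h.herm z)
  have h1 : ∀ z, Φ (G0 Φ z) = cay (sk (Φ z)) * dm 𝕜 (dp Φ z) * (cay (sk (Φ z)))ᴴ := by
    intro z
    rw [G0, Phi_cj h, Phi_dg h]
  have hu := (cay_unit _ (hsk y)).2.2
  have hu' := (cay_unit _ (hsk y')).2.2
  have h2 : cay (sk (Φ y)) * dm 𝕜 (dp Φ y) * (cay (sk (Φ y)))ᴴ =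
      cay (sk (Φ y')) * dm 𝕜 (dp Φ y') * (cay (sk (Φ y')))ᴴ := by
    rw [← h1, ← h1, heq]
  obtain ⟨hd, d, hdU, -⟩ := spec_unique _ _ hu hu' _ _ hy.1 hy'.1 h2
  have hK : sk (Φ y') = sk (Φ y) := cay_inj (sk (Φ y')) (sk (Φ y)) (hsk y') (hsk y)
    (W4x.sk_diag _) (W4x.sk_diag _) hy'.2 hy.2 d hdU
  have hre : ∀ z i, ((RCLike.re (Φ z i i) : ℝ) : 𝕜) = Φ z i i := by
    intro z i
    have := congrFun (congrFun (h.herm z) i) i
    rw [Matrix.conjTranspose_apply] at this
    exact RCLike.conj_eq_iff_re.1 this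
  have hΦ : Φ y = Φ y' := by
    ext i j
    have hij := congrFun (congrFun hK i) j
    simp only [sk, Matrix.of_apply] at hij
    rcases lt_trichotomy i j with hlt | hlt | hlt
    · rw [if_pos hlt, if_pos hlt] at hij
      exact hij.symm
    · subst hlt
      have h3 : dp Φ y i = dp Φ y' i := by rw [hd]
      have h4 : RCLike.re (Φ y i i) = RCLike.re (Φ y' i i) := h3
      rw [← hre y i, ← hre y' i, h4]
    · rw [if_neg (not_lt.2 hlt.le), if_pos hlt, if_neg (not_lt.2 hlt.le), if_pos hlt] at hij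
      exact (neg_injective hij).symm
  rw [← ps_Phi h y, hΦ, ps_Phi h]

end Pool.Agent.H888R2.KC
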