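import Pool.Agent.H888R2.KC.Defs
import Pool.Agent.H888R2.KC.F1
import Pool.Agent.H888R2.KC.F2
import Pool.Agent.H888R2.KC.W2b

/-!
# Derivative of the local parametrisation
-/

set_option autoImplicit false

namespace Pool.Agent.H888R2.KC

open MeasureTheory Set Matrix
open scoped ENNReal InnerProductSpace
open Pool.Agent.H212R2.KLS (mu Bdd ev gr)

namespace W5bx

section abstract

variable {R E F : Type*} [NormedRing R] [NormedAlgebra ℝ R] [NormedAddCommGroup E]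
  [NormedSpace ℝ E] [NormedAddCommGroup F] [NormedSpace ℝ F]

theorem mulD {a b : E → R} {a' b' : E →L[ℝ] R} {x : E} (ha : HasFDerivAt a a' x)
    (hb : HasFDerivAt b b' x) :
    ∃ D : E →L[ℝ] R, (∀ h, D h = a x * b' h + a' h * b x) ∧
      HasFDerivAt (fun y => a y * b y) D x :=
  ⟨_, fun h => by simp, ha.mul' hb⟩

theorem invD [HasSummableGeomSeries R] (k : E →L[ℝ] R) (y : E) (hu : IsUnit (1 + k y)) :
    ∃ D : E →L[ℝ] R, (∀ h, D h = - (Ring.inverse (1 + k y) * k h * Ring.inverse (1 + k y))) ∧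
      HasFDerivAt (fun z => Ring.inverse (1 + k z)) D y := by
  obtain ⟨u, hu⟩ := hu
  have h1 := hasFDerivAt_ringInverse (𝕜 := ℝ) u
  have h2 : HasFDerivAt (fun z => 1 + k z) k y := k.hasFDerivAt.const_add 1
  rw [hu] at h1
  have h3 := h1.comp y h2
  refine ⟨_, fun h => ?_, h3⟩
  rw [← hu]
  simp [ContinuousLinearMap.mulLeftRight_apply]

theorem cayD [HasSummableGeomSeries R] (k : E →L[ℝ] R) (y : E) (hu : IsUnit (1 + k y)) :
    ∃ D : E →L[ℝ] R,
      (∀ h, D h = -(2 : ℝ) • (Ring.inverse (1 + k y) * k h * Ring.inverse (1 + k y))) ∧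
      HasFDerivAt (fun z => (1 - k z) * Ring.inverse (1 + k z)) D y := by
  obtain ⟨D1, hD1, hd1⟩ := invD k y hu
  have h2 : HasFDerivAt (fun z => 1 - k z) (-k) y := k.hasFDerivAt.const_sub 1
  obtain ⟨D2, hD2, hd2⟩ := mulD h2 hd1
  refine ⟨D2, fun h => ?_, hd2⟩
  rw [hD2, hD1]
  have e1 : (1 + k y) * Ring.inverse (1 + k y) = 1 := Ring.mul_inverse_cancel _ hu
  set J := Ring.inverse (1 + k y) with hJ
  have e2 : (1 - k y) * J = J + J - 1 := by
    have e4 : (1 + k y) * J = J + k y * J := by rw [add_mul, one_mul]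
    rw [e4] at e1
    have e5 : k y * J = 1 - J := by rw [← e1]; abel
    rw [sub_mul, one_mul, e5]
    abel
  have e3 : (1 - k y) * -(J * k h * J) + (-k) h * J =
      -(((1 - k y) * J + 1) * (k h * J)) := by
    have : (-k) h = - k h := rfl
    rw [this]
    noncomm_ring
  rw [e3, e2, sub_add_cancel, add_mul, neg_smul, two_smul, mul_assoc J]

theorem absD [FiniteDimensional ℝ R] [FiniteDimensional ℝ E] (k l : E → R) (c : R → R)
    (p : R → F) (hk : IsLinearMap ℝ k) (hl : IsLinearMap ℝ l) (hc : IsLinearMap ℝ c)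
    (hp : IsLinearMap ℝ p) (y : E) (hu : IsUnit (1 + k y)) :
    ∃ D : E →L[ℝ] F, (∀ x, D x =
      p ((1 - k y) * Ring.inverse (1 + k y) * l y *
          c (-(2 : ℝ) • (Ring.inverse (1 + k y) * k x * Ring.inverse (1 + k y))) +
        ((1 - k y) * Ring.inverse (1 + k y) * l x +
          (-(2 : ℝ) • (Ring.inverse (1 + k y) * k x * Ring.inverse (1 + k y))) * l y) *
          c ((1 - k y) * Ring.inverse (1 + k y)))) ∧
      HasFDerivAt (fun z => p ((1 - k z) * Ring.inverse (1 + k z) * l z *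
        c ((1 - k z) * Ring.inverse (1 + k z)))) D y := by
  haveI : CompleteSpace R := FiniteDimensional.complete ℝ R
  set k' : E →L[ℝ] R := LinearMap.toContinuousLinearMap hk.mk' with hk'
  set l' : E →L[ℝ] R := LinearMap.toContinuousLinearMap hl.mk' with hl'
  set c' : R →L[ℝ] R := LinearMap.toContinuousLinearMap hc.mk' with hc'
  set p' : R →L[ℝ] F := LinearMap.toContinuousLinearMap hp.mk' with hp'
  have hk1 : ∀ z, k z = k' z := fun z => rfl
  have hl1 : ∀ z, l z = l' z := fun z => rfl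
  have hc1 : ∀ z, c z = c' z := fun z => rfl
  have hp1 : ∀ z, p z = p' z := fun z => rfl
  simp only [hk1, hl1, hc1, hp1] at hu ⊢
  obtain ⟨D2, hD2, hd2⟩ := cayD k' y hu
  obtain ⟨D3, hD3, hd3⟩ := mulD hd2 l'.hasFDerivAt
  have h4 : HasFDerivAt (fun z => c' ((1 - k' z) * Ring.inverse (1 + k' z))) (c'.comp D2) y :=
    c'.hasFDerivAt.comp y hd2
  obtain ⟨D4, hD4, hd4⟩ := mulD hd3 h4
  refine ⟨p'.comp D4, fun x => ?_, p'.hasFDerivAt.comp y hd4⟩
  rw [ContinuousLinearMap.comp_apply, hD4, hD3, ContinuousLinearMap.comp_apply, hD2]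

end abstract

section mat

variable {𝕜 : Type} [RCLike 𝕜] {N : ℕ} {ι : Type} [Fintype ι]
  {Φ : EuclideanSpace ℝ ι →ₗ[ℝ] Matrix (Fin N) (Fin N) 𝕜}

theorem kk_lin (Φ : EuclideanSpace ℝ ι →ₗ[ℝ] Matrix (Fin N) (Fin N) 𝕜) :
    IsLinearMap ℝ fun y => sk (Φ y) where
  map_add x y := by rw [map_add, sk_add]
  map_smul c x := by rw [map_smul, sk_smul]

theorem ll_lin (Φ : EuclideanSpace ℝ ι →ₗ[ℝ] Matrix (Fin N) (Fin N) 𝕜) :
    IsLinearMap ℝ fun y => dm 𝕜 (dp Φ y) where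
  map_add x y := by
    ext i j
    by_cases h : i = j
    · subst h; simp [dm, dp]
    · simp [dm, h]
  map_smul c x := by
    ext i j
    by_cases h : i = j
    · subst h; simp [dm, dp, RCLike.real_smul_eq_coe_mul]
    · simp [dm, h]

theorem ct_lin : IsLinearMap ℝ fun A : Matrix (Fin N) (Fin N) 𝕜 => Aᴴ where
  map_add A B := Matrix.conjTranspose_add A B
  map_smul c A := by
    ext i j
    simp [Matrix.conjTranspose_apply]

theorem sk_skew (A : Matrix (Fin N) (Fin N) 𝕜) (hA : Aᴴ = A) : (sk A)ᴴ = - sk A := by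
  ext i j
  have h1 : star (A j i) = A i j := congrFun (congrFun hA i) j
  rw [Matrix.conjTranspose_apply, Matrix.neg_apply]
  simp only [sk, Matrix.of_apply]
  rcases lt_trichotomy i j with h | h | h
  · rw [if_neg h.not_gt, if_pos h, if_pos h, star_neg, h1]
  · subst h
    simp
  · rw [if_pos h, if_neg h.not_gt, if_pos h, h1, neg_neg]

theorem sk_herm (A : Matrix (Fin N) (Fin N) 𝕜) (hA : Aᴴ = -A) : (sk A)ᴴ = sk A := by
  ext i j
  have h1 : star (A j i) = - A i j := congrFun (congrFun hA i) j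
  rw [Matrix.conjTranspose_apply]
  simp only [sk, Matrix.of_apply]
  rcases lt_trichotomy i j with h | h | h
  · rw [if_neg h.not_gt, if_pos h, if_pos h, star_neg, h1, neg_neg]
  · subst h
    simp
  · rw [if_pos h, if_neg h.not_gt, if_pos h, h1]

theorem fd : FiniteDimensional ℝ (Matrix (Fin N) (Fin N) 𝕜) := inferInstance

open scoped Matrix.Norms.Operator in
theorem main_deriv' (y : EuclideanSpace ℝ ι) (hu : IsUnit (1 + sk (Φ y))) :
    ∃ D : EuclideanSpace ℝ ι →L[ℝ] EuclideanSpace ℝ ι,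
      (∀ x, D x = ps Φ ((1 - sk (Φ y)) * Ring.inverse (1 + sk (Φ y)) * dm 𝕜 (dp Φ y) *
          (-(2 : ℝ) • (Ring.inverse (1 + sk (Φ y)) * sk (Φ x) * Ring.inverse (1 + sk (Φ y))))ᴴ +
        ((1 - sk (Φ y)) * Ring.inverse (1 + sk (Φ y)) * dm 𝕜 (dp Φ x) +
          (-(2 : ℝ) • (Ring.inverse (1 + sk (Φ y)) * sk (Φ x) * Ring.inverse (1 + sk (Φ y)))) *
            dm 𝕜 (dp Φ y)) *
          ((1 - sk (Φ y)) * Ring.inverse (1 + sk (Φ y)))ᴴ)) ∧
      HasFDerivAt (fun z => ps Φ ((1 - sk (Φ z)) * Ring.inverse (1 + sk (Φ z)) * dm 𝕜 (dp Φ z) *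
        ((1 - sk (Φ z)) * Ring.inverse (1 + sk (Φ z)))ᴴ)) D y := by
  haveI := fd (𝕜 := 𝕜) (N := N)
  exact absD (R := Matrix (Fin N) (Fin N) 𝕜) (fun z => sk (Φ z)) (fun z => dm 𝕜 (dp Φ z))
    (fun A => Aᴴ) (fun A => ps Φ A) (kk_lin Φ) (ll_lin Φ) ct_lin (ps Φ).isLinear y hu

theorem herm_diag (h : Fr Φ) (x : EuclideanSpace ℝ ι) (i : Fin N) :
    ((RCLike.re (Φ x i i) : ℝ) : 𝕜) = Φ x i i := by
  have h1 : star (Φ x i i) = Φ x i i := congrFun (congrFun (h.herm x) i) i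
  exact RCLike.conj_eq_iff_re.1 h1

theorem Phi_MM (h : Fr Φ) (w : Matrix (Fin N) (Fin N) 𝕜) (hw : wᴴ = -w)
    (x : EuclideanSpace ℝ ι) :
    Φ (ps Φ (Matrix.diagonal (fun i => Φ x i i) + sk w)) =
      Matrix.diagonal (fun i => Φ x i i) + sk w := by
  apply Phi_ps h
  rw [Matrix.conjTranspose_add, sk_herm w hw, Matrix.diagonal_conjTranspose]
  congr 2
  funext i
  exact congrFun (congrFun (h.herm x) i) i

theorem Phi_TT (h : Fr Φ) (l : EuclideanSpace ℝ (Fin N)) (z : EuclideanSpace ℝ ι) :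
    Φ (TT Φ l z) = Matrix.of fun i j => (if i < j then l j - l i else if j < i then l i - l j
      else 1 : ℝ) • Φ z i j := by
  have h1 := Phi_ps h (Matrix.of fun i j => (if i < j then l j - l i else
    if j < i then l i - l j else 1 : ℝ) • Φ z i j) (by
      ext i j
      have h2 : star (Φ z j i) = Φ z i j := congrFun (congrFun (h.herm z) i) j
      rw [Matrix.conjTranspose_apply, Matrix.of_apply, Matrix.of_apply, star_smul, h2]
      rw [star_trivial]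
      congr 1
      rcases lt_trichotomy i j with h3 | h3 | h3
      · rw [if_neg h3.not_gt, if_pos h3, if_pos h3]
      · subst h3
        rfl
      · rw [if_pos h3, if_neg h3.not_gt, if_pos h3])
  exact h1

theorem comm_eq (h : Fr Φ) (l : EuclideanSpace ℝ (Fin N)) (w : Matrix (Fin N) (Fin N) 𝕜)
    (hw : wᴴ = -w) (x : EuclideanSpace ℝ ι) :
    Φ (TT Φ l (ps Φ (Matrix.diagonal (fun i => Φ x i i) + sk w))) =
      w * dm 𝕜 l - dm 𝕜 l * w + dm 𝕜 (dp Φ x) := by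
  rw [Phi_TT h, Phi_MM h w hw]
  ext i j
  have h4 : (w * dm 𝕜 l) i j = w i j * ((l j : ℝ) : 𝕜) := by
    unfold dm
    rw [Matrix.mul_diagonal]
  have h5 : (dm 𝕜 l * w) i j = ((l i : ℝ) : 𝕜) * w i j := by
    unfold dm
    rw [Matrix.diagonal_mul]
  rw [Matrix.of_apply, Matrix.add_apply, Matrix.add_apply, Matrix.sub_apply, h4, h5]
  rcases lt_trichotomy i j with h3 | h3 | h3
  · rw [if_pos h3, Matrix.diagonal_apply_ne _ h3.ne]
    have h6 : dm 𝕜 (dp Φ x) i j = 0 := Matrix.diagonal_apply_ne _ h3.ne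
    have h7 : sk w i j = w i j := by
      unfold sk
      rw [Matrix.of_apply, if_pos h3]
    rw [h6, h7, RCLike.real_smul_eq_coe_mul, RCLike.ofReal_sub]
    ring
  · subst h3
    rw [if_neg (lt_irrefl _), if_neg (lt_irrefl _), Matrix.diagonal_apply_eq]
    have h6 : dm 𝕜 (dp Φ x) i i = Φ x i i := by
      unfold dm
      rw [Matrix.diagonal_apply_eq]
      exact herm_diag h x i
    have h7 : sk w i i = 0 := by
      unfold sk
      rw [Matrix.of_apply, if_neg (lt_irrefl _), if_neg (lt_irrefl _)]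
    rw [h6, h7, one_smul]
    ring
  · rw [if_neg h3.not_gt, if_pos h3, Matrix.diagonal_apply_ne _ h3.ne']
    have h6 : dm 𝕜 (dp Φ x) i j = 0 := Matrix.diagonal_apply_ne _ h3.ne'
    have h7 : sk w i j = - w i j := by
      unfold sk
      rw [Matrix.of_apply, if_neg h3.not_gt, if_pos h3]
    rw [h6, h7, RCLike.real_smul_eq_coe_mul, RCLike.ofReal_sub]
    ring

end mat

end W5bx

open W5bx

theorem G0_deriv {𝕜 : Type} [RCLike 𝕜] {N : ℕ} {ι : Type} [Fintype ι]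
    {Φ : EuclideanSpace ℝ ι →ₗ[ℝ] Matrix (Fin N) (Fin N) 𝕜} (h : Fr Φ)
    (y : EuclideanSpace ℝ ι) :
    HasFDerivAt (G0 Φ) (LinearMap.toContinuousLinearMap
      (cj Φ (cay (sk (Φ y))) ∘ₗ TT Φ (dp Φ y) ∘ₗ MM Φ (sk (Φ y)))) y := by
  obtain ⟨hu1, hu2, _⟩ := cay_unit (sk (Φ y)) (sk_skew _ (h.herm y))
  obtain ⟨D, hD, hd⟩ := main_deriv' (Φ := Φ) y ((Matrix.isUnit_iff_isUnit_det _).2 hu1)
  have hG : G0 Φ = (fun z => ps Φ ((1 - sk (Φ z)) * Ring.inverse (1 + sk (Φ z)) *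
      dm 𝕜 (dp Φ z) * ((1 - sk (Φ z)) * Ring.inverse (1 + sk (Φ z)))ᴴ)) := by
    funext z
    show ps Φ (cay (sk (Φ z)) * Φ (dg Φ (dp Φ z)) * (cay (sk (Φ z)))ᴴ) = _
    rw [Phi_dg h, cay, Matrix.nonsing_inv_eq_ringInverse]
  rw [hG]
  have hDD : D = LinearMap.toContinuousLinearMap
      (cj Φ (cay (sk (Φ y))) ∘ₗ TT Φ (dp Φ y) ∘ₗ MM Φ (sk (Φ y))) := by
    ext1 x
    rw [hD]
    show _ = ps Φ (cay (sk (Φ y)) * Φ (TT Φ (dp Φ y) (ps Φ (Matrix.diagonal
      (fun i => Φ x i i) + sk ((-2 : ℝ) • ((1 - sk (Φ y))⁻¹ * sk (Φ x) *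
        (1 + sk (Φ y))⁻¹))))) * (cay (sk (Φ y)))ᴴ)
    have hK : (sk (Φ y))ᴴ = - sk (Φ y) := sk_skew _ (h.herm y)
    have hk : (sk (Φ x))ᴴ = - sk (Φ x) := sk_skew _ (h.herm x)
    have hP : ((1 + sk (Φ y))⁻¹)ᴴ = (1 - sk (Φ y))⁻¹ := by
      rw [Matrix.conjTranspose_nonsing_inv, Matrix.conjTranspose_add,
        Matrix.conjTranspose_one, hK, ← sub_eq_add_neg]
    have hQ : ((1 - sk (Φ y))⁻¹)ᴴ = (1 + sk (Φ y))⁻¹ := by
      rw [Matrix.conjTranspose_nonsing_inv, Matrix.conjTranspose_sub,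
        Matrix.conjTranspose_one, hK, sub_neg_eq_add]
    set K := sk (Φ y) with hKd
    set k := sk (Φ x) with hkd
    have hcs : ∀ A : Matrix (Fin N) (Fin N) 𝕜, ((-2 : ℝ) • A)ᴴ = (-2 : ℝ) • Aᴴ := by
      intro A
      rw [Matrix.conjTranspose_smul, star_trivial]
    have hw : ((-2 : ℝ) • ((1 - K)⁻¹ * k * (1 + K)⁻¹))ᴴ =
        -((-2 : ℝ) • ((1 - K)⁻¹ * k * (1 + K)⁻¹)) := by
      rw [hcs, Matrix.conjTranspose_mul, Matrix.conjTranspose_mul, hP, hQ, hk, neg_mul,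
        mul_neg, smul_neg, mul_assoc]
    rw [comm_eq h _ _ hw x]
    have hPP : (1 + K) * (1 + K)⁻¹ = 1 := Matrix.mul_nonsing_inv _ hu1
    have hPP' : (1 + K)⁻¹ * (1 + K) = 1 := Matrix.nonsing_inv_mul _ hu1
    have hQQ : (1 - K) * (1 - K)⁻¹ = 1 := Matrix.mul_nonsing_inv _ hu2
    have hcom : (1 - K) * (1 + K)⁻¹ = (1 + K)⁻¹ * (1 - K) := by
      have e1 : (1 + K) * (1 - K) = (1 - K) * (1 + K) := by noncomm_ring
      calc (1 - K) * (1 + K)⁻¹ = (1 + K)⁻¹ * (1 + K) * ((1 - K) * (1 + K)⁻¹) := by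
            rw [hPP', one_mul]
        _ = (1 + K)⁻¹ * ((1 + K) * (1 - K)) * (1 + K)⁻¹ := by noncomm_ring
        _ = (1 + K)⁻¹ * (1 - K) * ((1 + K) * (1 + K)⁻¹) := by rw [e1]; noncomm_ring
        _ = (1 + K)⁻¹ * (1 - K) := by rw [hPP, mul_one]
    have hdU : -(2 : ℝ) • ((1 + K)⁻¹ * k * (1 + K)⁻¹) =
        cay K * ((-2 : ℝ) • ((1 - K)⁻¹ * k * (1 + K)⁻¹)) := by
      rw [cay, hcom, mul_smul_comm]
      congr 1
      calc (1 + K)⁻¹ * k * (1 + K)⁻¹ = (1 + K)⁻¹ * ((1 - K) * (1 - K)⁻¹) * k * (1 + K)⁻¹ := by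
            rw [hQQ, mul_one]
        _ = _ := by noncomm_ring
    rw [← Matrix.nonsing_inv_eq_ringInverse, hdU]
    have hcay : (1 - K) * (1 + K)⁻¹ = cay K := rfl
    rw [hcay]
    set w := (-2 : ℝ) • ((1 - K)⁻¹ * k * (1 + K)⁻¹) with hwd
    rw [Matrix.conjTranspose_mul, hw]
    congr 1
    noncomm_ring
  rw [← hDD]
  exact hd

end Pool.Agent.H888R2.KC
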