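import Pool.Agent.H888R2.KC.Defs
import Pool.Agent.H888R2.KC.F1
import Pool.Agent.H888R2.KC.W5d

/-! # Fubini on the explicit frame (W6a) -/

set_option autoImplicit false

namespace Pool.Agent.H888R2.KC

open MeasureTheory Set Matrix
open scoped ENNReal InnerProductSpace

namespace W6ax

/-- splitting of the coordinates -/
noncomputable def sp (ι κ : Type) (y : EuclideanSpace ℝ (ι ⊕ κ)) :
    EuclideanSpace ℝ ι × EuclideanSpace ℝ κ :=
  (WithLp.toLp 2 fun i => y (Sum.inl i), WithLp.toLp 2 fun i => y (Sum.inr i))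

theorem sp_mp (ι κ : Type) [Fintype ι] [Fintype κ] :
    MeasurePreserving (sp ι κ) volume (volume.prod volume) := by
  have h1 := PiLp.volume_preserving_ofLp (ι ⊕ κ)
  have h2 := volume_measurePreserving_sumPiEquivProdPi (fun _ : ι ⊕ κ => ℝ)
  have h3 := (PiLp.volume_preserving_toLp ι).prod (PiLp.volume_preserving_toLp κ)
  exact h3.comp (h2.comp h1)

theorem meas_coord {ι : Type} [Fintype ι] (i : ι) :
    Measurable fun y : EuclideanSpace ℝ ι => y i :=
  (EuclideanSpace.proj (𝕜 := ℝ) i).continuous.measurable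

theorem meas_Ch (N : ℕ) : MeasurableSet (Ch N) := by
  have : Ch N = ⋂ i : Fin N, ⋂ j : Fin N, ⋂ (_ : i < j),
      {l : EuclideanSpace ℝ (Fin N) | l i < l j} := by
    ext l
    simp only [Ch, mem_ofPred_eq, mem_iInter]
    constructor
    · intro h i j hij
      exact h hij
    · intro h i j hij
      exact h i j hij
  rw [this]
  exact MeasurableSet.iInter fun i => MeasurableSet.iInter fun j => MeasurableSet.iInter fun _ =>
    measurableSet_lt (meas_coord i) (meas_coord j)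

theorem dp_eq (𝕜 : Type) [RCLike 𝕜] (N : ℕ) (y : EuclideanSpace ℝ (II 𝕜 N)) :
    dp (F0 𝕜 N) y = WithLp.toLp 2 fun i => y (Sum.inl i) := by
  ext i
  exact dp_F0 y i

theorem dg_eq (𝕜 : Type) [RCLike 𝕜] (N : ℕ) (l : EuclideanSpace ℝ (Fin N)) :
    dg (F0 𝕜 N) l = WithLp.toLp 2 (Sum.elim l.ofLp fun _ => 0) := by
  have h : F0 𝕜 N (WithLp.toLp 2 (Sum.elim l.ofLp fun _ => 0)) = dm 𝕜 l := by
    ext i j
    simp only [F0, LinearMap.coe_mk, AddHom.coe_mk, Matrix.of_apply, dm, Matrix.diagonal_apply]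
    rcases lt_trichotomy i j with h1 | h1 | h1
    · rw [dif_pos h1, if_neg (ne_of_lt h1)]
      simp [up]
    · subst h1
      rw [dif_neg (lt_irrefl _), dif_neg (lt_irrefl _), if_pos rfl]
      simp
    · rw [dif_neg (not_lt_of_gt h1), dif_pos h1, if_neg (ne_of_gt h1)]
      simp [up]
  have h' := ps_Phi (F0_frame 𝕜 N) (WithLp.toLp 2 (Sum.elim l.ofLp fun _ => 0))
  rw [h] at h'
  exact h'

theorem norm_sq_eq {κ : Type} [Fintype κ] (z : EuclideanSpace ℝ κ) :
    ‖z‖ ^ 2 = ∑ j, z j ^ 2 := by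
  rw [EuclideanSpace.norm_sq_eq]
  simp

end W6ax

open W6ax in
theorem fub_F0 (𝕜 : Type) [RCLike 𝕜] (N : ℕ) (j : EuclideanSpace ℝ (II 𝕜 N) → ℝ≥0∞)
    (hj : Measurable j) (hj' : ∀ y l, j (y + dg (F0 𝕜 N) l) = j y)
    (H : EuclideanSpace ℝ (Fin N) → ℝ≥0∞) (hH : Measurable H) :
    MeasurableSet (DD (F0 𝕜 N)) ∧ ∫⁻ y in DD (F0 𝕜 N), H (dp (F0 𝕜 N) y) * j y =
      (∫⁻ l in Ch N, H l) * ∫⁻ z in {z : EuclideanSpace ℝ (JJ 𝕜 N) | ‖z‖ ^ 2 < 1 / 100},
        j (WithLp.toLp 2 (Sum.elim (fun _ => 0) z.ofLp)) := by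
  classical
  set B : Set (EuclideanSpace ℝ (JJ 𝕜 N)) := {z | ‖z‖ ^ 2 < 1 / 100} with hB
  have hBm : MeasurableSet B := by
    refine measurableSet_lt ?_ measurable_const
    exact (continuous_norm.pow 2).measurable
  have hsp := sp_mp (Fin N) (JJ 𝕜 N)
  have hDD : DD (F0 𝕜 N) = sp (Fin N) (JJ 𝕜 N) ⁻¹' (Ch N ×ˢ B) := by
    ext y
    simp only [DD, mem_ofPred_eq, mem_preimage, mem_prod, sp, hB]
    rw [dp_eq, ip_F0, norm_sq_eq]
  have hm : MeasurableSet (DD (F0 𝕜 N)) := by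
    rw [hDD]
    exact hsp.measurable ((meas_Ch N).prod hBm)
  refine ⟨hm, ?_⟩
  set j0 : EuclideanSpace ℝ (JJ 𝕜 N) → ℝ≥0∞ := fun z =>
    j (WithLp.toLp 2 (Sum.elim (fun _ => 0) z.ofLp)) with hj0
  have hj0m : Measurable j0 := by
    refine hj.comp ?_
    refine (WithLp.measurable_toLp 2 _).comp ?_
    rw [measurable_pi_iff]
    rintro (i | i)
    · exact measurable_const
    · exact meas_coord i
  have hjy : ∀ y, j y = j0 (sp (Fin N) (JJ 𝕜 N) y).2 := by
    intro y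
    have h1 : y = WithLp.toLp 2 (Sum.elim (fun _ => 0) (fun i => y (Sum.inr i))) +
        dg (F0 𝕜 N) (WithLp.toLp 2 fun i => y (Sum.inl i)) := by
      rw [dg_eq]
      ext i
      rcases i with i | i <;> simp
    conv_lhs => rw [h1]
    rw [hj']
    rfl
  have e1 : ∫⁻ y in DD (F0 𝕜 N), H (dp (F0 𝕜 N) y) * j y =
      ∫⁻ y, ((Ch N).indicator H (sp (Fin N) (JJ 𝕜 N) y).1 *
        B.indicator j0 (sp (Fin N) (JJ 𝕜 N) y).2) := by
    rw [← lintegral_indicator hm]
    refine lintegral_congr fun y => ?_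
    by_cases hy : y ∈ DD (F0 𝕜 N)
    · have hy' := hy
      rw [hDD] at hy'
      rw [indicator_of_mem hy, indicator_of_mem hy'.1, indicator_of_mem hy'.2, hjy y, dp_eq]
      rfl
    · have hy' := hy
      rw [hDD] at hy'
      rw [indicator_of_notMem hy]
      by_cases h1 : (sp (Fin N) (JJ 𝕜 N) y).1 ∈ Ch N
      · have h2 : (sp (Fin N) (JJ 𝕜 N) y).2 ∉ B := fun h2 => hy' ⟨h1, h2⟩
        rw [indicator_of_notMem h2, mul_zero]
      · rw [indicator_of_notMem h1, zero_mul]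
  rw [e1]
  have hm1 : Measurable ((Ch N).indicator H) := hH.indicator (meas_Ch N)
  have hm2 : Measurable (B.indicator j0) := hj0m.indicator hBm
  have e2 := hsp.lintegral_comp (f := fun p : EuclideanSpace ℝ (Fin N) × EuclideanSpace ℝ (JJ 𝕜 N) =>
    (Ch N).indicator H p.1 * B.indicator j0 p.2)
    ((hm1.comp measurable_fst).mul (hm2.comp measurable_snd))
  rw [e2, lintegral_prod_mul hm1.aemeasurable hm2.aemeasurable, lintegral_indicator (meas_Ch N),
    lintegral_indicator hBm]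

end Pool.Agent.H888R2.KC
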