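import Pool.Agent.H888R2.KC.Defs
import Pool.Agent.H888R2.KC.F1
import Pool.Agent.H888R2.KC.F2
import Pool.Agent.H888R2.KC.W2b
import Pool.Agent.H888R2.KC.W3
import Pool.Agent.H888R2.KC.W4
import Pool.Agent.H888R2.KC.W5c
import Pool.Agent.H888R2.KC.W5d
import Pool.Agent.H888R2.KC.W6b

/-!
# W7: the Weyl integration formula for the explicit frame (averaging over the unitary group)
-/

set_option autoImplicit false

namespace Pool.Agent.H888R2.KC

open MeasureTheory Set Matrix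
open scoped ENNReal InnerProductSpace

namespace W7x

variable {𝕜 : Type} [RCLike 𝕜] {N : ℕ} {ι : Type} [Fintype ι]
  {Φ : EuclideanSpace ℝ ι →ₗ[ℝ] Matrix (Fin N) (Fin N) 𝕜}

/-- the unitary group as a type -/
abbrev UG (𝕜 : Type) [RCLike 𝕜] (N : ℕ) : Type := Matrix.unitaryGroup (Fin N) 𝕜

local instance instMS : MeasurableSpace (UG 𝕜 N) := borel _
local instance instBS : BorelSpace (UG 𝕜 N) := ⟨rfl⟩

theorem compactU (𝕜 : Type) [RCLike 𝕜] (N : ℕ) : CompactSpace (UG 𝕜 N) := by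
  have hcl : IsClosed ((Matrix.unitaryGroup (Fin N) 𝕜 : Set (Matrix (Fin N) (Fin N) 𝕜))) := by
    have : (Matrix.unitaryGroup (Fin N) 𝕜 : Set (Matrix (Fin N) (Fin N) 𝕜)) =
        {A | A * star A = 1} := by
      ext A
      exact Matrix.mem_unitaryGroup_iff
    rw [this]
    exact isClosed_eq (continuous_id.mul continuous_star) continuous_const
  have hsub : (Matrix.unitaryGroup (Fin N) 𝕜 : Set (Matrix (Fin N) (Fin N) 𝕜)) ⊆
      Set.pi Set.univ (fun _ : Fin N => Set.pi Set.univ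
        (fun _ : Fin N => Metric.closedBall (0 : 𝕜) 1)) := by
    intro A hA i _ j _
    rw [mem_closedBall_zero_iff]
    exact entry_norm_bound_of_unitary hA i j
  have hc : IsCompact (Set.pi Set.univ
      (fun _ : Fin N => Set.pi Set.univ (fun _ : Fin N => Metric.closedBall (0 : 𝕜) 1))) :=
    isCompact_univ_pi fun _ => isCompact_univ_pi fun _ => isCompact_closedBall _ _
  exact isCompact_iff_compactSpace.mp (hc.of_isClosed_subset hcl hsub)

omit [Fintype ι] in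
theorem cont_ps (Φ : EuclideanSpace ℝ ι →ₗ[ℝ] Matrix (Fin N) (Fin N) 𝕜) : Continuous (ps Φ) := by
  classical
  have h : Continuous (fun A : Matrix (Fin N) (Fin N) 𝕜 => fun k : ι =>
      ip (Φ (EuclideanSpace.single k 1)) A) := by
    refine continuous_pi fun k => ?_
    unfold ip
    refine continuous_finsetSum _ fun i _ => continuous_finsetSum _ fun j _ => ?_
    exact RCLike.continuous_re.comp (continuous_const.mul (continuous_id.matrix_elem i j))
  have h2 : Continuous (fun A : Matrix (Fin N) (Fin N) 𝕜 => (WithLp.toLp 2 (fun k : ι =>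
      ip (Φ (EuclideanSpace.single k 1)) A) : EuclideanSpace ℝ ι)) :=
    (PiLp.continuous_toLp 2 _).comp h
  have e : (ps Φ : Matrix (Fin N) (Fin N) 𝕜 → EuclideanSpace ℝ ι) =
      fun A => WithLp.toLp 2 (fun k : ι => ip (Φ (EuclideanSpace.single k 1)) A) := by
    funext A
    show WithLp.toLp 2 _ = _
    congr 1
  rw [e]
  exact h2

theorem cont_Phi (Φ : EuclideanSpace ℝ ι →ₗ[ℝ] Matrix (Fin N) (Fin N) 𝕜) : Continuous Φ :=
  LinearMap.continuous_of_finiteDimensional Φ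

theorem cont_act (Φ : EuclideanSpace ℝ ι →ₗ[ℝ] Matrix (Fin N) (Fin N) 𝕜) :
    Continuous (fun p : UG 𝕜 N × EuclideanSpace ℝ ι =>
      cj Φ (p.1 : Matrix (Fin N) (Fin N) 𝕜) p.2) := by
  have h1 : Continuous (fun p : UG 𝕜 N × EuclideanSpace ℝ ι =>
      (p.1 : Matrix (Fin N) (Fin N) 𝕜)) := continuous_subtype_val.comp continuous_fst
  have h2 : Continuous (fun p : UG 𝕜 N × EuclideanSpace ℝ ι => Φ p.2) :=
    (cont_Phi Φ).comp continuous_snd
  exact (cont_ps Φ).comp ((h1.mul h2).mul h1.matrix_conjTranspose)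

theorem sk_skew (A : Matrix (Fin N) (Fin N) 𝕜) (hA : Aᴴ = A) : (sk A)ᴴ = - sk A := by
  ext i j
  have h : star (A j i) = A i j := by
    have := congrFun (congrFun hA i) j
    rwa [Matrix.conjTranspose_apply] at this
  rw [Matrix.conjTranspose_apply, Matrix.neg_apply]
  simp only [sk, Matrix.of_apply]
  rcases lt_trichotomy i j with hij | hij | hij
  · rw [if_neg (not_lt.2 hij.le), if_pos hij, if_pos hij, star_neg, h]
  · subst hij
    simp
  · rw [if_pos hij, if_neg (not_lt.2 hij.le), if_pos hij, neg_neg, h]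

omit [Fintype ι] in
theorem dp_add (x y : EuclideanSpace ℝ ι) : dp Φ (x + y) = dp Φ x + dp Φ y := by
  ext i
  simp [dp]

theorem dp_dg (h : Fr Φ) (l : EuclideanSpace ℝ (Fin N)) : dp Φ (dg Φ l) = l := by
  ext i
  show RCLike.re (Φ (dg Φ l) i i) = l i
  rw [Phi_dg h]
  simp [dm]

theorem Phi_inj (h : Fr Φ) {x y : EuclideanSpace ℝ ι} (hxy : Φ x = Φ y) : x = y := by
  rw [← ps_Phi h x, ← ps_Phi h y, hxy]

theorem diag_unitary (d : Fin N → 𝕜) (hd : ∀ i, ‖d i‖ = 1) (l : EuclideanSpace ℝ (Fin N)) :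
    Matrix.diagonal d * dm 𝕜 l * (Matrix.diagonal d)ᴴ = dm 𝕜 l := by
  unfold dm
  rw [Matrix.diagonal_conjTranspose, Matrix.diagonal_mul_diagonal, Matrix.diagonal_mul_diagonal]
  congr 1
  funext i
  show d i * ((l i : ℝ) : 𝕜) * star (d i) = _
  have h1 : d i * star (d i) = 1 := by
    have := RCLike.mul_conj (d i)
    rw [hd i] at this
    simpa using this
  calc d i * ((l i : ℝ) : 𝕜) * star (d i) = (d i * star (d i)) * ((l i : ℝ) : 𝕜) := by ring
    _ = _ := by rw [h1, one_mul]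

theorem cj_diag (h : Fr Φ) (d : Fin N → 𝕜) (hd : ∀ i, ‖d i‖ = 1) (l : EuclideanSpace ℝ (Fin N)) :
    cj Φ (Matrix.diagonal d) (dg Φ l) = dg Φ l := by
  apply Phi_inj h
  rw [Phi_cj h, Phi_dg h, diag_unitary d hd]

/-- the condition on a unitary matrix to be in the tube -/
def PW (Φ : EuclideanSpace ℝ ι →ₗ[ℝ] Matrix (Fin N) (Fin N) 𝕜)
    (W : Matrix (Fin N) (Fin N) 𝕜) : Prop :=
  ∃ y' : EuclideanSpace ℝ ι, ip (sk (Φ y')) (sk (Φ y')) < 1 / 100 ∧
    ∃ d : Fin N → 𝕜, (∀ i, ‖d i‖ = 1) ∧ W = cay (sk (Φ y')) * Matrix.diagonal d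

theorem memA_iff (h : Fr Φ) (W : Matrix (Fin N) (Fin N) 𝕜)
    (hW : W ∈ Matrix.unitaryGroup (Fin N) 𝕜) (l : EuclideanSpace ℝ (Fin N)) (hl : l ∈ Ch N) :
    cj Φ W (dg Φ l) ∈ G0 Φ '' DD Φ ↔ PW Φ W := by
  constructor
  · rintro ⟨y, hy, he⟩
    have hcay := (cay_unit (sk (Φ y)) (sk_skew _ (h.herm y))).2.2
    have he2 : W * dm 𝕜 l * Wᴴ = cay (sk (Φ y)) * dm 𝕜 (dp Φ y) * (cay (sk (Φ y)))ᴴ := by
      have h3 := congrArg Φ he
      unfold G0 at h3
      rw [Phi_cj h, Phi_cj h, Phi_dg h, Phi_dg h] at h3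
      exact h3.symm
    obtain ⟨-, d, hd1, hd2⟩ := spec_unique W (cay (sk (Φ y))) hW hcay l (dp Φ y) hl hy.1 he2
    exact ⟨y, hy.2, d, hd2, hd1⟩
  · rintro ⟨y', hy', d, hd, rfl⟩
    obtain ⟨y, hy⟩ : ∃ y, y = y' + dg Φ (l - dp Φ y') := ⟨_, rfl⟩
    have hsk : sk (Φ y) = sk (Φ y') := by
      rw [hy]
      exact (MM_facts h).2.2 y' (l - dp Φ y')
    have hdp : dp Φ y = l := by
      rw [hy, dp_add, dp_dg h]
      abel
    refine ⟨y, ⟨?_, ?_⟩, ?_⟩
    · rw [hdp]; exact hl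
    · rw [hsk]; exact hy'
    · unfold G0
      rw [hsk, hdp, ← cj_cj h, cj_diag h d hd]

theorem Ch_open : IsOpen (Ch N) := by
  have e : Ch N = ⋂ i : Fin N, ⋂ j : Fin N, ⋂ (_ : i < j), {l : EuclideanSpace ℝ (Fin N) | l i < l j} := by
    ext l
    simp only [mem_iInter]
    constructor
    · intro h i j hij
      exact h hij
    · intro h i j hij
      exact h i j hij
  rw [e]
  refine isOpen_iInter_of_finite fun i => isOpen_iInter_of_finite fun j =>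
    isOpen_iInter_of_finite fun _ => ?_
  exact isOpen_lt (by fun_prop) (by fun_prop)

theorem Ch_nonempty : (WithLp.toLp 2 (fun i : Fin N => ((i : ℕ) : ℝ)) : EuclideanSpace ℝ (Fin N)) ∈ Ch N := by
  intro i j hij
  show ((i : ℕ) : ℝ) < ((j : ℕ) : ℝ)
  exact_mod_cast hij

theorem vd_pos (l : EuclideanSpace ℝ (Fin N)) (hl : l ∈ Ch N) : 0 < vd l := by
  unfold vd
  refine Finset.prod_pos fun p _ => ?_
  have := hl p.2
  simp only at this
  linarith

theorem vd_meas : Measurable (vd : EuclideanSpace ℝ (Fin N) → ℝ) := by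
  have : Continuous (vd : EuclideanSpace ℝ (Fin N) → ℝ) := by
    unfold vd
    exact continuous_finsetProd _ fun p _ => by fun_prop
  exact this.measurable

theorem pos_int (β : ℕ) : ∫⁻ l in Ch N, ENNReal.ofReal (vd l ^ β) ≠ 0 := by
  have hm : Measurable fun l : EuclideanSpace ℝ (Fin N) => ENNReal.ofReal (vd l ^ β) :=
    ENNReal.measurable_ofReal.comp (vd_meas.pow_const β)
  refine (ne_of_gt ?_)
  rw [setLIntegral_pos_iff hm]
  have hsub : Ch N ⊆ Function.support (fun l : EuclideanSpace ℝ (Fin N) =>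
      ENNReal.ofReal (vd l ^ β)) ∩ Ch N := by
    intro l hl
    refine ⟨?_, hl⟩
    rw [Function.mem_support]
    have := pow_pos (vd_pos l hl) β
    simp [this]
  exact lt_of_lt_of_le (Ch_open.measure_pos volume ⟨_, Ch_nonempty⟩) (measure_mono hsub)

/-- the averaging identity -/
theorem key (h : Fr Φ) (hA : MeasurableSet (G0 Φ '' DD Φ)) :
    ∃ c0 mG : ℝ≥0∞, c0 ≠ ⊤ ∧ mG ≠ 0 ∧ mG ≠ ⊤ ∧ ∀ F : EuclideanSpace ℝ ι → ℝ≥0∞, Measurable F →
      (∀ U ∈ Matrix.unitaryGroup (Fin N) 𝕜, ∀ x, F (cj Φ U x) = F x) →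
      c0 * ∫⁻ x, F x = mG * ∫⁻ x in G0 Φ '' DD Φ, F x := by
  classical
  have : CompactSpace (UG 𝕜 N) := compactU 𝕜 N
  obtain ⟨A, hAe⟩ : ∃ A, A = G0 Φ '' DD Φ := ⟨_, rfl⟩
  rw [← hAe] at hA ⊢
  obtain ⟨m, hm⟩ : ∃ m : Measure (UG 𝕜 N), m = Measure.haar := ⟨_, rfl⟩
  have : m.IsHaarMeasure := by rw [hm]; infer_instance
  have : IsFiniteMeasure m := by infer_instance
  obtain ⟨l0, hl0⟩ : ∃ l0 : EuclideanSpace ℝ (Fin N), l0 ∈ Ch N := ⟨_, Ch_nonempty⟩
  -- the action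
  obtain ⟨act, hact⟩ : ∃ act : UG 𝕜 N × EuclideanSpace ℝ ι → EuclideanSpace ℝ ι,
      ∀ p, act p = cj Φ ((p.1⁻¹ : UG 𝕜 N) : Matrix (Fin N) (Fin N) 𝕜) p.2 := ⟨_, fun _ => rfl⟩
  have hactc : Continuous act := by
    have e : act = (fun p : UG 𝕜 N × EuclideanSpace ℝ ι =>
        cj Φ (p.1 : Matrix (Fin N) (Fin N) 𝕜) p.2) ∘ fun p => (p.1⁻¹, p.2) := by
      funext p
      exact hact p
    rw [e]
    exact (cont_act Φ).comp ((continuous_inv.comp continuous_fst).prodMk continuous_snd)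
  have hactm : Measurable act := hactc.measurable
  refine ⟨m {g | act (g, dg Φ l0) ∈ A}, m univ, measure_ne_top _ _, ?_, measure_ne_top _ _, ?_⟩
  · exact (isOpen_univ.measure_pos m univ_nonempty).ne'
  intro F hF hinv
  obtain ⟨f, hf⟩ : ∃ f : EuclideanSpace ℝ ι → UG 𝕜 N → ℝ≥0∞,
      ∀ x g, f x g = F x * A.indicator 1 (act (g, x)) := ⟨_, fun _ _ => rfl⟩
  have hfm : Measurable (Function.uncurry f) := by
    have e : Function.uncurry f = fun p : EuclideanSpace ℝ ι × UG 𝕜 N =>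
        F p.1 * A.indicator 1 (act (p.2, p.1)) := by
      funext p
      exact hf p.1 p.2
    rw [e]
    have h1 : Measurable (A.indicator (1 : EuclideanSpace ℝ ι → ℝ≥0∞)) := measurable_one.indicator hA
    exact (hF.comp measurable_fst).mul
      (h1.comp (hactm.comp (measurable_snd.prodMk measurable_fst)))
  have e1 := lintegral_lintegral_swap (μ := (volume : Measure (EuclideanSpace ℝ ι))) (ν := m)
    hfm.aemeasurable
  have e2 : ∀ g : UG 𝕜 N, ∫⁻ x, f x g = ∫⁻ x in A, F x := by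
    intro g
    have hmp := mp_cj h ((g⁻¹ : UG 𝕜 N) : Matrix (Fin N) (Fin N) 𝕜) (g⁻¹).2
    have h1 : Measurable (A.indicator (1 : EuclideanSpace ℝ ι → ℝ≥0∞)) := measurable_one.indicator hA
    have h2 : ∀ x, f x g = (fun y => F y * A.indicator 1 y)
        (cj Φ ((g⁻¹ : UG 𝕜 N) : Matrix (Fin N) (Fin N) 𝕜) x) := by
      intro x
      rw [hf, hact]
      show _ = F (cj Φ ((g⁻¹ : UG 𝕜 N) : Matrix (Fin N) (Fin N) 𝕜) x) * _
      rw [hinv _ (g⁻¹).2]
    simp only [h2]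
    have h3 : ∫⁻ x, F (cj Φ ((g⁻¹ : UG 𝕜 N) : Matrix (Fin N) (Fin N) 𝕜) x) *
        A.indicator 1 (cj Φ ((g⁻¹ : UG 𝕜 N) : Matrix (Fin N) (Fin N) 𝕜) x) =
        ∫⁻ y, F y * A.indicator 1 y := hmp.lintegral_comp (hF.mul h1)
    rw [h3, ← lintegral_indicator hA]
    congr 1
    funext y
    by_cases hy : y ∈ A
    · simp [hy]
    · simp [hy]
  have e3 : ∀ᵐ x : EuclideanSpace ℝ ι, ∫⁻ g, f x g ∂m = F x * m {g | act (g, dg Φ l0) ∈ A} := by
    filter_upwards [ae_simple h] with x hx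
    obtain ⟨U, hU, l, hl, rfl⟩ := hx
    have h1 := lintegral_mul_left_eq_self (μ := m) (fun g => f (cj Φ U (dg Φ l)) g)
      (⟨U, hU⟩ : UG 𝕜 N)
    rw [← h1]
    have h2 : ∀ g : UG 𝕜 N, f (cj Φ U (dg Φ l)) ((⟨U, hU⟩ : UG 𝕜 N) * g) =
        F (cj Φ U (dg Φ l)) * {g | act (g, dg Φ l0) ∈ A}.indicator 1 g := by
      intro g
      rw [hf]
      congr 1
      have h3 : act ((⟨U, hU⟩ : UG 𝕜 N) * g, cj Φ U (dg Φ l)) =
          cj Φ ((g⁻¹ : UG 𝕜 N) : Matrix (Fin N) (Fin N) 𝕜) (dg Φ l) := by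
        rw [hact, cj_cj h]
        congr 1
        have h4 : (((⟨U, hU⟩ : UG 𝕜 N) * g)⁻¹ : UG 𝕜 N) * (⟨U, hU⟩ : UG 𝕜 N) = g⁻¹ := by
          group
        have h5 := congrArg (fun w : UG 𝕜 N => (w : Matrix (Fin N) (Fin N) 𝕜)) h4
        exact congrArg (fun M : Matrix (Fin N) (Fin N) 𝕜 => cj Φ M) h5
      have h6 : cj Φ ((g⁻¹ : UG 𝕜 N) : Matrix (Fin N) (Fin N) 𝕜) (dg Φ l) ∈ A ↔
          act (g, dg Φ l0) ∈ A := by
        rw [hact, hAe, memA_iff h _ (g⁻¹).2 l hl, memA_iff h _ (g⁻¹).2 l0 hl0]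
      rw [h3]
      by_cases h7 : act (g, dg Φ l0) ∈ A
      · rw [indicator_of_mem (h6.2 h7), indicator_of_mem (show g ∈ {g | act (g, dg Φ l0) ∈ A} from h7)]
        rfl
      · rw [indicator_of_notMem (fun h8 => h7 (h6.1 h8)),
          indicator_of_notMem (show g ∉ {g | act (g, dg Φ l0) ∈ A} from h7)]
    simp only [h2]
    have hms : MeasurableSet {g | act (g, dg Φ l0) ∈ A} :=
      (hactm.comp (measurable_id.prodMk measurable_const)) hA
    rw [lintegral_const_mul _ (measurable_one.indicator hms), lintegral_indicator_one hms]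
  rw [lintegral_congr_ae e3] at e1
  simp only [e2] at e1
  rw [lintegral_mul_const _ hF, lintegral_const] at e1
  rw [mul_comm, e1, mul_comm]

end W7x

theorem weyl_F0 (𝕜 : Type) [RCLike 𝕜] (N : ℕ) :
    ∃ c : ℝ≥0∞, c ≠ 0 ∧ c ≠ ⊤ ∧ ∀ F : EuclideanSpace ℝ (II 𝕜 N) → ℝ≥0∞, Measurable F →
      (∀ U ∈ Matrix.unitaryGroup (Fin N) 𝕜, ∀ x, F (cj (F0 𝕜 N) U x) = F x) →
      ∫⁻ x, F x =
        c * ∫⁻ l in Ch N, F (dg (F0 𝕜 N) l) * ENNReal.ofReal (vd l ^ (Module.finrank ℝ 𝕜)) := by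
  obtain ⟨-, hA, c, hc0, hct, hc⟩ := slice 𝕜 N
  obtain ⟨c0, mG, hc0t, hm0, hmt, hkey⟩ := W7x.key (F0_frame 𝕜 N) hA
  have hc00 : c0 ≠ 0 := by
    intro h0
    have h1 := hkey (fun _ => 1) measurable_const (fun _ _ _ => rfl)
    rw [h0, zero_mul, hc (fun _ => 1) measurable_const (fun _ _ _ => rfl)] at h1
    simp only [one_mul] at h1
    have h2 := W7x.pos_int (N := N) (Module.finrank ℝ 𝕜)
    exact (mul_ne_zero hm0 (mul_ne_zero hc0 h2)) h1.symm
  refine ⟨c0⁻¹ * (mG * c), ?_, ?_, ?_⟩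
  · exact mul_ne_zero (ENNReal.inv_ne_zero.2 hc0t) (mul_ne_zero hm0 hc0)
  · exact ENNReal.mul_ne_top (ENNReal.inv_ne_top.2 hc00) (ENNReal.mul_ne_top hmt hct)
  · intro F hF hinv
    have h1 := hkey F hF hinv
    rw [hc F hF hinv] at h1
    calc ∫⁻ x, F x = c0⁻¹ * (c0 * ∫⁻ x, F x) := by
          rw [← mul_assoc, ENNReal.inv_mul_cancel hc00 hc0t, one_mul]
      _ = _ := by rw [h1, ← mul_assoc mG, ← mul_assoc c0⁻¹]

end Pool.Agent.H888R2.KC
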