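import Pool.Agent.H888R2.KC.Defs
import Pool.Agent.H888R2.KC.F1
import Pool.Agent.H888R2.KC.W5d
import Pool.Agent.H888R2.KC.W7

set_option autoImplicit false

namespace Pool.Agent.H888R2.KC

open MeasureTheory Set Matrix
open scoped ENNReal InnerProductSpace
open Pool.Agent.H212R2.KLS (mu Bdd ev gr)

variable {𝕜 : Type} [RCLike 𝕜] {N : ℕ} {ι : Type} [Fintype ι]
  {Φ : EuclideanSpace ℝ ι →ₗ[ℝ] Matrix (Fin N) (Fin N) 𝕜}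

namespace W8x

theorem dm_herm (l : EuclideanSpace ℝ (Fin N)) : (dm 𝕜 l)ᴴ = dm 𝕜 l := by
  rw [dm, Matrix.diagonal_conjTranspose]
  congr 1
  funext i
  simp

/-- change of frame -/
noncomputable def th (Φ : EuclideanSpace ℝ ι →ₗ[ℝ] Matrix (Fin N) (Fin N) 𝕜) :
    EuclideanSpace ℝ (II 𝕜 N) →ₗ[ℝ] EuclideanSpace ℝ ι := ps Φ ∘ₗ F0 𝕜 N

theorem th_apply (y : EuclideanSpace ℝ (II 𝕜 N)) : th Φ y = ps Φ (F0 𝕜 N y) := rfl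

theorem Phi_th (h : Fr Φ) (y : EuclideanSpace ℝ (II 𝕜 N)) : Φ (th Φ y) = F0 𝕜 N y := by
  rw [th_apply, Phi_ps h _ ((F0_frame 𝕜 N).herm y)]

theorem norm_th (h : Fr Φ) (y : EuclideanSpace ℝ (II 𝕜 N)) : ‖th Φ y‖ = ‖y‖ := by
  have h1 : ‖th Φ y‖ ^ 2 = ‖y‖ ^ 2 := by
    rw [← h.iso, ← (F0_frame 𝕜 N).iso, Phi_th h]
  exact (pow_left_inj₀ (norm_nonneg _) (norm_nonneg _) two_ne_zero).1 h1

theorem surj_th (h : Fr Φ) : Function.Surjective (th Φ) := by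
  intro x
  refine ⟨ps (F0 𝕜 N) (Φ x), ?_⟩
  rw [th_apply, Phi_ps (F0_frame 𝕜 N) _ (h.herm x), ps_Phi h]

/-- change of frame as an isometric equivalence -/
noncomputable def Th (h : Fr Φ) : EuclideanSpace ℝ (II 𝕜 N) ≃ₗᵢ[ℝ] EuclideanSpace ℝ ι :=
  LinearIsometryEquiv.ofSurjective ⟨th Φ, norm_th h⟩ (surj_th h)

theorem Th_apply (h : Fr Φ) (y : EuclideanSpace ℝ (II 𝕜 N)) : Th h y = th Φ y := rfl

theorem th_cj (h : Fr Φ) (U : Matrix (Fin N) (Fin N) 𝕜) (y : EuclideanSpace ℝ (II 𝕜 N)) :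
    th Φ (cj (F0 𝕜 N) U y) = cj Φ U (th Φ y) := by
  show ps Φ (F0 𝕜 N (ps (F0 𝕜 N) (U * F0 𝕜 N y * Uᴴ))) = ps Φ (U * Φ (th Φ y) * Uᴴ)
  rw [Phi_th h, Phi_ps (F0_frame 𝕜 N)]
  rw [Matrix.conjTranspose_mul, Matrix.conjTranspose_mul, Matrix.conjTranspose_conjTranspose,
    (F0_frame 𝕜 N).herm, Matrix.mul_assoc]

theorem th_dg (l : EuclideanSpace ℝ (Fin N)) :
    th Φ (dg (F0 𝕜 N) l) = dg Φ l := by
  show ps Φ (F0 𝕜 N (ps (F0 𝕜 N) (dm 𝕜 l))) = ps Φ (dm 𝕜 l)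
  rw [Phi_ps (F0_frame 𝕜 N) _ (dm_herm l)]

end W8x

theorem weyl (h : Fr Φ) :
    ∃ c : ℝ≥0∞, c ≠ 0 ∧ c ≠ ⊤ ∧ ∀ F : EuclideanSpace ℝ ι → ℝ≥0∞, Measurable F →
      (∀ U ∈ Matrix.unitaryGroup (Fin N) 𝕜, ∀ x, F (cj Φ U x) = F x) →
      ∫⁻ x, F x =
        c * ∫⁻ l in Ch N, F (dg Φ l) * ENNReal.ofReal (vd l ^ (Module.finrank ℝ 𝕜)) := by
  obtain ⟨c, hc0, hc1, H⟩ := weyl_F0 𝕜 N
  refine ⟨c, hc0, hc1, fun F hF hinv => ?_⟩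
  have hmp := (W8x.Th h).measurePreserving
  have h1 : ∫⁻ y, F (W8x.Th h y) = ∫⁻ x, F x := hmp.lintegral_comp hF
  rw [← h1]
  have h2 := H (fun y => F (W8x.th Φ y)) (hF.comp (W8x.Th h).continuous.measurable)
    (fun U hU y => by
      show F (W8x.th Φ (cj (F0 𝕜 N) U y)) = F (W8x.th Φ y)
      rw [W8x.th_cj h, hinv U hU])
  refine h2.trans ?_
  congr 1
  refine lintegral_congr (fun l => ?_)
  simp only [W8x.th_dg]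

end Pool.Agent.H888R2.KC
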