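import Pool.Agent.H212R2.KLS.Defs

/-!
# KLS for log-concave measures on Hermitian matrices invariant under unitary conjugation: definitions

`𝕜` is the real or the complex field (`RCLike`), `N` the size. The real vector space of
Hermitian `N × N` matrices is parametrised by an isometric linear map
`Φ : EuclideanSpace ℝ ι → Matrix (Fin N) (Fin N) 𝕜` (structure `Fr`).
-/

set_option autoImplicit false

namespace Pool.Agent.H888R2.KC

open MeasureTheory Set Matrix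
open scoped ENNReal InnerProductSpace
open Pool.Agent.H212R2.KLS (mu Bdd ev gr)

section

variable {𝕜 : Type} [RCLike 𝕜] {N : ℕ} {ι : Type} [Fintype ι]

/-- `Φ` is a linear isometry onto the Hermitian matrices (Hilbert-Schmidt norm) -/
structure Fr (Φ : EuclideanSpace ℝ ι →ₗ[ℝ] Matrix (Fin N) (Fin N) 𝕜) : Prop where
  herm : ∀ x, (Φ x)ᴴ = Φ x
  surj : ∀ A : Matrix (Fin N) (Fin N) 𝕜, Aᴴ = A → ∃ x, Φ x = A
  iso : ∀ x, ∑ i, ∑ j, ‖Φ x i j‖ ^ 2 = ‖x‖ ^ 2

/-- the real inner product `Re tr (Aᴴ B)` -/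
def ip (A B : Matrix (Fin N) (Fin N) 𝕜) : ℝ := ∑ i, ∑ j, RCLike.re (star (A i j) * B i j)

theorem ip_add (A B C : Matrix (Fin N) (Fin N) 𝕜) : ip A (B + C) = ip A B + ip A C := by
  simp only [ip, Matrix.add_apply, mul_add, map_add, Finset.sum_add_distrib]

theorem ip_smul (A B : Matrix (Fin N) (Fin N) 𝕜) (c : ℝ) : ip A (c • B) = c * ip A B := by
  simp only [ip, Matrix.smul_apply, mul_smul_comm, RCLike.smul_re, Finset.mul_sum]

open Classical in
/-- the adjoint of `Φ` (left inverse of `Φ`) -/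
noncomputable def ps (Φ : EuclideanSpace ℝ ι →ₗ[ℝ] Matrix (Fin N) (Fin N) 𝕜) :
    Matrix (Fin N) (Fin N) 𝕜 →ₗ[ℝ] EuclideanSpace ℝ ι where
  toFun A := WithLp.toLp 2 fun k => ip (Φ (EuclideanSpace.single k 1)) A
  map_add' A B := by
    ext k
    simp [ip_add]
  map_smul' c A := by
    ext k
    simp [ip_smul]

/-- conjugation `x ↦ U x Uᴴ` in the coordinates `Φ` -/
noncomputable def cj (Φ : EuclideanSpace ℝ ι →ₗ[ℝ] Matrix (Fin N) (Fin N) 𝕜)
    (U : Matrix (Fin N) (Fin N) 𝕜) : EuclideanSpace ℝ ι →ₗ[ℝ] EuclideanSpace ℝ ι where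
  toFun x := ps Φ (U * Φ x * Uᴴ)
  map_add' x y := by rw [map_add, mul_add, add_mul, map_add]
  map_smul' c x := by
    rw [map_smul, mul_smul_comm, smul_mul_assoc, map_smul]
    rfl

/-- the commutator field `x ↦ K x - x K` in the coordinates `Φ` -/
noncomputable def ad (Φ : EuclideanSpace ℝ ι →ₗ[ℝ] Matrix (Fin N) (Fin N) 𝕜)
    (K : Matrix (Fin N) (Fin N) 𝕜) : EuclideanSpace ℝ ι →ₗ[ℝ] EuclideanSpace ℝ ι where
  toFun x := ps Φ (K * Φ x - Φ x * K)
  map_add' x y := by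
    rw [map_add, mul_add, add_mul, ← map_add]
    congr 1
    abel
  map_smul' c x := by
    rw [map_smul, mul_smul_comm, smul_mul_assoc, ← smul_sub, map_smul]
    rfl

/-- diagonal matrices -/
noncomputable def dm (𝕜 : Type) [RCLike 𝕜] {N : ℕ} (l : EuclideanSpace ℝ (Fin N)) :
    Matrix (Fin N) (Fin N) 𝕜 := Matrix.diagonal fun i => ((l i : ℝ) : 𝕜)

/-- diagonal matrices in the coordinates `Φ` -/
noncomputable def dg (Φ : EuclideanSpace ℝ ι →ₗ[ℝ] Matrix (Fin N) (Fin N) 𝕜) :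
    EuclideanSpace ℝ (Fin N) →ₗ[ℝ] EuclideanSpace ℝ ι where
  toFun l := ps Φ (dm 𝕜 l)
  map_add' x y := by
    rw [← map_add]
    congr 1
    ext i j
    by_cases h : i = j
    · subst h; simp [dm]
    · simp [dm, h]
  map_smul' c x := by
    rw [RingHom.id_apply, ← map_smul]
    congr 1
    ext i j
    by_cases h : i = j
    · subst h; simp [dm, RCLike.real_smul_eq_coe_mul]
    · simp [dm, h]

/-- the unit vector in the direction of the identity matrix -/
noncomputable def tv (Φ : EuclideanSpace ℝ ι →ₗ[ℝ] Matrix (Fin N) (Fin N) 𝕜) :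
    EuclideanSpace ℝ ι := (Real.sqrt N)⁻¹ • ps Φ 1

/-- `‖A‖_op ≤ r` -/
def OpL (r : ℝ) (A : Matrix (Fin N) (Fin N) 𝕜) : Prop :=
  ∀ v : EuclideanSpace 𝕜 (Fin N), ‖(WithLp.toLp 2 (A *ᵥ v.ofLp) : EuclideanSpace 𝕜 (Fin N))‖ ≤ r * ‖v‖

/-- log-concave density invariant under unitary conjugation -/
structure Dn (Φ : EuclideanSpace ℝ ι →ₗ[ℝ] Matrix (Fin N) (Fin N) 𝕜)
    (ρ : EuclideanSpace ℝ ι → ℝ) : Prop where
  nonneg : ∀ x, 0 ≤ ρ x
  meas : Measurable ρ
  logc : ∀ x y : EuclideanSpace ℝ ι, ∀ t : ℝ, 0 < t → t < 1 →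
    ρ x ^ (1 - t) * ρ y ^ t ≤ ρ ((1 - t) • x + t • y)
  inv : ∀ U ∈ Matrix.unitaryGroup (Fin N) 𝕜, ∀ x, ρ (cj Φ U x) = ρ x

/-- strong log-concavity (constant `K⁻¹`) in the direction of the identity matrix -/
def Ts (Φ : EuclideanSpace ℝ ι →ₗ[ℝ] Matrix (Fin N) (Fin N) 𝕜) (K : ℝ)
    (ρ : EuclideanSpace ℝ ι → ℝ) : Prop :=
  ∀ x y : EuclideanSpace ℝ ι, ρ x * ρ y ≤ (ρ ((1 / 2 : ℝ) • (x + y))) ^ 2 *
    Real.exp (-(⟪tv Φ, x - y⟫_ℝ ^ 2 / (4 * K)))

/-- the two real directions `1`, `I` of `𝕜` -/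
def uu (𝕜 : Type) [RCLike 𝕜] (t : Fin 2) : 𝕜 := if t = 0 then 1 else RCLike.I

/-- index of the frame of skew-Hermitian matrices -/
abbrev KI (N : ℕ) : Type := (Fin N × Fin N) × Fin 2

/-- the frame `(u E_ab - ū E_ba) / 2` of the skew-Hermitian matrices -/
noncomputable def Km (𝕜 : Type) [RCLike 𝕜] {N : ℕ} (k : KI N) : Matrix (Fin N) (Fin N) 𝕜 :=
  (1 / 2 : ℝ) • (Matrix.single k.1.1 k.1.2 (uu 𝕜 k.2) - Matrix.single k.1.2 k.1.1 (star (uu 𝕜 k.2)))

/-- the Cayley transform `(1 - K)(1 + K)⁻¹` -/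
noncomputable def cay (K : Matrix (Fin N) (Fin N) 𝕜) : Matrix (Fin N) (Fin N) 𝕜 :=
  (1 - K) * (1 + K)⁻¹

/-- sign flip below the diagonal, zero on the diagonal (Hermitian ↔ skew-Hermitian) -/
def sk (A : Matrix (Fin N) (Fin N) 𝕜) : Matrix (Fin N) (Fin N) 𝕜 :=
  Matrix.of fun i j => if i < j then A i j else if j < i then - A i j else 0

/-- the open Weyl chamber -/
def Ch (N : ℕ) : Set (EuclideanSpace ℝ (Fin N)) := {l | StrictMono fun i => l i}

/-- the diagonal of a matrix in the coordinates `Φ` -/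
noncomputable def dp (Φ : EuclideanSpace ℝ ι →ₗ[ℝ] Matrix (Fin N) (Fin N) 𝕜)
    (y : EuclideanSpace ℝ ι) : EuclideanSpace ℝ (Fin N) := WithLp.toLp 2 fun i => RCLike.re (Φ y i i)

/-- local parametrisation: diagonal part of `y` conjugated by the Cayley transform of the
off-diagonal part -/
noncomputable def G0 (Φ : EuclideanSpace ℝ ι →ₗ[ℝ] Matrix (Fin N) (Fin N) 𝕜)
    (y : EuclideanSpace ℝ ι) : EuclideanSpace ℝ ι := cj Φ (cay (sk (Φ y))) (dg Φ (dp Φ y))

/-- domain of the local parametrisation -/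
def DD (Φ : EuclideanSpace ℝ ι →ₗ[ℝ] Matrix (Fin N) (Fin N) 𝕜) : Set (EuclideanSpace ℝ ι) :=
  {y | dp Φ y ∈ Ch N ∧ ip (sk (Φ y)) (sk (Φ y)) < 1 / 100}

/-- multiplication of the off-diagonal entries by `l_j - l_i`, `i < j` -/
noncomputable def TT (Φ : EuclideanSpace ℝ ι →ₗ[ℝ] Matrix (Fin N) (Fin N) 𝕜)
    (l : EuclideanSpace ℝ (Fin N)) : EuclideanSpace ℝ ι →ₗ[ℝ] EuclideanSpace ℝ ι where
  toFun h := ps Φ (Matrix.of fun i j => (if i < j then l j - l i else if j < i then l i - l j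
    else 1 : ℝ) • Φ h i j)
  map_add' x y := by
    rw [← map_add, map_add]
    congr 1
    ext i j
    simp only [Matrix.of_apply, Matrix.add_apply, smul_add]
  map_smul' c x := by
    rw [RingHom.id_apply, ← map_smul, map_smul]
    congr 1
    ext i j
    simp only [Matrix.of_apply, Matrix.smul_apply]
    rw [smul_comm]

theorem sk_add (A B : Matrix (Fin N) (Fin N) 𝕜) : sk (A + B) = sk A + sk B := by
  ext i j
  simp only [sk, Matrix.of_apply, Matrix.add_apply]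
  split_ifs
  · rfl
  · ring
  · ring

theorem sk_smul (c : ℝ) (A : Matrix (Fin N) (Fin N) 𝕜) : sk (c • A) = c • sk A := by
  ext i j
  simp only [sk, Matrix.of_apply, Matrix.smul_apply]
  split_ifs
  · rfl
  · rw [smul_neg]
  · rw [smul_zero]

/-- derivative of the Cayley part: diagonal unchanged, off-diagonal part transformed by
`k ↦ -2 (1-K)⁻¹ k (1+K)⁻¹` -/
noncomputable def MM (Φ : EuclideanSpace ℝ ι →ₗ[ℝ] Matrix (Fin N) (Fin N) 𝕜)
    (K : Matrix (Fin N) (Fin N) 𝕜) : EuclideanSpace ℝ ι →ₗ[ℝ] EuclideanSpace ℝ ι where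
  toFun h := ps Φ (Matrix.diagonal (fun i => Φ h i i) +
    sk ((-2 : ℝ) • ((1 - K)⁻¹ * sk (Φ h) * (1 + K)⁻¹)))
  map_add' x y := by
    have hd : (Matrix.diagonal fun i => Φ (x + y) i i) =
        (Matrix.diagonal fun i => Φ x i i) + Matrix.diagonal fun i => Φ y i i := by
      ext i j
      by_cases h : i = j
      · subst h; simp
      · simp [h]
    have hs : sk ((-2 : ℝ) • ((1 - K)⁻¹ * sk (Φ (x + y)) * (1 + K)⁻¹)) =
        sk ((-2 : ℝ) • ((1 - K)⁻¹ * sk (Φ x) * (1 + K)⁻¹)) +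
        sk ((-2 : ℝ) • ((1 - K)⁻¹ * sk (Φ y) * (1 + K)⁻¹)) := by
      rw [map_add, sk_add, mul_add, add_mul, smul_add, sk_add]
    rw [hd, hs, ← map_add]
    congr 1
    abel
  map_smul' c x := by
    have hd : (Matrix.diagonal fun i => Φ (c • x) i i) =
        c • (Matrix.diagonal fun i => Φ x i i) := by
      ext i j
      by_cases h : i = j
      · subst h; simp
      · simp [h]
    have hs : sk ((-2 : ℝ) • ((1 - K)⁻¹ * sk (Φ (c • x)) * (1 + K)⁻¹)) =
        c • sk ((-2 : ℝ) • ((1 - K)⁻¹ * sk (Φ x) * (1 + K)⁻¹)) := by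
      rw [map_smul, sk_smul c (Φ x), mul_smul_comm, smul_mul_assoc, smul_comm, sk_smul c]
    rw [RingHom.id_apply, hd, hs, ← smul_add, map_smul]

/-- the Vandermonde product `∏_{i<j} (l_j - l_i)` -/
noncomputable def vd {N : ℕ} (l : EuclideanSpace ℝ (Fin N)) : ℝ :=
  ∏ p : {p : Fin N × Fin N // p.1 < p.2}, (l p.1.2 - l p.1.1)

end

/-- the derivation `p ↦ ⟨∇ p (x), A x⟩` on polynomials -/
noncomputable def dl {ι : Type} [Fintype ι]
    (A : EuclideanSpace ℝ ι →ₗ[ℝ] EuclideanSpace ℝ ι) :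
    Derivation ℝ (MvPolynomial ι ℝ) (MvPolynomial ι ℝ) := by
  classical
  exact MvPolynomial.mkDerivation ℝ (fun k => ∑ l, MvPolynomial.C (A (EuclideanSpace.single l 1) k) *
    MvPolynomial.X l)

/-! ### the explicit frame -/

/-- off-diagonal index -/
abbrev JJ (𝕜 : Type) [RCLike 𝕜] (N : ℕ) : Type :=
  {p : Fin N × Fin N // p.1 < p.2} × Fin (Module.finrank ℝ 𝕜)

/-- index of the explicit frame -/
abbrev II (𝕜 : Type) [RCLike 𝕜] (N : ℕ) : Type := Fin N ⊕ JJ 𝕜 N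

/-- upper triangular entries of the explicit frame -/
noncomputable def up {𝕜 : Type} [RCLike 𝕜] {N : ℕ} (x : EuclideanSpace ℝ (II 𝕜 N))
    (p : {p : Fin N × Fin N // p.1 < p.2}) : 𝕜 :=
  (Real.sqrt 2)⁻¹ • ∑ t, x (Sum.inr (p, t)) • stdOrthonormalBasis ℝ 𝕜 t

/-- the explicit frame -/
noncomputable def F0 (𝕜 : Type) [RCLike 𝕜] (N : ℕ) :
    EuclideanSpace ℝ (II 𝕜 N) →ₗ[ℝ] Matrix (Fin N) (Fin N) 𝕜 where
  toFun x := Matrix.of fun i j =>
    if h : i < j then up x ⟨(i, j), h⟩ else if h : j < i then star (up x ⟨(j, i), h⟩) else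
      ((x (Sum.inl i) : ℝ) : 𝕜)
  map_add' x y := by
    ext i j
    simp only [Matrix.of_apply, Matrix.add_apply]
    split_ifs
    · simp [up, add_smul, Finset.sum_add_distrib, smul_add]
    · simp [up, add_smul, Finset.sum_add_distrib, smul_add]
    · simp
  map_smul' c x := by
    ext i j
    simp only [Matrix.of_apply, Matrix.smul_apply, RingHom.id_apply]
    split_ifs
    · simp only [up, PiLp.smul_apply, smul_eq_mul, mul_smul, ← Finset.smul_sum]
      rw [smul_comm]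
    · simp only [up, PiLp.smul_apply, smul_eq_mul, mul_smul, ← Finset.smul_sum]
      rw [smul_comm, star_smul]
      simp
    · simp [RCLike.real_smul_eq_coe_mul]

end Pool.Agent.H888R2.KC
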