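import Pool.Agent.H888R2.KC.Defs

/-!
Task G1: gluing.
-/

set_option autoImplicit false

namespace Pool.Agent.H888R2.KC

open MeasureTheory Set Matrix
open scoped ENNReal InnerProductSpace
open Pool.Agent.H212R2.KLS (mu Bdd ev gr)

namespace G1x

theorem intg {F : Type*} [NormedAddCommGroup F] [NormedSpace ℝ F] [FiniteDimensional ℝ F]
    [MeasurableSpace F] [BorelSpace F] (μ : Measure F) [IsFiniteMeasure μ]
    (hb : ∃ R, μ (Metric.closedBall 0 R)ᶜ = 0) (g : F → ℝ) (hg : Continuous g) :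
    Integrable g μ := by
  obtain ⟨R, hR⟩ := hb
  have : ProperSpace F := FiniteDimensional.proper ℝ F
  obtain ⟨C, hC⟩ := (isCompact_closedBall (0 : F) R).exists_bound_of_continuousOn hg.continuousOn
  have h1 : Metric.closedBall (0 : F) R ∈ ae μ := mem_ae_iff.2 hR
  refine Integrable.of_bound hg.aestronglyMeasurable C ?_
  filter_upwards [h1] with x hx using hC x hx

/-- the variance form -/
theorem var_le {F : Type*} [NormedAddCommGroup F] [NormedSpace ℝ F] [FiniteDimensional ℝ F]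
    [MeasurableSpace F] [BorelSpace F] (μ : Measure F) [IsFiniteMeasure μ] (hμ : μ ≠ 0)
    (hb : ∃ R, μ (Metric.closedBall 0 R)ᶜ = 0) (g : F → ℝ) (hg : Continuous g) (c : ℝ) :
    ∫ x, (g x - c) ^ 2 ∂μ = (∫ x, g x ^ 2 ∂μ - (∫ x, g x ∂μ) ^ 2 / (μ univ).toReal) +
      (μ univ).toReal * (c - (∫ x, g x ∂μ) / (μ univ).toReal) ^ 2 := by
  have hI : ∀ g : F → ℝ, Continuous g → Integrable g μ := fun g hg => intg μ hb g hg
  have hM : (μ univ).toReal ≠ 0 := by
    rw [Ne, ENNReal.toReal_eq_zero_iff, not_or]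
    exact ⟨by rwa [Measure.measure_univ_eq_zero], measure_ne_top _ _⟩
  have h1 : ∫ x, (g x - c) ^ 2 ∂μ = ∫ x, (g x ^ 2 - (2 * c) * g x + c ^ 2) ∂μ := by
    congr 1
    ext x
    ring
  rw [h1, integral_add (hI _ (by fun_prop)) (hI _ (by fun_prop)),
    integral_sub (hI _ (by fun_prop)) (hI _ (by fun_prop)), integral_const_mul,
    integral_const, smul_eq_mul, measureReal_def]
  field_simp
  ring

/-! ### the cutoff -/

/-- derivative of the cutoff -/
noncomputable def th (t : ℝ) : ℝ := max 0 (min 1 (2 - |t|))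

theorem th_cont : Continuous th := by
  unfold th
  fun_prop

theorem th_nonneg (t : ℝ) : 0 ≤ th t := le_max_left _ _

theorem th_le (t : ℝ) : th t ≤ 1 := max_le (by norm_num) (min_le_left _ _)

theorem th_one {t : ℝ} (h : |t| ≤ 1) : th t = 1 := by
  unfold th
  rw [min_eq_left (by linarith), max_eq_right (by norm_num)]

theorem th_zero {t : ℝ} (h : 2 ≤ |t|) : th t = 0 := by
  unfold th
  rw [max_eq_left]
  exact (min_le_right _ _).trans (by linarith)

/-- the cutoff -/
noncomputable def ch (x : ℝ) : ℝ := ∫ t in (0:ℝ)..x, th t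

theorem ch_hasDeriv (x : ℝ) : HasDerivAt ch (th x) x :=
  intervalIntegral.integral_hasDerivAt_right (th_cont.intervalIntegrable _ _)
    (th_cont.stronglyMeasurableAtFilter _ _) th_cont.continuousAt

theorem ch_deriv : deriv ch = th := funext fun x => (ch_hasDeriv x).deriv

theorem ch_contDiff : ContDiff ℝ 1 ch := by
  rw [contDiff_one_iff_deriv]
  exact ⟨fun x => (ch_hasDeriv x).differentiableAt, by rw [ch_deriv]; exact th_cont⟩

theorem ch_eq {x : ℝ} (h : |x| ≤ 1) : ch x = x := by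
  unfold ch
  have : ∫ t in (0:ℝ)..x, th t = ∫ t in (0:ℝ)..x, (1:ℝ) := by
    refine intervalIntegral.integral_congr fun t ht => th_one ?_
    rw [abs_le] at h ⊢
    rcases Set.mem_uIcc.1 ht with ⟨h1, h2⟩ | ⟨h1, h2⟩ <;> constructor <;> linarith
  rw [this]
  simp

theorem ch_abs (x : ℝ) : |ch x| ≤ 2 := by
  have key : ∀ x : ℝ, |x| ≤ 2 → |ch x| ≤ 2 := by
    intro x hx
    have h1 : ‖∫ t in (0:ℝ)..x, th t‖ ≤ 1 * |x - 0| :=
      intervalIntegral.norm_integral_le_of_norm_le_const fun t _ => by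
        rw [Real.norm_eq_abs, abs_of_nonneg (th_nonneg t)]
        exact th_le t
    rw [Real.norm_eq_abs, sub_zero, one_mul] at h1
    exact h1.trans hx
  by_cases hx : |x| ≤ 2
  · exact key x hx
  · rw [not_le] at hx
    have hxe : ∀ y : ℝ, |y| = 2 → (∀ t ∈ Set.uIcc y x, 2 ≤ |t|) → ch x = ch y := by
      intro y hy ht
      unfold ch
      rw [← intervalIntegral.integral_add_adjacent_intervals (b := y)
        (th_cont.intervalIntegrable _ _) (th_cont.intervalIntegrable _ _)]
      have : ∫ t in y..x, th t = ∫ t in y..x, (0:ℝ) :=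
        intervalIntegral.integral_congr fun t h => th_zero (ht t h)
      rw [this]
      simp
    rcases lt_abs.1 hx with h | h
    · rw [hxe 2 (by norm_num)]
      · exact key 2 (by norm_num)
      · intro t ht
        rw [Set.uIcc_of_le h.le] at ht
        exact ht.1.trans (le_abs_self t)
    · rw [hxe (-2) (by norm_num)]
      · exact key (-2) (by norm_num)
      · intro t ht
        rw [Set.uIcc_of_ge (by linarith)] at ht
        have := ht.2
        exact le_trans (by linarith) (neg_le_abs t)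

theorem cs {F : Type*} [NormedAddCommGroup F] [NormedSpace ℝ F] [FiniteDimensional ℝ F]
    [MeasurableSpace F] [BorelSpace F] (μ : Measure F) [IsFiniteMeasure μ]
    (hb : ∃ R, μ (Metric.closedBall 0 R)ᶜ = 0) (g : F → ℝ) (hg : Continuous g) :
    (∫ x, g x ∂μ) ^ 2 ≤ (μ univ).toReal * ∫ x, g x ^ 2 ∂μ := by
  by_cases hμ : μ = 0
  · simp [hμ]
  have hM : 0 < (μ univ).toReal := by
    refine ENNReal.toReal_pos ?_ (measure_ne_top _ _)
    rwa [Ne, Measure.measure_univ_eq_zero]
  have h1 := var_le μ hμ hb g hg ((∫ x, g x ∂μ) / (μ univ).toReal)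
  have h2 : 0 ≤ ∫ x, (g x - (∫ x, g x ∂μ) / (μ univ).toReal) ^ 2 ∂μ :=
    integral_nonneg fun x => by positivity
  rw [h1, sub_self] at h2
  have h3 : (∫ x, g x ∂μ) ^ 2 / (μ univ).toReal ≤ ∫ x, g x ^ 2 ∂μ := by
    have : (μ univ).toReal * (0:ℝ) ^ 2 = 0 := by ring
    linarith
  rw [div_le_iff₀ hM] at h3
  linarith

end G1x

open G1x

/-- the gluing argument -/
theorem glue {F : Type} [NormedAddCommGroup F] [InnerProductSpace ℝ F]
    [FiniteDimensional ℝ F] [MeasurableSpace F] [BorelSpace F] (μ : Measure F)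
    [IsProbabilityMeasure μ] (hball : ∃ R, μ (Metric.closedBall 0 R)ᶜ = 0) (a A B : ℝ)
    (ha : 6 ≤ a) (hA : 0 ≤ A) (hB : 0 ≤ B)
    (hsm : ∀ g : F → ℝ, ContDiff ℝ 1 g → μ {x | g x ≠ 0} ≤ ENNReal.ofReal (Real.exp (-a)) →
      ∫ x, g x ^ 2 ∂μ ≤ B * ∫ x, ‖fderiv ℝ g x‖ ^ 2 ∂μ)
    (U : Set F) (hUm : MeasurableSet U) (hUc : μ Uᶜ ≤ ENNReal.ofReal (Real.exp (-(4 * a))))
    (hloc : ∀ h : F → ℝ, ContDiff ℝ 1 h → ∃ c : ℝ, ∫ x in U, (h x - c) ^ 2 ∂μ ≤
      A * ∫ x in U, ‖fderiv ℝ h x‖ ^ 2 ∂μ)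
    (f : F → ℝ) (hf : ContDiff ℝ 1 f) :
    ∫ x, f x ^ 2 ∂μ - (∫ x, f x ∂μ) ^ 2 ≤
      (2 * (2 * A + 4 * B)) * ∫ x, ‖fderiv ℝ f x‖ ^ 2 ∂μ := by
  obtain ⟨m, hma⟩ : ∃ m : ℝ, m = a / 2 := ⟨_, rfl⟩
  have ham : a = 2 * m := by linarith
  have hm3 : (3:ℝ) ≤ m := by linarith
  rw [show 4 * a = 8 * m by linarith] at hUc
  rw [ham] at hsm
  have hI : ∀ g : F → ℝ, Continuous g → Integrable g μ := fun g hg =>
    intg μ hball g hg
  have hUr : μ.real Uᶜ ≤ Real.exp (-(8 * m)) := by
    rw [measureReal_def]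
    exact ENNReal.toReal_le_of_le_ofReal (Real.exp_pos _).le hUc
  have hU1 : μ.real U = 1 - μ.real Uᶜ := by
    rw [probReal_compl_eq_one_sub hUm]
    ring
  have hU0 : 0 < μ.real U := by
    rw [hU1]
    have : Real.exp (-(8 * m)) < 1 := by
      rw [Real.exp_lt_one_iff]
      linarith
    linarith
  have hresb : ∃ R, (μ.restrict U) (Metric.closedBall 0 R)ᶜ = 0 := by
    obtain ⟨R, hR⟩ := hball
    exact ⟨R, le_antisymm ((Measure.restrict_apply_le _ _).trans hR.le) zero_le⟩
  have hres0 : μ.restrict U ≠ 0 := by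
    intro h
    have h2 : μ U = 0 := by
      rw [← Measure.restrict_apply_univ, h]
      simp
    rw [measureReal_def, h2] at hU0
    simp at hU0
  have hresr : ((μ.restrict U) univ).toReal = μ.real U := by
    rw [Measure.restrict_apply_univ, measureReal_def]
  set c : ℝ := (∫ x in U, f x ∂μ) / μ.real U with hc
  set Q : F → ℝ := fun x => f x - c with hF
  have hFc : ContDiff ℝ 1 Q := hf.sub contDiff_const
  have hFcont : Continuous Q := hFc.continuous
  have hfcont : Continuous f := hf.continuous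
  have hF0 : ∫ x in U, Q x ∂μ = 0 := by
    simp only [hF]
    rw [integral_sub (hI f hfcont).integrableOn (integrable_const _).integrableOn,
      integral_const, measureReal_restrict_apply_univ, smul_eq_mul, hc]
    field_simp
    ring
  have hDF : ∀ x, fderiv ℝ Q x = fderiv ℝ f x := fun x => by
    simp only [hF]
    exact fderiv_sub_const c
  set D := ∫ x, ‖fderiv ℝ f x‖ ^ 2 ∂μ with hD
  have hD0 : 0 ≤ D := integral_nonneg fun x => by positivity
  have hmain : ∫ x, Q x ^ 2 ∂μ ≤ (2 * (2 * A + 4 * B)) * D := by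
    set S := ∫ x, Q x ^ 2 ∂μ with hS
    have hS0 : 0 ≤ S := integral_nonneg fun x => by positivity
    rcases hS0.eq_or_lt with hS1 | hS1
    · rw [← hS1]
      positivity
    set M : ℝ := Real.exp m * Real.sqrt S with hM
    have hM0 : 0 < M := mul_pos (Real.exp_pos _) (Real.sqrt_pos.2 hS1)
    have hM2 : M ^ 2 = Real.exp (2 * m) * S := by
      rw [hM, mul_pow, Real.sq_sqrt hS0, ← Real.exp_nat_mul]
      norm_num
    set h : F → ℝ := fun x => M * ch (Q x / M) with hh
    set g : F → ℝ := fun x => Q x - h x with hg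
    have hhc : ContDiff ℝ 1 h :=
      contDiff_const.mul (ch_contDiff.comp (hFc.div_const M))
    have hgc : ContDiff ℝ 1 g := hFc.sub hhc
    have hhcont : Continuous h := hhc.continuous
    have hgcont : Continuous g := hgc.continuous
    have hFd : ∀ x, HasFDerivAt Q (fderiv ℝ f x) x := fun x => by
      rw [← hDF]
      exact (hFc.differentiable (by norm_num)).differentiableAt.hasFDerivAt
    have hhd : ∀ x, fderiv ℝ h x = th (Q x / M) • fderiv ℝ f x := by
      intro x
      have h1 : HasFDerivAt (fun y => Q y / M) (M⁻¹ • fderiv ℝ f x) x := by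
        have := (hFd x).const_mul M⁻¹
        simpa [div_eq_inv_mul] using this
      have h2 := ((ch_hasDeriv (Q x / M)).comp_hasFDerivAt x h1).const_mul M
      have h3 : HasFDerivAt h (M • th (Q x / M) • M⁻¹ • fderiv ℝ f x) x := h2
      rw [h3.fderiv, smul_smul, smul_smul]
      congr 1
      field_simp
    have hgd : ∀ x, fderiv ℝ g x = (1 - th (Q x / M)) • fderiv ℝ f x := by
      intro x
      have h1 : HasFDerivAt g (fderiv ℝ f x - fderiv ℝ h x) x :=
        (hFd x).sub (hhc.differentiable (by norm_num)).differentiableAt.hasFDerivAt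
      rw [h1.fderiv, hhd, sub_smul, one_smul]
    have hhn : ∀ x, ‖fderiv ℝ h x‖ ^ 2 ≤ ‖fderiv ℝ f x‖ ^ 2 := by
      intro x
      rw [hhd, norm_smul, Real.norm_eq_abs, abs_of_nonneg (th_nonneg _)]
      refine pow_le_pow_left₀ (mul_nonneg (th_nonneg _) (norm_nonneg _)) ?_ 2
      have := mul_le_mul_of_nonneg_right (th_le (Q x / M)) (norm_nonneg (fderiv ℝ f x))
      linarith
    have hgn : ∀ x, ‖fderiv ℝ g x‖ ^ 2 ≤ ‖fderiv ℝ f x‖ ^ 2 := by
      intro x
      have h1 : 0 ≤ 1 - th (Q x / M) := by linarith [th_le (Q x / M)]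
      rw [hgd, norm_smul, Real.norm_eq_abs, abs_of_nonneg h1]
      refine pow_le_pow_left₀ (mul_nonneg h1 (norm_nonneg _)) ?_ 2
      have := mul_nonneg (th_nonneg (Q x / M)) (norm_nonneg (fderiv ℝ f x))
      linarith
    have hcd : ∀ u : F → ℝ, ContDiff ℝ 1 u → Continuous (fun x => ‖fderiv ℝ u x‖ ^ 2) :=
      fun u hu => ((hu.continuous_fderiv (by norm_num)).norm).pow 2
    have hDh : ∫ x in U, ‖fderiv ℝ h x‖ ^ 2 ∂μ ≤ D := by
      refine (setIntegral_le_integral (hI _ (hcd h hhc)) ?_).trans ?_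
      · exact Filter.Eventually.of_forall fun x => by positivity
      · exact integral_mono (hI _ (hcd h hhc)) (hI _ (hcd f hf)) hhn
    have hDg : ∫ x, ‖fderiv ℝ g x‖ ^ 2 ∂μ ≤ D :=
      integral_mono (hI _ (hcd g hgc)) (hI _ (hcd f hf)) hgn
    -- the support of g
    have hgsupp : μ {x | g x ≠ 0} ≤ ENNReal.ofReal (Real.exp (-(2 * m))) := by
      have h1 : {x | g x ≠ 0} ⊆ {x | M ^ 2 ≤ Q x ^ 2} := by
        intro x hx
        by_contra hcon
        refine hx ?_
        have h2 : Q x ^ 2 < M ^ 2 := not_le.1 hcon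
        have h3 : |Q x| ≤ M := (abs_lt_of_sq_lt_sq h2 hM0.le).le
        have h4 : |Q x / M| ≤ 1 := by
          rw [abs_div, abs_of_pos hM0, div_le_one hM0]
          exact h3
        simp only [hg, hh]
        rw [ch_eq h4]
        field_simp
        ring
      have h2 : M ^ 2 * μ.real {x | M ^ 2 ≤ Q x ^ 2} ≤ S :=
        mul_meas_ge_le_integral_of_nonneg (Filter.Eventually.of_forall fun x => by positivity)
          (hI _ (by fun_prop)) (M ^ 2)
      have h3 : μ.real {x | M ^ 2 ≤ Q x ^ 2} ≤ Real.exp (-(2 * m)) := by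
        rw [hM2] at h2
        have he := Real.exp_pos (2 * m)
        have h4 : Real.exp (2 * m) * μ.real {x | M ^ 2 ≤ Q x ^ 2} ≤ 1 := by
          refine le_of_mul_le_mul_right ?_ hS1
          rw [hM2]
          linarith
        rw [Real.exp_neg, ← one_div, le_div_iff₀ he, mul_comm]
        exact h4
      calc μ {x | g x ≠ 0} ≤ μ {x | M ^ 2 ≤ Q x ^ 2} := measure_mono h1
        _ = ENNReal.ofReal (μ.real {x | M ^ 2 ≤ Q x ^ 2}) := by
            rw [ofReal_measureReal]
        _ ≤ _ := ENNReal.ofReal_le_ofReal h3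
    set G := ∫ x, g x ^ 2 ∂μ with hG
    have hGle : G ≤ B * D := (hsm g hgc hgsupp).trans
      (mul_le_mul_of_nonneg_left hDg (by positivity))
    have hGU : ∫ x in U, g x ^ 2 ∂μ ≤ G :=
      setIntegral_le_integral (hI _ (by fun_prop))
        (Filter.Eventually.of_forall fun x => by positivity)
    -- on U
    have hhU : ∫ x in U, h x ^ 2 ∂μ ≤ A * D + G := by
      obtain ⟨c', hc'⟩ := hloc h hhc
      rw [var_le (μ.restrict U) hres0 hresb h hhcont c', hresr] at hc'
      have h1 : 0 ≤ μ.real U * (c' - (∫ x in U, h x ∂μ) / μ.real U) ^ 2 := by positivity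
      have h2 : ∫ x in U, h x ∂μ = - ∫ x in U, g x ∂μ := by
        have : ∫ x in U, g x ∂μ = ∫ x in U, Q x ∂μ - ∫ x in U, h x ∂μ :=
          integral_sub (hI Q hFcont).integrableOn (hI h hhcont).integrableOn
        rw [hF0] at this
        linarith
      have h3 : (∫ x in U, g x ∂μ) ^ 2 ≤ μ.real U * ∫ x in U, g x ^ 2 ∂μ := by
        have := cs (μ.restrict U) hresb g hgcont
        rwa [hresr] at this
      have h4 : (∫ x in U, h x ∂μ) ^ 2 / μ.real U ≤ G := by
        rw [div_le_iff₀ hU0, h2, neg_sq]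
        refine h3.trans ?_
        rw [mul_comm]
        exact mul_le_mul_of_nonneg_right hGU hU0.le
      have h5 : A * ∫ x in U, ‖fderiv ℝ h x‖ ^ 2 ∂μ ≤ A * D :=
        mul_le_mul_of_nonneg_left hDh (by positivity)
      linarith
    -- on the complement
    have hhUc : ∫ x in Uᶜ, h x ^ 2 ∂μ ≤ S / 100 := by
      have h1 : ∫ x in Uᶜ, h x ^ 2 ∂μ ≤ ∫ x in Uᶜ, (2 * M) ^ 2 ∂μ := by
        refine setIntegral_mono (hI _ (by fun_prop)).integrableOn
          (integrable_const _).integrableOn fun x => ?_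
        have h2 : |h x| ≤ 2 * M := by
          simp only [hh]
          rw [abs_mul, abs_of_pos hM0]
          nlinarith [ch_abs (Q x / M)]
        calc h x ^ 2 = |h x| ^ 2 := (sq_abs _).symm
          _ ≤ (2 * M) ^ 2 := pow_le_pow_left₀ (abs_nonneg _) h2 2
      have h2 : ∫ x in Uᶜ, (2 * M) ^ 2 ∂μ = μ.real Uᶜ * (2 * M) ^ 2 := by
        rw [integral_const, measureReal_restrict_apply_univ, smul_eq_mul]
      have h3 : μ.real Uᶜ * (2 * M) ^ 2 ≤ Real.exp (-(8 * m)) * (2 * M) ^ 2 :=
        mul_le_mul_of_nonneg_right hUr (by positivity)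
      have h4 : Real.exp (-(8 * m)) * (2 * M) ^ 2 = 4 * Real.exp (-(6 * m)) * S := by
        rw [mul_pow, hM2]
        have : Real.exp (-(6 * m)) = Real.exp (-(8 * m)) * Real.exp (2 * m) := by
          rw [← Real.exp_add]
          congr 1
          ring
        rw [this]
        ring
      have h5 : Real.exp (-(6 * m)) ≤ 1 / 400 := by
        have h6 : Real.exp (-(6 * m)) = (Real.exp m ^ 6)⁻¹ := by
          rw [Real.exp_neg, ← Real.exp_nat_mul]
          norm_num
        rw [h6]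
        have h7 : (4:ℝ) ≤ Real.exp m := by
          have := Real.add_one_le_exp m
          linarith
        have h8 : (4:ℝ) ^ 6 ≤ Real.exp m ^ 6 := pow_le_pow_left₀ (by norm_num) h7 6
        rw [inv_le_comm₀ (by positivity) (by norm_num)]
        refine le_trans ?_ h8
        norm_num
      have h9 : 4 * Real.exp (-(6 * m)) * S ≤ S / 100 := by nlinarith
      linarith
    have hhall : ∫ x, h x ^ 2 ∂μ = ∫ x in U, h x ^ 2 ∂μ + ∫ x in Uᶜ, h x ^ 2 ∂μ :=
      (integral_add_compl hUm (hI _ (by fun_prop))).symm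
    have hSle : S ≤ 2 * ∫ x, h x ^ 2 ∂μ + 2 * G := by
      rw [hS, hG, ← integral_const_mul, ← integral_const_mul,
        ← integral_add (hI _ (by fun_prop)) (hI _ (by fun_prop))]
      refine integral_mono (hI _ (by fun_prop)) (hI _ (by fun_prop)) fun x => ?_
      have : Q x = h x + g x := by simp only [hg]; ring
      simp only
      rw [this]
      nlinarith [sq_nonneg (h x - g x)]
    have hA' : 0 ≤ A * D := by positivity
    have hB' : 0 ≤ B * D := by positivity
    rw [hhall] at hSle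
    have hrw : (2 * (2 * A + 4 * B)) * D = 4 * (A * D) + 8 * (B * D) := by ring
    rw [hrw]
    linarith
  have hvar := var_le μ (IsProbabilityMeasure.ne_zero μ) hball f hfcont c
  rw [show (μ univ).toReal = 1 by simp, div_one, div_one, one_mul] at hvar
  have : ∫ x, Q x ^ 2 ∂μ = ∫ x, (f x - c) ^ 2 ∂μ := rfl
  nlinarith [sq_nonneg (c - ∫ x, f x ∂μ)]


end Pool.Agent.H888R2.KC
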