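import Pool.Agent.H888R2.KC.Defs
import Pool.Agent.H888R2.KC.F2
import Pool.Agent.H888R2.KC.L1

set_option autoImplicit false

namespace Pool.Agent.H888R2.KC

open MeasureTheory Set Matrix
open scoped ENNReal InnerProductSpace
open Pool.Agent.H212R2.KLS (mu Bdd ev gr)

variable {𝕜 : Type} [RCLike 𝕜] {N : ℕ} {ι : Type} [Fintype ι]
variable {Φ : EuclideanSpace ℝ ι →ₗ[ℝ] Matrix (Fin N) (Fin N) 𝕜}

namespace T2x

/-- `1 / √2` -/
noncomputable def rr (𝕜 : Type) [RCLike 𝕜] : 𝕜 := (((Real.sqrt 2)⁻¹ : ℝ) : 𝕜)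

theorem rr_star : star (rr 𝕜) = rr 𝕜 := by
  unfold rr
  exact RCLike.conj_ofReal _

theorem rr_mul : rr 𝕜 * rr 𝕜 = 1 / 2 := by
  unfold rr
  rw [← RCLike.ofReal_mul, ← mul_inv, Real.mul_self_sqrt (by norm_num), RCLike.ofReal_inv,
    RCLike.ofReal_ofNat, one_div]

/-- rotation by 45 degrees in the coordinates `i, j` -/
noncomputable def Rm (𝕜 : Type) [RCLike 𝕜] {N : ℕ} (i j : Fin N) : Matrix (Fin N) (Fin N) 𝕜 :=
  fun a b => if a = i then (if b = i then rr 𝕜 else if b = j then rr 𝕜 else 0)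
    else if a = j then (if b = i then -rr 𝕜 else if b = j then rr 𝕜 else 0)
    else if a = b then 1 else 0

theorem sum_two {N : ℕ} {i j : Fin N} (hij : i ≠ j) (f : Fin N → 𝕜)
    (h : ∀ k, k ≠ i → k ≠ j → f k = 0) : ∑ k, f k = f i + f j := by
  rw [← Finset.sum_pair hij]
  symm
  apply Finset.sum_subset (Finset.subset_univ _)
  intro k _ hk
  simp only [Finset.mem_insert, Finset.mem_singleton, not_or] at hk
  exact h k hk.1 hk.2

theorem Rm_unitary {N : ℕ} {i j : Fin N} (hij : i ≠ j) :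
    Rm 𝕜 i j ∈ Matrix.unitaryGroup (Fin N) 𝕜 := by
  rw [Matrix.mem_unitaryGroup_iff]
  ext a b
  rw [Matrix.mul_apply]
  have hst : ∀ k, (star (Rm 𝕜 i j)) k b = Rm 𝕜 i j b k := by
    intro k
    rw [Matrix.star_apply]
    unfold Rm
    split_ifs <;> simp [rr_star]
  simp only [hst]
  have hji : j ≠ i := hij.symm
  have h2 := rr_mul (𝕜 := 𝕜)
  by_cases ha : a = i
  · subst ha
    rw [sum_two hij _ (fun k hk hk' => by simp [Rm, hk, hk'])]
    by_cases hb : b = a
    · subst hb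
      simp only [Rm, if_true, hji, if_false, Matrix.one_apply_eq]
      linear_combination 2 * h2
    · by_cases hb' : b = j
      · subst hb'
        simp [Rm, hji, hij]
      · simp [Rm, hb, hb', Ne.symm hb]
  · by_cases ha' : a = j
    · subst ha'
      rw [sum_two hij _ (fun k hk hk' => by simp [Rm, hk, hk', ha])]
      by_cases hb : b = a
      · subst hb
        simp only [Rm, if_true, hji, if_false, Matrix.one_apply_eq]
        linear_combination 2 * h2
      · by_cases hb' : b = i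
        · subst hb'
          simp [Rm, hji, hij]
        · simp [Rm, hb, hb', ha, Ne.symm hb]
    · rw [Finset.sum_eq_single a]
      · by_cases hb : b = i
        · subst hb
          simp [Rm, ha, ha', Matrix.one_apply]
        · by_cases hb' : b = j
          · subst hb'
            simp [Rm, ha, ha', Matrix.one_apply, hb]
          · simp [Rm, ha, ha', hb, hb', Matrix.one_apply, eq_comm]
      · intro k _ hk
        simp [Rm, ha, ha', Ne.symm hk]
      · intro h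
        exact absurd (Finset.mem_univ _) h

theorem entry {N : ℕ} {i j : Fin N} (hij : i ≠ j) (X : Matrix (Fin N) (Fin N) 𝕜) :
    (Rm 𝕜 i j * X * (Rm 𝕜 i j)ᴴ) i j =
      (1 / 2 : 𝕜) * (X i j - X j i - (X i i - X j j)) := by
  have hji : j ≠ i := hij.symm
  have e1 : ∀ l, (Rm 𝕜 i j * X) i l = rr 𝕜 * (X i l + X j l) := by
    intro l
    rw [Matrix.mul_apply, sum_two hij _ (fun k hk hk' => by simp [Rm, hk, hk'])]
    simp [Rm, hji]
    ring
  rw [Matrix.mul_apply, sum_two hij _ (fun k hk hk' => by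
    simp [Rm, hk, hk', hji])]
  rw [e1, e1, Matrix.conjTranspose_apply, Matrix.conjTranspose_apply]
  have e2 : star (Rm 𝕜 i j j i) = - rr 𝕜 := by simp [Rm, hji, rr_star]
  have e3 : star (Rm 𝕜 i j j j) = rr 𝕜 := by simp [Rm, hji, rr_star]
  rw [e2, e3]
  have h2 := rr_mul (𝕜 := 𝕜)
  linear_combination (X i j - X j i - (X i i - X j j)) * h2

end T2x

open T2x in
theorem diff_tail (h : Fr Φ) (ρ : EuclideanSpace ℝ ι → ℝ) (hρ : Dn Φ ρ) (s : ℝ) (hs : 0 < s)
    (hcol : ∀ i j : Fin N, i ≠ j → ∀ u : ℝ, mu ρ {x | u * Real.sqrt (N * s) ≤ ‖Φ x i j‖} ≤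
      ENNReal.ofReal (Real.exp (N * (5 - u / 30)))) (i j : Fin N) (hij : i ≠ j) (u : ℝ) :
    mu ρ {x | 2 * u * Real.sqrt (N * s) ≤ ‖Φ x i i - Φ x j j‖} ≤
      ENNReal.ofReal (Real.exp (N * (5 - u / 30))) := by
  have hU := Rm_unitary (𝕜 := 𝕜) hij
  have hmap := (Dn.basic h hρ).1 _ hU
  have hcont : Continuous (cj Φ (Rm 𝕜 i j)) := LinearMap.continuous_of_finiteDimensional _
  have hsub : {x | 2 * u * Real.sqrt (N * s) ≤ ‖Φ x i i - Φ x j j‖} ⊆
      (cj Φ (Rm 𝕜 i j)) ⁻¹' {x | u * Real.sqrt (N * s) ≤ ‖Φ x i j‖} := by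
    intro x hx
    have hx' : 2 * u * Real.sqrt (N * s) ≤ ‖Φ x i i - Φ x j j‖ := hx
    show u * Real.sqrt (N * s) ≤ ‖Φ (cj Φ (Rm 𝕜 i j) x) i j‖
    rw [Phi_cj h, entry hij]
    have hst : ∀ a b, star (Φ x a b) = Φ x b a := by
      intro a b
      have := congrFun (congrFun (h.herm x) b) a
      rwa [Matrix.conjTranspose_apply] at this
    set d := Φ x i i - Φ x j j with hd
    set e := Φ x i j - Φ x j i with he
    have hd1 : star d = d := by rw [hd, star_sub, hst, hst]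
    have he1 : star e = -e := by rw [he, star_sub, hst, hst]; ring
    have hd2 : ‖d‖ = |RCLike.re d| := by
      have : ((RCLike.re d : ℝ) : 𝕜) = d := RCLike.conj_eq_iff_re.mp hd1
      conv_lhs => rw [← this]
      rw [RCLike.norm_ofReal]
    have he2 : RCLike.re e = 0 := by
      have h3 : RCLike.re (star e) = RCLike.re e := RCLike.conj_re e
      rw [he1, map_neg] at h3
      linarith
    have h4 : |RCLike.re ((1 / 2 : 𝕜) * (e - d))| ≤ ‖(1 / 2 : 𝕜) * (e - d)‖ :=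
      RCLike.abs_re_le_norm _
    have h5 : RCLike.re ((1 / 2 : 𝕜) * (e - d)) = -(1 / 2) * RCLike.re d := by
      have h6 : (1 / 2 : 𝕜) = (((1 / 2 : ℝ)) : 𝕜) := by push_cast; rfl
      rw [h6, RCLike.re_ofReal_mul, map_sub, he2]
      ring
    rw [h5, abs_mul, abs_neg, abs_of_pos (by norm_num : (0 : ℝ) < 1 / 2), ← hd2] at h4
    linarith
  calc mu ρ {x | 2 * u * Real.sqrt (N * s) ≤ ‖Φ x i i - Φ x j j‖}
      ≤ mu ρ ((cj Φ (Rm 𝕜 i j)) ⁻¹' {x | u * Real.sqrt (N * s) ≤ ‖Φ x i j‖}) :=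
        measure_mono hsub
    _ ≤ (mu ρ).map (cj Φ (Rm 𝕜 i j)) {x | u * Real.sqrt (N * s) ≤ ‖Φ x i j‖} :=
        Measure.le_map_apply hcont.measurable.aemeasurable _
    _ = mu ρ {x | u * Real.sqrt (N * s) ≤ ‖Φ x i j‖} := by rw [hmap]
    _ ≤ _ := hcol i j hij u

end Pool.Agent.H888R2.KC
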