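import Pool.Agent.H888R2.KC.Defs
import Pool.Agent.H212R2.KLS.T1

set_option autoImplicit false

namespace Pool.Agent.H888R2.KC

open MeasureTheory Set Matrix
open scoped ENNReal InnerProductSpace
open Pool.Agent.H212R2.KLS (mu Bdd ev gr)

variable {ι : Type} [Fintype ι]

namespace T3x

theorem mu_apply (ρ : EuclideanSpace ℝ ι → ℝ) (S : Set (EuclideanSpace ℝ ι))
    (hS : MeasurableSet S) :
    mu ρ S = ∫⁻ x, S.indicator (fun x => ENNReal.ofReal (ρ x)) x := by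
  unfold mu
  rw [withDensity_apply _ hS, lintegral_indicator hS]

theorem pl (ρ : EuclideanSpace ℝ ι → ℝ) (h0 : ∀ x, 0 ≤ ρ x) (hm : Measurable ρ)
    (hlc : ∀ x y : EuclideanSpace ℝ ι, ∀ t : ℝ, 0 < t → t < 1 →
      ρ x ^ (1 - t) * ρ y ^ t ≤ ρ ((1 - t) • x + t • y))
    (e : EuclideanSpace ℝ ι) (a b t : ℝ) (ht0 : 0 < t) (ht1 : t < 1) :
    mu ρ {x | a ≤ ⟪e, x⟫_ℝ} ^ (1 - t) * mu ρ {x | b ≤ ⟪e, x⟫_ℝ} ^ t ≤
      mu ρ {x | (1 - t) * a + t * b ≤ ⟪e, x⟫_ℝ} := by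
  have hms : ∀ v : ℝ, MeasurableSet {x : EuclideanSpace ℝ ι | v ≤ ⟪e, x⟫_ℝ} := fun v =>
    measurableSet_le measurable_const (by fun_prop)
  rw [mu_apply ρ _ (hms a), mu_apply ρ _ (hms b), mu_apply ρ _ (hms _)]
  have t1 : 0 < 1 - t := by linarith
  refine Pool.Agent.H212R2.KLS.PL volume t ht0 ht1 _ _ _
    ((hm.ennreal_ofReal).indicator (hms a)) ((hm.ennreal_ofReal).indicator (hms b))
    ((hm.ennreal_ofReal).indicator (hms _)) ?_
  intro x y
  by_cases hx : x ∈ {x : EuclideanSpace ℝ ι | a ≤ ⟪e, x⟫_ℝ}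
  · by_cases hy : y ∈ {x : EuclideanSpace ℝ ι | b ≤ ⟪e, x⟫_ℝ}
    · have hxy : (1 - t) • x + t • y ∈ {x : EuclideanSpace ℝ ι | (1 - t) * a + t * b ≤ ⟪e, x⟫_ℝ} := by
        simp only [mem_ofPred_eq] at hx hy ⊢
        rw [inner_add_right, inner_smul_right, inner_smul_right]
        nlinarith
      rw [indicator_of_mem hx, indicator_of_mem hy, indicator_of_mem hxy,
        ENNReal.ofReal_rpow_of_nonneg (h0 x) t1.le, ENNReal.ofReal_rpow_of_nonneg (h0 y) ht0.le,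
        ← ENNReal.ofReal_mul (Real.rpow_nonneg (h0 x) _)]
      exact ENNReal.ofReal_le_ofReal (hlc x y t ht0 ht1)
    · rw [indicator_of_notMem hy, ENNReal.zero_rpow_of_pos ht0, mul_zero]
      exact zero_le
  · rw [indicator_of_notMem hx, ENNReal.zero_rpow_of_pos t1, zero_mul]
    exact zero_le

theorem one_side (ρ : EuclideanSpace ℝ ι → ℝ) (h0 : ∀ x, 0 ≤ ρ x) (hm : Measurable ρ)
    (hlc : ∀ x y : EuclideanSpace ℝ ι, ∀ t : ℝ, 0 < t → t < 1 →
      ρ x ^ (1 - t) * ρ y ^ t ≤ ρ ((1 - t) • x + t • y)) (h1 : mu ρ univ = 1)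
    (e : EuclideanSpace ℝ ι) (s : ℝ) (hs : 0 < s)
    (hint : Integrable (fun x => ⟪e, x⟫_ℝ ^ 2) (mu ρ)) (hmom : ∫ x, ⟪e, x⟫_ℝ ^ 2 ∂(mu ρ) ≤ s)
    (b : ℝ) (hb : 2 * Real.sqrt s < b) :
    mu ρ {x | b ≤ ⟪e, x⟫_ℝ} ≤ ENNReal.ofReal (Real.exp (-(b / (4 * Real.sqrt s)))) := by
  have : IsProbabilityMeasure (mu ρ) := ⟨h1⟩
  have hms : ∀ v : ℝ, MeasurableSet {x : EuclideanSpace ℝ ι | v ≤ ⟪e, x⟫_ℝ} := fun v =>
    measurableSet_le measurable_const (by fun_prop)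
  set q := Real.sqrt s with hq
  have hq0 : 0 < q := Real.sqrt_pos.2 hs
  have hqq : q * q = s := Real.mul_self_sqrt hs.le
  set G : ℝ → ℝ := fun v => (mu ρ).real {x | v ≤ ⟪e, x⟫_ℝ} with hG
  -- Chebyshev
  have hch : (mu ρ).real {x | 4 * s ≤ ⟪e, x⟫_ℝ ^ 2} ≤ 1 / 4 := by
    have := mul_meas_ge_le_integral_of_nonneg (μ := mu ρ)
      (Filter.Eventually.of_forall fun x => sq_nonneg (⟪e, x⟫_ℝ)) hint (4 * s)
    have h2 : 4 * s * (mu ρ).real {x | 4 * s ≤ ⟪e, x⟫_ℝ ^ 2} ≤ s := this.trans hmom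
    nlinarith
  have hup : G (2 * q) ≤ 1 / 4 := by
    refine le_trans (measureReal_mono ?_) hch
    intro x hx
    simp only [mem_ofPred_eq] at hx ⊢
    nlinarith
  have hlo : 3 / 4 ≤ G (-(2 * q)) := by
    have h3 : (mu ρ).real {x | -(2 * q) ≤ ⟪e, x⟫_ℝ}ᶜ ≤ 1 / 4 := by
      refine le_trans (measureReal_mono ?_) hch
      intro x hx
      simp only [mem_compl_iff, mem_ofPred_eq, not_le] at hx ⊢
      nlinarith
    rw [probReal_compl_eq_one_sub (hms _)] at h3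
    simp only [hG]
    linarith
  -- Prekopa-Leindler
  set t : ℝ := 4 * q / (b + 2 * q) with ht
  have hbq : 0 < b + 2 * q := by linarith
  have ht0 : 0 < t := by positivity
  have ht1 : t < 1 := by rw [ht, div_lt_one hbq]; linarith
  have htb : t * (b + 2 * q) = 4 * q := by rw [ht]; exact div_mul_cancel₀ _ hbq.ne'
  have hpl := pl ρ h0 hm hlc e (-(2 * q)) b t ht0 ht1
  have hmid : (1 - t) * (-(2 * q)) + t * b = 2 * q := by linarith
  rw [hmid] at hpl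
  have hplr : G (-(2 * q)) ^ (1 - t) * G b ^ t ≤ G (2 * q) := by
    have := ENNReal.toReal_mono (measure_ne_top _ _) hpl
    rw [ENNReal.toReal_mul, ← ENNReal.toReal_rpow, ← ENNReal.toReal_rpow] at this
    exact this
  have hGb0 : 0 ≤ G b := measureReal_nonneg
  have hkey : G b ≤ Real.exp (-(b / (4 * q))) := by
    rcases hGb0.eq_or_lt with hz | hpos
    · rw [← hz]; exact (Real.exp_pos _).le
    have h34 : (3 / 4 : ℝ) ^ (1 - t) ≤ G (-(2 * q)) ^ (1 - t) :=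
      Real.rpow_le_rpow (by norm_num) hlo (by linarith)
    have h5 : (3 / 4 : ℝ) ^ (1 - t) * G b ^ t ≤ 1 / 4 :=
      le_trans (mul_le_mul_of_nonneg_right h34 (Real.rpow_nonneg hGb0 _)) (hplr.trans hup)
    have h6 := Real.log_le_log (by positivity) h5
    rw [Real.log_mul (by positivity) (by positivity), Real.log_rpow (by norm_num),
      Real.log_rpow hpos] at h6
    have h7 : Real.log (1 / 4 : ℝ) = Real.log (3 / 4) - Real.log 3 := by
      rw [← Real.log_div (by norm_num) (by norm_num)]; norm_num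
    have h8 : Real.log (3 / 4 : ℝ) ≤ 0 := Real.log_nonpos (by norm_num) (by norm_num)
    have h9 : 1 < Real.log 3 := by
      rw [Real.lt_log_iff_exp_lt (by norm_num)]; exact Real.exp_one_lt_three
    have h10 : t * Real.log (G b) ≤ -1 := by
      rw [h7] at h6
      nlinarith
    have h11 : Real.log (G b) ≤ -(b / (4 * q)) := by
      have h12 : b / (4 * q) ≤ 1 / t := by
        rw [div_le_div_iff₀ (by positivity) ht0]
        nlinarith
      have h13 : Real.log (G b) ≤ -(1 / t) := by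
        have h14 : t * (1 / t) = 1 := by field_simp
        by_contra hcon
        push Not at hcon
        have := mul_lt_mul_of_pos_left hcon ht0
        linarith
      linarith
    calc G b = Real.exp (Real.log (G b)) := (Real.exp_log hpos).symm
      _ ≤ _ := Real.exp_le_exp.2 h11
  rw [← ENNReal.ofReal_toReal (measure_ne_top (mu ρ) {x | b ≤ ⟪e, x⟫_ℝ})]
  exact ENNReal.ofReal_le_ofReal hkey

end T3x

theorem lin_tail (ρ : EuclideanSpace ℝ ι → ℝ) (h0 : ∀ x, 0 ≤ ρ x) (hm : Measurable ρ)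
    (hlc : ∀ x y : EuclideanSpace ℝ ι, ∀ t : ℝ, 0 < t → t < 1 →
      ρ x ^ (1 - t) * ρ y ^ t ≤ ρ ((1 - t) • x + t • y)) (h1 : mu ρ univ = 1)
    (e : EuclideanSpace ℝ ι) (s : ℝ) (hs : 0 < s)
    (hint : Integrable (fun x => ⟪e, x⟫_ℝ ^ 2) (mu ρ)) (hmom : ∫ x, ⟪e, x⟫_ℝ ^ 2 ∂(mu ρ) ≤ s)
    (b : ℝ) (hb : 0 ≤ b) :
    mu ρ {x | b ≤ |⟪e, x⟫_ℝ|} ≤ 2 * ENNReal.ofReal (Real.exp (-(b / (4 * Real.sqrt s)))) := by
  have : IsProbabilityMeasure (mu ρ) := ⟨h1⟩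
  have hq0 : 0 < Real.sqrt s := Real.sqrt_pos.2 hs
  rcases le_or_gt b (2 * Real.sqrt s) with hle | hgt
  · have h2 : (1 / 2 : ℝ) ≤ Real.exp (-(b / (4 * Real.sqrt s))) := by
      have h3 : b / (4 * Real.sqrt s) ≤ 1 / 2 := by
        rw [div_le_div_iff₀ (by positivity) (by norm_num)]; linarith
      have := Real.add_one_le_exp (-(b / (4 * Real.sqrt s)))
      linarith
    calc mu ρ {x | b ≤ |⟪e, x⟫_ℝ|} ≤ 1 := prob_le_one
      _ = 2 * ENNReal.ofReal (1 / 2) := by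
          rw [← ENNReal.ofReal_ofNat 2, ← ENNReal.ofReal_mul (by norm_num)]; norm_num
      _ ≤ _ := by gcongr
  · have hA := T3x.one_side ρ h0 hm hlc h1 e s hs hint hmom b hgt
    have hint' : Integrable (fun x => ⟪-e, x⟫_ℝ ^ 2) (mu ρ) := by
      simpa [inner_neg_left] using hint
    have hmom' : ∫ x, ⟪-e, x⟫_ℝ ^ 2 ∂(mu ρ) ≤ s := by
      simpa [inner_neg_left] using hmom
    have hB := T3x.one_side ρ h0 hm hlc h1 (-e) s hs hint' hmom' b hgt
    calc mu ρ {x | b ≤ |⟪e, x⟫_ℝ|} ≤ mu ρ ({x | b ≤ ⟪e, x⟫_ℝ} ∪ {x | b ≤ ⟪-e, x⟫_ℝ}) := by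
          refine measure_mono ?_
          intro x hx
          simp only [mem_ofPred_eq, mem_union, inner_neg_left] at hx ⊢
          exact le_abs.1 hx
      _ ≤ _ := measure_union_le _ _
      _ ≤ _ := by rw [two_mul]; exact add_le_add hA hB

end Pool.Agent.H888R2.KC
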