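import Pool.Agent.H888R2.KC.Defs

set_option autoImplicit false

namespace Pool.Agent.H888R2.KC

open MeasureTheory Set Matrix
open scoped ENNReal InnerProductSpace
open Pool.Agent.H212R2.KLS (mu Bdd ev gr)

variable {𝕜 : Type} [RCLike 𝕜] {N : ℕ} {ι : Type} [Fintype ι]
  {Φ : EuclideanSpace ℝ ι →ₗ[ℝ] Matrix (Fin N) (Fin N) 𝕜}

namespace T4x

theorem ip_add_left (A B C : Matrix (Fin N) (Fin N) 𝕜) : ip (A + B) C = ip A C + ip B C := by
  simp only [ip, Matrix.add_apply, star_add, add_mul, map_add, Finset.sum_add_distrib]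

theorem ip_smul_left (A B : Matrix (Fin N) (Fin N) 𝕜) (c : ℝ) : ip (c • A) B = c * ip A B := by
  simp only [ip, Matrix.smul_apply, star_smul, smul_mul_assoc, RCLike.smul_re, Finset.mul_sum,
    star_trivial]

/-- `A ↦ ip A B` as a linear map -/
def ipL (B : Matrix (Fin N) (Fin N) 𝕜) : Matrix (Fin N) (Fin N) 𝕜 →ₗ[ℝ] ℝ where
  toFun A := ip A B
  map_add' A A' := ip_add_left A A' B
  map_smul' c A := by simp [ip_smul_left]

theorem inner_ps (A : Matrix (Fin N) (Fin N) 𝕜) (x : EuclideanSpace ℝ ι) :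
    ⟪ps Φ A, x⟫_ℝ = ip (Φ x) A := by
  classical
  have hx : x = ∑ k, x k • EuclideanSpace.single k (1 : ℝ) := by
    ext j
    simp [Finset.sum_apply, Pi.single_apply]
  have h1 : ip (Φ x) A = ∑ k, x k * ip (Φ (EuclideanSpace.single k (1:ℝ))) A := by
    have h2 : ipL A (Φ x) = ∑ k, x k * ipL A (Φ (EuclideanSpace.single k (1:ℝ))) := by
      conv_lhs => rw [hx]
      rw [map_sum, map_sum]
      apply Finset.sum_congr rfl
      intro k _
      rw [map_smul, map_smul, smul_eq_mul]
    exact h2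
  rw [h1, PiLp.inner_apply]
  apply Finset.sum_congr rfl
  intro k _
  simp only [ps, LinearMap.coe_mk, AddHom.coe_mk, RCLike.inner_apply, conj_trivial]

theorem ip_one (A : Matrix (Fin N) (Fin N) 𝕜) : ip A 1 = ∑ i, RCLike.re (A i i) := by
  unfold ip
  apply Finset.sum_congr rfl
  intro i _
  rw [Finset.sum_eq_single i]
  · simp
  · intro j _ hj
    rw [Matrix.one_apply_ne hj.symm]; simp
  · intro h; exact absurd (Finset.mem_univ _) h

theorem norm_diag (h : Fr Φ) (x : EuclideanSpace ℝ ι) (i : Fin N) :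
    ‖Φ x i i‖ = |RCLike.re (Φ x i i)| := by
  have h1 : star (Φ x i i) = Φ x i i := by
    have h2 := congrFun (congrFun (h.herm x) i) i
    rwa [Matrix.conjTranspose_apply] at h2
  have h3 : ((RCLike.re (Φ x i i) : ℝ) : 𝕜) = Φ x i i := RCLike.conj_eq_iff_re.mp h1
  conv_lhs => rw [← h3]
  exact RCLike.norm_ofReal _

end T4x

theorem entry_tail (h : Fr Φ) (hN : 2 ≤ N) (ρ : EuclideanSpace ℝ ι → ℝ) (hρ : Dn Φ ρ)
    (h1 : mu ρ univ = 1) (s : ℝ) (hs : 0 < s)
    (hdiff : ∀ i j : Fin N, i ≠ j → ∀ u : ℝ,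
      mu ρ {x | 2 * u * Real.sqrt (N * s) ≤ ‖Φ x i i - Φ x j j‖} ≤
      ENNReal.ofReal (Real.exp (N * (5 - u / 30))))
    (htr : ∀ b : ℝ, 0 ≤ b → mu ρ {x | b ≤ |⟪tv Φ, x⟫_ℝ|} ≤
      2 * ENNReal.ofReal (Real.exp (-(b / (4 * Real.sqrt s))))) (i : Fin N) (u : ℝ) :
    mu ρ {x | 3 * u * Real.sqrt (N * s) ≤ ‖Φ x i i‖} ≤
      ENNReal.ofReal (Real.exp (N * (6 - u / 30))) := by
  classical
  have hNr : (2:ℝ) ≤ N := by exact_mod_cast hN
  have hN0 : (0:ℝ) < N := by linarith
  by_cases hu : u ≤ 180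
  · calc mu ρ {x | 3 * u * Real.sqrt (N * s) ≤ ‖Φ x i i‖} ≤ mu ρ univ := measure_mono (subset_univ _)
      _ = 1 := h1
      _ ≤ ENNReal.ofReal (Real.exp (N * (6 - u / 30))) := by
        rw [← ENNReal.ofReal_one]
        apply ENNReal.ofReal_le_ofReal
        apply Real.one_le_exp
        apply mul_nonneg hN0.le
        linarith
  · push Not at hu
    have hu0 : 0 < u := by linarith
    have hsq : 0 < Real.sqrt s := Real.sqrt_pos.mpr hs
    have hsN : 0 < Real.sqrt N := Real.sqrt_pos.mpr hN0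
    have hNs : Real.sqrt (N * s) = Real.sqrt N * Real.sqrt s := Real.sqrt_mul hN0.le s
    have hNN : Real.sqrt N * Real.sqrt N = N := Real.mul_self_sqrt hN0.le
    have hcov : {x | 3 * u * Real.sqrt (N * s) ≤ ‖Φ x i i‖} ⊆
        {x | u * N * Real.sqrt s ≤ |⟪tv Φ, x⟫_ℝ|} ∪
        ⋃ j ∈ Finset.univ.erase i, {x | 2 * u * Real.sqrt (N * s) ≤ ‖Φ x i i - Φ x j j‖} := by
      intro x hx
      by_contra hnot
      rw [mem_union, not_or] at hnot
      obtain ⟨hn1, hn2⟩ := hnot
      have hn1' : |⟪tv Φ, x⟫_ℝ| < u * N * Real.sqrt s := not_le.mp hn1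
      have hn2' : ∀ j, j ≠ i → ‖Φ x i i - Φ x j j‖ < 2 * u * Real.sqrt (N * s) := by
        intro j hj
        by_contra hc
        apply hn2
        rw [mem_iUnion₂]
        exact ⟨j, Finset.mem_erase.mpr ⟨hj, Finset.mem_univ _⟩, not_lt.mp hc⟩
      have htv : ⟪tv Φ, x⟫_ℝ = (Real.sqrt N)⁻¹ * ∑ j, RCLike.re (Φ x j j) := by
        unfold tv
        rw [real_inner_smul_left, T4x.inner_ps, T4x.ip_one]
      have hS : |∑ j, RCLike.re (Φ x j j)| < u * N * Real.sqrt (N * s) := by
        have e : ∑ j, RCLike.re (Φ x j j) = Real.sqrt N * ⟪tv Φ, x⟫_ℝ := by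
          rw [htv]; field_simp
        rw [e, abs_mul, abs_of_pos hsN, hNs]
        calc Real.sqrt N * |⟪tv Φ, x⟫_ℝ| < Real.sqrt N * (u * N * Real.sqrt s) :=
              mul_lt_mul_of_pos_left hn1' hsN
          _ = u * N * (Real.sqrt N * Real.sqrt s) := by ring
      have hsum : (N:ℝ) * RCLike.re (Φ x i i) = ∑ j, RCLike.re (Φ x j j) +
          ∑ j, (RCLike.re (Φ x i i) - RCLike.re (Φ x j j)) := by
        rw [Finset.sum_sub_distrib]
        simp
      have hdb : |∑ j, (RCLike.re (Φ x i i) - RCLike.re (Φ x j j))| ≤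
          N * (2 * u * Real.sqrt (N * s)) := by
        refine (Finset.abs_sum_le_sum_abs _ _).trans ?_
        have : ∀ j ∈ Finset.univ, |RCLike.re (Φ x i i) - RCLike.re (Φ x j j)| ≤
            2 * u * Real.sqrt (N * s) := by
          intro j _
          by_cases hj : j = i
          · subst hj
            rw [sub_self, abs_zero]
            positivity
          · rw [← map_sub]
            exact (RCLike.abs_re_le_norm _).trans (hn2' j hj).le
        refine (Finset.sum_le_sum this).trans ?_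
        simp
      have hfin : (N:ℝ) * ‖Φ x i i‖ < N * (3 * u * Real.sqrt (N * s)) := by
        rw [T4x.norm_diag h]
        have e1 : (N:ℝ) * |RCLike.re (Φ x i i)| = |(N:ℝ) * RCLike.re (Φ x i i)| := by
          rw [abs_mul, abs_of_pos hN0]
        rw [e1, hsum]
        have := abs_add_le (∑ j, RCLike.re (Φ x j j))
          (∑ j, (RCLike.re (Φ x i i) - RCLike.re (Φ x j j)))
        linarith
      have hx' : 3 * u * Real.sqrt (N * s) ≤ ‖Φ x i i‖ := hx
      have := mul_le_mul_of_nonneg_left hx' hN0.le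
      linarith
    have hA : mu ρ {x | u * N * Real.sqrt s ≤ |⟪tv Φ, x⟫_ℝ|} ≤
        ENNReal.ofReal (2 * Real.exp (N * (5 - u / 30))) := by
      refine (htr _ (by positivity)).trans ?_
      rw [ENNReal.ofReal_mul (by norm_num)]
      simp only [ENNReal.ofReal_ofNat]
      gcongr
      have e : u * N * Real.sqrt s / (4 * Real.sqrt s) = u * N / 4 := by field_simp
      rw [e]
      nlinarith
    have hB : mu ρ (⋃ j ∈ Finset.univ.erase i, {x | 2 * u * Real.sqrt (N * s) ≤
        ‖Φ x i i - Φ x j j‖}) ≤ ENNReal.ofReal ((N - 1) * Real.exp (N * (5 - u / 30))) := by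
      refine (measure_biUnion_finset_le _ _).trans ?_
      have : ∀ j ∈ Finset.univ.erase i, mu ρ {x | 2 * u * Real.sqrt (N * s) ≤
          ‖Φ x i i - Φ x j j‖} ≤ ENNReal.ofReal (Real.exp (N * (5 - u / 30))) := by
        intro j hj
        exact hdiff i j (Finset.ne_of_mem_erase hj).symm u
      refine (Finset.sum_le_sum this).trans ?_
      rw [Finset.sum_const, Finset.card_erase_of_mem (Finset.mem_univ _), Finset.card_univ,
        Fintype.card_fin, nsmul_eq_mul, ENNReal.ofReal_mul (by linarith)]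
      gcongr
      rw [← ENNReal.ofReal_natCast, Nat.cast_sub (by omega), Nat.cast_one]
    calc mu ρ {x | 3 * u * Real.sqrt (N * s) ≤ ‖Φ x i i‖} ≤ _ := measure_mono hcov
      _ ≤ _ := measure_union_le _ _
      _ ≤ ENNReal.ofReal (2 * Real.exp (N * (5 - u / 30))) +
          ENNReal.ofReal ((N - 1) * Real.exp (N * (5 - u / 30))) := add_le_add hA hB
      _ = ENNReal.ofReal (((N:ℝ) + 1) * Real.exp (N * (5 - u / 30))) := by
        rw [← ENNReal.ofReal_add (by positivity) (mul_nonneg (by linarith) (Real.exp_pos _).le)]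
        congr 1; ring
      _ ≤ ENNReal.ofReal (Real.exp (N * (6 - u / 30))) := by
        apply ENNReal.ofReal_le_ofReal
        have e : Real.exp (N * (6 - u / 30)) = Real.exp N * Real.exp (N * (5 - u / 30)) := by
          rw [← Real.exp_add]; congr 1; ring
        rw [e]
        apply mul_le_mul_of_nonneg_right _ (Real.exp_pos _).le
        exact Real.add_one_le_exp _

end Pool.Agent.H888R2.KC
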