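import Pool.Agent.H888R2.KC.Defs
import Pool.Agent.H888R2.KC.F2
import Pool.Agent.H888R2.KC.L1

/-!
# KC T5: tail of the quadratic form of a conjugation invariant log-concave random matrix
-/

set_option autoImplicit false

namespace Pool.Agent.H888R2.KC

open MeasureTheory Set Matrix
open scoped ENNReal InnerProductSpace
open Pool.Agent.H212R2.KLS (mu Bdd ev gr)

variable {𝕜 : Type} [RCLike 𝕜] {N : ℕ} {ι : Type} [Fintype ι]
  {Φ : EuclideanSpace ℝ ι →ₗ[ℝ] Matrix (Fin N) (Fin N) 𝕜}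

namespace T5x

/-- a unit vector is a column of a unitary matrix -/
theorem exists_unitary (i0 : Fin N) (w : EuclideanSpace 𝕜 (Fin N)) (hw : ‖w‖ = 1) :
    ∃ W ∈ Matrix.unitaryGroup (Fin N) 𝕜, ∀ i, W i i0 = w i := by
  have hs : Orthonormal 𝕜 (({i0} : Set (Fin N)).domRestrict (fun _ : Fin N => w)) := by
    refine ⟨fun _ => hw, fun a b hab => ?_⟩
    exact absurd (Subsingleton.elim a b) hab
  obtain ⟨b, hb⟩ := hs.exists_orthonormalBasis_extension_of_card_eq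
    (by simp : Module.finrank 𝕜 (EuclideanSpace 𝕜 (Fin N)) = Fintype.card (Fin N))
  refine ⟨Matrix.of fun i j => b j i, ?_, fun i => ?_⟩
  · rw [Matrix.mem_unitaryGroup_iff']
    ext j k
    rw [Matrix.star_eq_conjTranspose, Matrix.mul_apply]
    have h1 := orthonormal_iff_ite.1 b.orthonormal j k
    rw [PiLp.inner_apply] at h1
    simp only [Matrix.conjTranspose_apply, Matrix.of_apply, Matrix.one_apply]
    rw [← h1]
    refine Finset.sum_congr rfl fun i _ => ?_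
    simp [RCLike.inner_apply, mul_comm]
  · simp only [Matrix.of_apply]
    rw [hb i0 rfl]

theorem conj_entry (W X : Matrix (Fin N) (Fin N) 𝕜) (i0 : Fin N) :
    (Wᴴ * X * W) i0 i0 = star (fun i => W i i0) ⬝ᵥ (X *ᵥ fun i => W i i0) := by
  rw [Matrix.mul_assoc, Matrix.mul_apply]
  simp only [dotProduct, Matrix.mulVec, Matrix.mul_apply, Matrix.conjTranspose_apply, Pi.star_apply]

end T5x

theorem form_tail (h : Fr Φ) (hN : 1 ≤ N) (ρ : EuclideanSpace ℝ ι → ℝ) (hρ : Dn Φ ρ)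
    (h1 : mu ρ univ = 1) (s : ℝ) (hs : 0 < s)
    (hent : ∀ (i : Fin N) (u : ℝ), mu ρ {x | 3 * u * Real.sqrt (N * s) ≤ ‖Φ x i i‖} ≤
      ENNReal.ofReal (Real.exp (N * (6 - u / 30))))
    (v : EuclideanSpace 𝕜 (Fin N)) (hv : ‖v‖ ≤ 1) (u : ℝ) :
    mu ρ {x | 3 * u * Real.sqrt (N * s) ≤ ‖star v.ofLp ⬝ᵥ (Φ x *ᵥ v.ofLp)‖} ≤
      ENNReal.ofReal (Real.exp (N * (6 - u / 30))) := by
  have hNr : (1 : ℝ) ≤ N := by exact_mod_cast hN
  by_cases hu : u ≤ 0
  · calc mu ρ _ ≤ mu ρ univ := measure_mono (subset_univ _)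
      _ = ENNReal.ofReal 1 := by rw [h1, ENNReal.ofReal_one]
      _ ≤ _ := by
        apply ENNReal.ofReal_le_ofReal
        apply Real.one_le_exp
        apply mul_nonneg (by linarith)
        linarith
  push Not at hu
  have hpos : 0 < 3 * u * Real.sqrt (N * s) := by
    have : 0 < Real.sqrt (N * s) := Real.sqrt_pos.2 (by positivity)
    positivity
  by_cases hv0 : v = 0
  · have : {x : EuclideanSpace ℝ ι | 3 * u * Real.sqrt (N * s) ≤
        ‖star v.ofLp ⬝ᵥ (Φ x *ᵥ v.ofLp)‖} = ∅ := by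
      ext x
      simp only [mem_ofPred_eq, mem_empty_iff_false, iff_false, not_le]
      rw [hv0]
      simpa using hpos
    rw [this, measure_empty]
    exact bot_le
  have hvn : 0 < ‖v‖ := norm_pos_iff.2 hv0
  let i0 : Fin N := ⟨0, hN⟩
  obtain ⟨W, hW, hWi⟩ := T5x.exists_unitary (𝕜 := 𝕜) i0 (((‖v‖⁻¹ : ℝ) : 𝕜) • v) (by
    rw [norm_smul, RCLike.norm_ofReal, abs_of_pos (inv_pos.2 hvn), inv_mul_cancel₀ hvn.ne'])
  have hWH : Wᴴ ∈ Matrix.unitaryGroup (Fin N) 𝕜 := by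
    rw [← Matrix.star_eq_conjTranspose]
    exact Unitary.star_mem hW
  have hentry : ∀ x, ‖star v.ofLp ⬝ᵥ (Φ x *ᵥ v.ofLp)‖ ≤ ‖Φ (cj Φ Wᴴ x) i0 i0‖ := by
    intro x
    rw [Phi_cj h, Matrix.conjTranspose_conjTranspose, T5x.conj_entry]
    have hv' : v.ofLp = ((‖v‖ : ℝ) : 𝕜) • (fun i => W i i0) := by
      funext i
      simp only [Pi.smul_apply, smul_eq_mul]
      rw [hWi i]
      simp only [PiLp.smul_apply, smul_eq_mul]
      rw [← mul_assoc, ← RCLike.ofReal_mul, mul_inv_cancel₀ hvn.ne']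
      simp
    generalize (fun i => W i i0) = w at hv'
    rw [hv']
    rw [star_smul, Matrix.mulVec_smul, smul_dotProduct, dotProduct_smul, smul_smul, norm_smul]
    have : ‖star (((‖v‖ : ℝ) : 𝕜)) * ((‖v‖ : ℝ) : 𝕜)‖ ≤ 1 := by
      rw [norm_mul, norm_star, RCLike.norm_ofReal, abs_of_pos hvn]
      nlinarith
    calc _ ≤ 1 * ‖star w ⬝ᵥ (Φ x *ᵥ w)‖ := mul_le_mul_of_nonneg_right this (norm_nonneg _)
      _ = _ := one_mul _
  have hinv := (Dn.basic h hρ).1 Wᴴ hWH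
  have hcont : Continuous (cj Φ Wᴴ) := LinearMap.continuous_of_finiteDimensional _
  calc mu ρ {x | 3 * u * Real.sqrt (N * s) ≤ ‖star v.ofLp ⬝ᵥ (Φ x *ᵥ v.ofLp)‖}
      ≤ mu ρ ((cj Φ Wᴴ) ⁻¹' {x | 3 * u * Real.sqrt (N * s) ≤ ‖Φ x i0 i0‖}) := by
        apply measure_mono
        intro x hx
        exact le_trans hx (hentry x)
    _ ≤ (mu ρ).map (cj Φ Wᴴ) {x | 3 * u * Real.sqrt (N * s) ≤ ‖Φ x i0 i0‖} :=
        Measure.le_map_apply hcont.measurable.aemeasurable _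
    _ = mu ρ {x | 3 * u * Real.sqrt (N * s) ≤ ‖Φ x i0 i0‖} := by rw [hinv]
    _ ≤ _ := hent i0 u

end Pool.Agent.H888R2.KC
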