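import Pool.Agent.H888R2.KC.Defs

/-!
# T6: tails of the operator norm from tails of the quadratic forms
-/

set_option autoImplicit false

namespace Pool.Agent.H888R2.KC

open MeasureTheory Set Matrix
open scoped ENNReal InnerProductSpace
open Pool.Agent.H212R2.KLS (mu Bdd ev gr)

variable {𝕜 : Type} [RCLike 𝕜] {N : ℕ} {ι : Type} [Fintype ι]
  {Φ : EuclideanSpace ℝ ι →ₗ[ℝ] Matrix (Fin N) (Fin N) 𝕜}

namespace T6x

/-- the action of a matrix on vectors -/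
noncomputable def av (A : Matrix (Fin N) (Fin N) 𝕜) (v : EuclideanSpace 𝕜 (Fin N)) :
    EuclideanSpace 𝕜 (Fin N) := WithLp.toLp 2 (A *ᵥ v.ofLp)

theorem av_add (A : Matrix (Fin N) (Fin N) 𝕜) (v w : EuclideanSpace 𝕜 (Fin N)) :
    av A (v + w) = av A v + av A w := by
  unfold av
  rw [WithLp.ofLp_add, Matrix.mulVec_add, WithLp.toLp_add]

theorem av_smul (A : Matrix (Fin N) (Fin N) 𝕜) (c : 𝕜) (v : EuclideanSpace 𝕜 (Fin N)) :
    av A (c • v) = c • av A v := by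
  unfold av
  rw [WithLp.ofLp_smul, Matrix.mulVec_smul, WithLp.toLp_smul]

theorem av_sub (A : Matrix (Fin N) (Fin N) 𝕜) (v w : EuclideanSpace 𝕜 (Fin N)) :
    av A (v - w) = av A v - av A w := by
  unfold av
  rw [WithLp.ofLp_sub, Matrix.mulVec_sub, WithLp.toLp_sub]

theorem av_zero (A : Matrix (Fin N) (Fin N) 𝕜) : av A 0 = 0 := by
  have := av_smul A 0 0
  rwa [zero_smul, zero_smul] at this

theorem qf (A : Matrix (Fin N) (Fin N) 𝕜) (v w : EuclideanSpace 𝕜 (Fin N)) :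
    star v.ofLp ⬝ᵥ (A *ᵥ w.ofLp) = ⟪v, av A w⟫_𝕜 := by
  rw [EuclideanSpace.inner_eq_star_dotProduct, dotProduct_comm]
  rfl

theorem av_symm (A : Matrix (Fin N) (Fin N) 𝕜) (hA : Aᴴ = A) (v w : EuclideanSpace 𝕜 (Fin N)) :
    ⟪av A v, w⟫_𝕜 = ⟪v, av A w⟫_𝕜 := by
  rw [← qf, EuclideanSpace.inner_eq_star_dotProduct]
  unfold av
  rw [dotProduct_comm, Matrix.star_mulVec, hA, ← Matrix.dotProduct_mulVec]

/-- a symmetric operator is bounded by the maximum of its quadratic form -/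
theorem opl_of_form (A : Matrix (Fin N) (Fin N) 𝕜) (hA : Aᴴ = A) (L : ℝ)
    (hL : ∀ v : EuclideanSpace 𝕜 (Fin N), ‖v‖ ≤ 1 → ‖⟪v, av A v⟫_𝕜‖ ≤ L) : OpL L A := by
  have hq : ∀ v : EuclideanSpace 𝕜 (Fin N), ‖⟪v, av A v⟫_𝕜‖ ≤ L * ‖v‖ ^ 2 := by
    intro v
    rcases eq_or_ne v 0 with rfl | hv
    · simp
    · have hn : 0 < ‖v‖ := norm_pos_iff.2 hv
      have h1 := hL (((‖v‖⁻¹ : ℝ) : 𝕜) • v) (by
        rw [norm_smul, RCLike.norm_ofReal, abs_inv, abs_norm, inv_mul_cancel₀ hn.ne'])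
      rw [av_smul, inner_smul_left, inner_smul_right, norm_mul, norm_mul, RCLike.norm_conj,
        RCLike.norm_ofReal, abs_inv, abs_norm] at h1
      rw [← mul_assoc] at h1
      have h2 : ‖v‖⁻¹ * ‖v‖⁻¹ * ‖v‖ ^ 2 = 1 := by field_simp
      have h3 : 0 ≤ ‖v‖ ^ 2 := by positivity
      calc ‖⟪v, av A v⟫_𝕜‖ = (‖v‖⁻¹ * ‖v‖⁻¹ * ‖⟪v, av A v⟫_𝕜‖) * ‖v‖ ^ 2 := by
            field_simp
        _ ≤ L * ‖v‖ ^ 2 := mul_le_mul_of_nonneg_right h1 h3
  intro v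
  change ‖av A v‖ ≤ L * ‖v‖
  rcases eq_or_ne (av A v) 0 with h0 | h0
  · rw [h0, norm_zero]
    have h1 := hL 0 (by simp)
    have h2 : 0 ≤ L := (norm_nonneg _).trans h1
    positivity
  · have hn : 0 < ‖av A v‖ := norm_pos_iff.2 h0
    have hv0 : v ≠ 0 := by
      rintro rfl
      exact h0 (av_zero A)
    have hnv : 0 < ‖v‖ := norm_pos_iff.2 hv0
    set c : ℝ := ‖v‖ / ‖av A v‖ with hc
    have hc0 : 0 < c := by positivity
    set w : EuclideanSpace 𝕜 (Fin N) := (c : 𝕜) • av A v with hw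
    have hnw : ‖w‖ = ‖v‖ := by
      rw [hw, norm_smul, RCLike.norm_ofReal, abs_of_pos hc0, hc, div_mul_cancel₀ _ hn.ne']
    have h1 := (RCLike.re_le_norm ⟪v + w, av A (v + w)⟫_𝕜).trans (hq (v + w))
    have h2 : RCLike.re (-⟪v - w, av A (v - w)⟫_𝕜) ≤ L * ‖v - w‖ ^ 2 :=
      (RCLike.re_le_norm _).trans (by
        rw [norm_neg]
        exact hq (v - w))
    have e1 : ⟪v + w, av A (v + w)⟫_𝕜 = ⟪v, av A v⟫_𝕜 + ⟪v, av A w⟫_𝕜 + ⟪w, av A v⟫_𝕜 +
        ⟪w, av A w⟫_𝕜 := by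
      rw [av_add, inner_add_left, inner_add_right, inner_add_right]
      ring
    have e2 : ⟪v - w, av A (v - w)⟫_𝕜 = ⟪v, av A v⟫_𝕜 - ⟪v, av A w⟫_𝕜 - ⟪w, av A v⟫_𝕜 +
        ⟪w, av A w⟫_𝕜 := by
      rw [av_sub, inner_sub_left, inner_sub_right, inner_sub_right]
      ring
    have e3 : RCLike.re ⟪v, av A w⟫_𝕜 = ‖v‖ * ‖av A v‖ := by
      rw [← av_symm A hA, hw, inner_smul_right, RCLike.re_ofReal_mul, inner_self_eq_norm_sq, hc]
      field_simp
    have e4 : RCLike.re ⟪w, av A v⟫_𝕜 = ‖v‖ * ‖av A v‖ := by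
      rw [hw, inner_smul_left, RCLike.conj_ofReal, RCLike.re_ofReal_mul, inner_self_eq_norm_sq, hc]
      field_simp
    have e5 : ‖v + w‖ ^ 2 + ‖v - w‖ ^ 2 = 4 * ‖v‖ ^ 2 := by
      have := parallelogram_law_with_norm 𝕜 v w
      rw [hnw] at this
      nlinarith
    rw [e1] at h1
    rw [e2] at h2
    simp only [map_add, map_neg, map_sub, e3, e4] at h1 h2
    have h3 : 4 * (‖v‖ * ‖av A v‖) ≤ L * (‖v + w‖ ^ 2 + ‖v - w‖ ^ 2) := by
      nlinarith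
    rw [e5] at h3
    have h4 : ‖v‖ * ‖av A v‖ ≤ ‖v‖ * (L * ‖v‖) := by nlinarith
    exact le_of_mul_le_mul_left h4 hnv

theorem continuous_form (Φ : EuclideanSpace ℝ ι →ₗ[ℝ] Matrix (Fin N) (Fin N) 𝕜) :
    Continuous fun p : EuclideanSpace ℝ ι × EuclideanSpace 𝕜 (Fin N) =>
      ‖star p.2.ofLp ⬝ᵥ (Φ p.1 *ᵥ p.2.ofLp)‖ := by
  have h1 : Continuous fun x : EuclideanSpace ℝ ι => Φ x := Φ.continuous_of_finiteDimensional
  have h2 : ∀ i j, Continuous fun x : EuclideanSpace ℝ ι => Φ x i j := fun i j =>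
    (continuous_apply j).comp ((continuous_apply i).comp h1)
  have h3 : Continuous fun p : EuclideanSpace ℝ ι × EuclideanSpace 𝕜 (Fin N) =>
      ∑ i, star (p.2 i) * ∑ j, Φ p.1 i j * p.2 j := by
    refine continuous_finsetSum _ fun i _ => ?_
    refine Continuous.mul ?_ ?_
    · fun_prop
    · refine continuous_finsetSum _ fun j _ => ?_
      refine Continuous.mul ((h2 i j).comp continuous_fst) ?_
      fun_prop
  exact continuous_norm.comp h3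

theorem finrank_le (𝕜 : Type) [RCLike 𝕜] (N : ℕ) :
    Module.finrank ℝ (EuclideanSpace 𝕜 (Fin N)) ≤ 2 * N := by
  have h1 : Module.finrank ℝ (EuclideanSpace 𝕜 (Fin N)) = Module.finrank ℝ (Fin N → 𝕜) :=
    LinearEquiv.finrank_eq (WithLp.linearEquiv 2 ℝ (Fin N → 𝕜))
  rw [h1, Module.finrank_pi_fintype]
  simp only [Finset.sum_const, Finset.card_univ, Fintype.card_fin, smul_eq_mul]
  have := RCLike.finrank_le_two (K := 𝕜)
  nlinarith

end T6x

open T6x in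
theorem op_tail (h : Fr Φ) (hN : 1 ≤ N) (ρ : EuclideanSpace ℝ ι → ℝ) (hρ : Dn Φ ρ)
    (h1 : mu ρ univ = 1) (s : ℝ) (hs : 0 < s)
    (hform : ∀ v : EuclideanSpace 𝕜 (Fin N), ‖v‖ ≤ 1 → ∀ u : ℝ,
      mu ρ {x | 3 * u * Real.sqrt (N * s) ≤ ‖star v.ofLp ⬝ᵥ (Φ x *ᵥ v.ofLp)‖} ≤
      ENNReal.ofReal (Real.exp (N * (6 - u / 30)))) (u : ℝ) :
    mu ρ {x | ¬ OpL (8 * u * Real.sqrt (N * s)) (Φ x)} ≤
      ENNReal.ofReal (Real.exp (N * (12 - u / 30))) := by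
  have hN0 : (0 : ℝ) < N := by exact_mod_cast hN
  have hq : 0 < Real.sqrt (N * s) := Real.sqrt_pos.2 (mul_pos hN0 hs)
  rcases le_or_gt u 0 with hu | hu
  · calc mu ρ {x | ¬ OpL (8 * u * Real.sqrt (N * s)) (Φ x)} ≤ mu ρ univ := measure_mono (subset_univ _)
      _ = 1 := h1
      _ = ENNReal.ofReal 1 := by simp
      _ ≤ _ := by
        apply ENNReal.ofReal_le_ofReal
        apply Real.one_le_exp
        apply mul_nonneg hN0.le
        linarith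
  have : IsProbabilityMeasure (mu ρ) := ⟨h1⟩
  set rr := 8 * u * Real.sqrt (N * s) with hrr
  have hrr0 : 0 < rr := by positivity
  have hthr : 3 * u * Real.sqrt (N * s) = 3 / 8 * rr := by rw [hrr]; ring
  have : ProperSpace (EuclideanSpace 𝕜 (Fin N)) := FiniteDimensional.proper_rclike 𝕜 _
  set ν : Measure (EuclideanSpace 𝕜 (Fin N)) := Measure.addHaar with hν
  set S : Set (EuclideanSpace ℝ ι × EuclideanSpace 𝕜 (Fin N)) :=
    {p | ‖p.2‖ ≤ 1 ∧ 3 / 8 * rr ≤ ‖star p.2.ofLp ⬝ᵥ (Φ p.1 *ᵥ p.2.ofLp)‖} with hS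
  have hSc : IsClosed S := by
    apply IsClosed.inter
    · exact isClosed_le (continuous_norm.comp continuous_snd) continuous_const
    · exact isClosed_le continuous_const (continuous_form Φ)
  have hSm : MeasurableSet S := hSc.measurableSet
  set B : Set (EuclideanSpace 𝕜 (Fin N)) := Metric.closedBall 0 1 with hB
  have hBm : MeasurableSet B := Metric.isClosed_closedBall.measurableSet
  have hB0 : ν B ≠ 0 := (Metric.measure_closedBall_pos ν _ one_pos).ne'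
  have hBt : ν B ≠ ⊤ := measure_closedBall_lt_top.ne
  set dd := Module.finrank ℝ (EuclideanSpace 𝕜 (Fin N)) with hdd
  set c : ℝ≥0∞ := ENNReal.ofReal ((1 / 8 : ℝ) ^ dd) * ν B with hc
  -- every bad matrix has a large slice
  have hslice : ∀ x : EuclideanSpace ℝ ι, ¬ OpL rr (Φ x) → c ≤ ν (Prod.mk x ⁻¹' S) := by
    intro x hx
    have hcx : Continuous fun v : EuclideanSpace 𝕜 (Fin N) => ‖star v.ofLp ⬝ᵥ (Φ x *ᵥ v.ofLp)‖ :=
      (continuous_form Φ).comp (Continuous.prodMk_right x)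
    obtain ⟨vs, hvsB, hmax⟩ := (isCompact_closedBall (0 : EuclideanSpace 𝕜 (Fin N)) 1).exists_isMaxOn
      ⟨0, by simp⟩ hcx.continuousOn
    have hvs1 : ‖vs‖ ≤ 1 := by simpa using hvsB
    set L := ‖star vs.ofLp ⬝ᵥ (Φ x *ᵥ vs.ofLp)‖ with hL
    have hmax' : ∀ v : EuclideanSpace 𝕜 (Fin N), ‖v‖ ≤ 1 → ‖⟪v, av (Φ x) v⟫_𝕜‖ ≤ L := fun v hv' => by
      rw [← qf]
      exact hmax (by simpa using hv')
    have hOp : OpL L (Φ x) := opl_of_form (Φ x) (h.herm x) L hmax'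
    have hall : ∀ v : EuclideanSpace 𝕜 (Fin N), ‖av (Φ x) v‖ ≤ L * ‖v‖ := hOp
    have hL0 : 0 ≤ L := norm_nonneg _
    have hbig : rr ≤ L := by
      by_contra hcon
      push Not at hcon
      exact hx fun v => (hOp v).trans (mul_le_mul_of_nonneg_right hcon.le (norm_nonneg v))
    have hsub : Metric.closedBall (((7 / 8 : ℝ) : 𝕜) • vs) (1 / 8) ⊆ Prod.mk x ⁻¹' S := by
      intro v hv'
      rw [Metric.mem_closedBall, dist_eq_norm] at hv'
      set w := v - ((7 / 8 : ℝ) : 𝕜) • vs with hw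
      have hvw : v = ((7 / 8 : ℝ) : 𝕜) • vs + w := by rw [hw]; abel
      have hn78 : ‖((7 / 8 : ℝ) : 𝕜)‖ = 7 / 8 := by
        rw [RCLike.norm_ofReal, abs_of_pos (by norm_num)]
      constructor
      · change ‖v‖ ≤ 1
        calc ‖v‖ = ‖((7 / 8 : ℝ) : 𝕜) • vs + w‖ := by rw [← hvw]
          _ ≤ ‖((7 / 8 : ℝ) : 𝕜) • vs‖ + ‖w‖ := norm_add_le _ _
          _ ≤ 7 / 8 * 1 + 1 / 8 := by
            rw [norm_smul, hn78]
            gcongr
          _ = 1 := by norm_num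
      · change 3 / 8 * rr ≤ ‖star v.ofLp ⬝ᵥ (Φ x *ᵥ v.ofLp)‖
        rw [qf]
        have e1 : ⟪v, av (Φ x) v⟫_𝕜 = ((49 / 64 : ℝ) : 𝕜) * ⟪vs, av (Φ x) vs⟫_𝕜 +
            (((7 / 8 : ℝ) : 𝕜) * ⟪vs, av (Φ x) w⟫_𝕜 + ((7 / 8 : ℝ) : 𝕜) * ⟪w, av (Φ x) vs⟫_𝕜 +
              ⟪w, av (Φ x) w⟫_𝕜) := by
          rw [hvw, av_add, av_smul, inner_add_left, inner_add_right, inner_add_right,
            inner_smul_left, inner_smul_right, inner_smul_left, inner_smul_right,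
            RCLike.conj_ofReal]
          have e2 : ((49 / 64 : ℝ) : 𝕜) = ((7 / 8 : ℝ) : 𝕜) * ((7 / 8 : ℝ) : 𝕜) := by
            rw [← RCLike.ofReal_mul]
            norm_num
          rw [e2]
          ring
        have hw8 : ‖w‖ ≤ 1 / 8 := hv'
        have b1 : ‖⟪vs, av (Φ x) w⟫_𝕜‖ ≤ L * (1 / 8) := by
          calc ‖⟪vs, av (Φ x) w⟫_𝕜‖ ≤ ‖vs‖ * ‖av (Φ x) w‖ := norm_inner_le_norm _ _
            _ ≤ 1 * (L * ‖w‖) := mul_le_mul hvs1 (hall w) (norm_nonneg _) zero_le_one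
            _ ≤ _ := by nlinarith
        have b2 : ‖⟪w, av (Φ x) vs⟫_𝕜‖ ≤ L * (1 / 8) := by
          calc ‖⟪w, av (Φ x) vs⟫_𝕜‖ ≤ ‖w‖ * ‖av (Φ x) vs‖ := norm_inner_le_norm _ _
            _ ≤ (1 / 8) * (L * ‖vs‖) := mul_le_mul hw8 (hall vs) (norm_nonneg _) (by norm_num)
            _ ≤ _ := by nlinarith
        have b3 : ‖⟪w, av (Φ x) w⟫_𝕜‖ ≤ L * (1 / 64) := by
          calc ‖⟪w, av (Φ x) w⟫_𝕜‖ ≤ ‖w‖ * ‖av (Φ x) w‖ := norm_inner_le_norm _ _
            _ ≤ (1 / 8) * (L * ‖w‖) := mul_le_mul hw8 (hall w) (norm_nonneg _) (by norm_num)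
            _ ≤ _ := by nlinarith
        have b0 : ‖((49 / 64 : ℝ) : 𝕜) * ⟪vs, av (Φ x) vs⟫_𝕜‖ = 49 / 64 * L := by
          rw [norm_mul, RCLike.norm_ofReal, abs_of_pos (by norm_num), ← qf]
        have b4 : ‖((7 / 8 : ℝ) : 𝕜) * ⟪vs, av (Φ x) w⟫_𝕜 + ((7 / 8 : ℝ) : 𝕜) * ⟪w, av (Φ x) vs⟫_𝕜 +
              ⟪w, av (Φ x) w⟫_𝕜‖ ≤ 7 / 8 * (L * (1 / 8)) + 7 / 8 * (L * (1 / 8)) + L * (1 / 64) := by
          refine (norm_add₃_le).trans ?_
          rw [norm_mul, norm_mul, hn78]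
          gcongr
        rw [e1]
        have b5 := norm_sub_norm_le (((49 / 64 : ℝ) : 𝕜) * ⟪vs, av (Φ x) vs⟫_𝕜)
          (-(((7 / 8 : ℝ) : 𝕜) * ⟪vs, av (Φ x) w⟫_𝕜 + ((7 / 8 : ℝ) : 𝕜) * ⟪w, av (Φ x) vs⟫_𝕜 +
              ⟪w, av (Φ x) w⟫_𝕜))
        rw [norm_neg, sub_neg_eq_add, b0] at b5
        linarith
    calc c = ν (Metric.closedBall (((7 / 8 : ℝ) : 𝕜) • vs) (1 / 8)) := by
          rw [hc, hB, Measure.addHaar_closedBall' _ _ (by norm_num : (0 : ℝ) ≤ 1 / 8)]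
      _ ≤ _ := measure_mono hsub
  -- Markov
  have hmk : c * mu ρ {x | ¬ OpL rr (Φ x)} ≤ ∫⁻ x, ν (Prod.mk x ⁻¹' S) ∂(mu ρ) := by
    calc c * mu ρ {x | ¬ OpL rr (Φ x)} ≤ c * mu ρ {x | c ≤ ν (Prod.mk x ⁻¹' S)} := by
          exact mul_le_mul_right (measure_mono fun X hX => hslice X hX) c
      _ ≤ _ := mul_meas_ge_le_lintegral (measurable_measure_prodMk_left hSm) c
  -- Tonelli
  set K : ℝ≥0∞ := ENNReal.ofReal (Real.exp (N * (6 - u / 30))) with hK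
  have hton : ∫⁻ x, ν (Prod.mk x ⁻¹' S) ∂(mu ρ) ≤ K * ν B := by
    rw [← Measure.prod_apply hSm, Measure.prod_apply_symm hSm]
    calc ∫⁻ v, mu ρ ((fun x => (x, v)) ⁻¹' S) ∂ν ≤ ∫⁻ v, B.indicator (fun _ => K) v ∂ν := by
          apply lintegral_mono
          intro v
          by_cases hvB : v ∈ B
          · rw [indicator_of_mem hvB]
            have hv1 : ‖v‖ ≤ 1 := by simpa [hB] using hvB
            calc mu ρ ((fun x => (x, v)) ⁻¹' S) ≤
                mu ρ {x | 3 * u * Real.sqrt (N * s) ≤ ‖star v.ofLp ⬝ᵥ (Φ x *ᵥ v.ofLp)‖} := by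
                  apply measure_mono
                  intro x hx
                  change 3 * u * Real.sqrt (N * s) ≤ _
                  rw [hthr]
                  exact hx.2
              _ ≤ _ := hform v hv1 u
          · rw [indicator_of_notMem hvB]
            have : (fun x : EuclideanSpace ℝ ι => (x, v)) ⁻¹' S = ∅ := by
              ext x
              simp only [mem_preimage, mem_empty_iff_false, iff_false]
              intro hx
              apply hvB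
              simpa [hB] using hx.1
            change mu ρ ((fun x : EuclideanSpace ℝ ι => (x, v)) ⁻¹' S) ≤ 0
            rw [this]; simp
      _ = K * ν B := by
        rw [lintegral_indicator hBm, lintegral_const, Measure.restrict_apply MeasurableSet.univ,
          univ_inter]
  -- divide
  have hfin : ENNReal.ofReal ((1 / 8 : ℝ) ^ dd) * mu ρ {x | ¬ OpL rr (Φ x)} ≤ K := by
    have h9 : (ENNReal.ofReal ((1 / 8 : ℝ) ^ dd) * mu ρ {x | ¬ OpL rr (Φ x)}) * ν B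
        ≤ K * ν B := by
      calc (ENNReal.ofReal ((1 / 8 : ℝ) ^ dd) * mu ρ {x | ¬ OpL rr (Φ x)}) * ν B
          = c * mu ρ {x | ¬ OpL rr (Φ x)} := by rw [hc]; ring
        _ ≤ _ := hmk.trans hton
    exact (ENNReal.mul_le_mul_iff_left hB0 hBt).1 h9
  have h10 : mu ρ {x | ¬ OpL rr (Φ x)} ≤ ENNReal.ofReal ((8 : ℝ) ^ dd) * K := by
    calc mu ρ {x | ¬ OpL rr (Φ x)}
        = ENNReal.ofReal ((8 : ℝ) ^ dd) *
          (ENNReal.ofReal ((1 / 8 : ℝ) ^ dd) * mu ρ {x | ¬ OpL rr (Φ x)}) := by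
          rw [← mul_assoc, ← ENNReal.ofReal_mul (by positivity), ← mul_pow]
          norm_num
      _ ≤ _ := by gcongr
  refine h10.trans ?_
  rw [hK, ← ENNReal.ofReal_mul (by positivity)]
  apply ENNReal.ofReal_le_ofReal
  have h11 : (8 : ℝ) ^ dd ≤ Real.exp (N * 6) := by
    calc (8 : ℝ) ^ dd ≤ 8 ^ (2 * N) := pow_le_pow_right₀ (by norm_num) (finrank_le 𝕜 N)
      _ = (64 : ℝ) ^ N := by rw [pow_mul]; norm_num
      _ ≤ (Real.exp 6) ^ N := by
        gcongr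
        have hl : Real.log 64 ≤ 6 := by
          have : (64 : ℝ) = 2 ^ 6 := by norm_num
          rw [this, Real.log_pow]
          have := Real.log_two_lt_d9
          push_cast
          linarith
        calc (64 : ℝ) = Real.exp (Real.log 64) := (Real.exp_log (by norm_num)).symm
          _ ≤ _ := Real.exp_le_exp.2 hl
      _ = Real.exp (N * 6) := by rw [← Real.exp_nat_mul]
  calc (8 : ℝ) ^ dd * Real.exp (N * (6 - u / 30))
      ≤ Real.exp (N * 6) * Real.exp (N * (6 - u / 30)) := by gcongr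
    _ = Real.exp (N * (12 - u / 30)) := by
      rw [← Real.exp_add]
      congr 1
      ring

end Pool.Agent.H888R2.KC
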