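import Pool.Agent.H888R2.KC.Defs

/-!
# Task U2: the tilted integrals
-/

set_option autoImplicit false

namespace Pool.Agent.H888R2.KC

open MeasureTheory Set Matrix
open scoped ENNReal InnerProductSpace
open Pool.Agent.H212R2.KLS (mu Bdd ev gr)

variable {ι : Type} [Fintype ι]

namespace U2x

theorem ae_norm (μ : Measure (EuclideanSpace ℝ ι)) (hb : ∃ R, μ (Metric.closedBall 0 R)ᶜ = 0) :
    ∃ R : ℝ, ∀ᵐ x ∂μ, ‖x‖ ≤ R := by
  obtain ⟨R, hR⟩ := hb
  refine ⟨R, ?_⟩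
  rw [ae_iff]
  refine measure_mono_null ?_ hR
  intro x hx
  simpa using hx

theorem ae_bdd (μ : Measure (EuclideanSpace ℝ ι)) (hb : ∃ R, μ (Metric.closedBall 0 R)ᶜ = 0)
    (g : EuclideanSpace ℝ ι → ℝ) (hg : Continuous g) :
    ∃ B : ℝ, 0 ≤ B ∧ ∀ᵐ x ∂μ, |g x| ≤ B := by
  obtain ⟨R, hR⟩ := ae_norm μ hb
  obtain ⟨C, hC⟩ := (isCompact_closedBall (0 : EuclideanSpace ℝ ι) R).exists_bound_of_continuousOn
    hg.continuousOn
  refine ⟨max C 0, le_max_right _ _, ?_⟩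
  filter_upwards [hR] with x hx
  have := hC x (by simpa using hx)
  exact this.trans (le_max_left _ _)

theorem int_bdd (μ : Measure (EuclideanSpace ℝ ι)) [IsFiniteMeasure μ]
    (hb : ∃ R, μ (Metric.closedBall 0 R)ᶜ = 0)
    (g : EuclideanSpace ℝ ι → ℝ) (hg : Continuous g) : Integrable g μ := by
  obtain ⟨B, -, hB⟩ := ae_bdd μ hb g hg
  exact Integrable.of_bound hg.aestronglyMeasurable B hB

theorem fub (μ : Measure (EuclideanSpace ℝ ι)) [IsFiniteMeasure μ]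
    (hb : ∃ R, μ (Metric.closedBall 0 R)ᶜ = 0) (e : EuclideanSpace ℝ ι) (K : ℝ)
    (g : EuclideanSpace ℝ ι → ℝ) (hg : Continuous g) (k : ℝ → ℝ) (hk : Continuous k)
    (hk0 : ∀ τ, 0 ≤ k τ) (c : ℝ → ℝ) (hc : Continuous c)
    (hi : ∀ t, Integrable (fun τ : ℝ => k τ * Real.exp (-((t - τ) ^ 2 / (2 * K)))))
    (hI : ∀ t, ∫ τ : ℝ, k τ * Real.exp (-((t - τ) ^ 2 / (2 * K))) = c t) :
    (Integrable fun τ : ℝ => ∫ x, g x * (k τ * Real.exp (-((⟪e, x⟫_ℝ - τ) ^ 2 / (2 * K)))) ∂μ) ∧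
    (∫ τ : ℝ, ∫ x, g x * (k τ * Real.exp (-((⟪e, x⟫_ℝ - τ) ^ 2 / (2 * K)))) ∂μ) =
      ∫ x, g x * c ⟪e, x⟫_ℝ ∂μ := by
  have hcont : Continuous (fun p : ℝ × EuclideanSpace ℝ ι =>
      g p.2 * (k p.1 * Real.exp (-((⟪e, p.2⟫_ℝ - p.1) ^ 2 / (2 * K))))) := by
    have h1 : Continuous fun p : ℝ × EuclideanSpace ℝ ι => ⟪e, p.2⟫_ℝ :=
      continuous_const.inner continuous_snd
    have h2 : Continuous fun p : ℝ × EuclideanSpace ℝ ι => g p.2 := hg.comp continuous_snd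
    have h3 : Continuous fun p : ℝ × EuclideanSpace ℝ ι => k p.1 := hk.comp continuous_fst
    fun_prop
  have hint : Integrable (fun p : ℝ × EuclideanSpace ℝ ι =>
      g p.2 * (k p.1 * Real.exp (-((⟪e, p.2⟫_ℝ - p.1) ^ 2 / (2 * K)))))
      ((volume : Measure ℝ).prod μ) := by
    rw [integrable_prod_iff' hcont.aestronglyMeasurable]
    constructor
    · exact ae_of_all _ fun x => (hi ⟪e, x⟫_ℝ).const_mul (g x)
    · have h1 : ∀ x : EuclideanSpace ℝ ι, ∫ τ : ℝ,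
          ‖g x * (k τ * Real.exp (-((⟪e, x⟫_ℝ - τ) ^ 2 / (2 * K))))‖ = |g x| * c ⟪e, x⟫_ℝ := by
        intro x
        rw [← hI, ← integral_const_mul]
        congr 1
        ext τ
        rw [norm_mul, Real.norm_eq_abs, Real.norm_eq_abs,
          abs_of_nonneg (mul_nonneg (hk0 τ) (Real.exp_pos _).le)]
      simp only [h1]
      apply int_bdd μ hb
      have h2 : Continuous fun x : EuclideanSpace ℝ ι => ⟪e, x⟫_ℝ :=
        continuous_const.inner continuous_id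
      exact hg.abs.mul (hc.comp h2)
  refine ⟨hint.integral_prod_left, ?_⟩
  rw [integral_integral_swap hint]
  congr 1
  ext x
  rw [integral_const_mul, hI]

theorem gau (K : ℝ) (hK : 0 < K) (t τ : ℝ) : Real.exp (-((t - τ) ^ 2 / (2 * K))) =
    Real.sqrt (2 * Real.pi * K) * ProbabilityTheory.gaussianPDFReal t (Real.toNNReal K) τ := by
  unfold ProbabilityTheory.gaussianPDFReal
  have h : Real.sqrt (2 * Real.pi * K) ≠ 0 := by positivity
  rw [Real.coe_toNNReal K hK.le]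
  rw [← mul_assoc, mul_inv_cancel₀ h, one_mul]
  congr 1
  ring

theorem gau1 (K : ℝ) (hK : 0 < K) (t : ℝ) :
    Integrable (fun τ : ℝ => (1 : ℝ) * Real.exp (-((t - τ) ^ 2 / (2 * K)))) ∧
    ∫ τ : ℝ, (1 : ℝ) * Real.exp (-((t - τ) ^ 2 / (2 * K))) = Real.sqrt (2 * Real.pi * K) := by
  have hv : Real.toNNReal K ≠ 0 := (Real.toNNReal_pos.mpr hK).ne'
  simp only [one_mul, gau K hK]
  constructor
  · exact (ProbabilityTheory.integrable_gaussianPDFReal t _).const_mul _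
  · rw [integral_const_mul, ProbabilityTheory.integral_gaussianPDFReal_eq_one t hv, mul_one]

theorem gau2 (K : ℝ) (hK : 0 < K) (t : ℝ) :
    Integrable (fun τ : ℝ => τ ^ 2 * Real.exp (-((t - τ) ^ 2 / (2 * K)))) ∧
    ∫ τ : ℝ, τ ^ 2 * Real.exp (-((t - τ) ^ 2 / (2 * K))) =
      Real.sqrt (2 * Real.pi * K) * (t ^ 2 + K) := by
  have hv : Real.toNNReal K ≠ 0 := (Real.toNNReal_pos.mpr hK).ne'
  have hvK : ((Real.toNNReal K : NNReal) : ℝ) = K := Real.coe_toNNReal K hK.le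
  set v : NNReal := Real.toNNReal K with hvd
  have hL : MemLp id 2 (ProbabilityTheory.gaussianReal t v) :=
    ProbabilityTheory.memLp_id_gaussianReal 2
  have hsq : Integrable (fun τ : ℝ => τ ^ 2) (ProbabilityTheory.gaussianReal t v) :=
    hL.integrable_sq
  have hvar := ProbabilityTheory.variance_eq_sub hL
  rw [ProbabilityTheory.variance_id_gaussianReal] at hvar
  have hmean : ∫ x, x ∂ProbabilityTheory.gaussianReal t v = t :=
    ProbabilityTheory.integral_id_gaussianReal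
  have hm2 : ∫ x, x ^ 2 ∂ProbabilityTheory.gaussianReal t v = t ^ 2 + K := by
    have h1 : (∫ x, (id ^ 2 : ℝ → ℝ) x ∂ProbabilityTheory.gaussianReal t v) =
      ∫ x, x ^ 2 ∂ProbabilityTheory.gaussianReal t v := rfl
    have h2 : (∫ x, (id : ℝ → ℝ) x ∂ProbabilityTheory.gaussianReal t v) = t := hmean
    rw [h1, h2] at hvar
    rw [hvK] at hvar
    linarith
  rw [ProbabilityTheory.integral_gaussianReal_eq_integral_smul hv] at hm2
  have hsq' : Integrable (fun τ : ℝ => ProbabilityTheory.gaussianPDFReal t v τ * τ ^ 2) := by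
    rw [ProbabilityTheory.gaussianReal_of_var_ne_zero t hv] at hsq
    rw [integrable_withDensity_iff_integrable_smul'
      (ProbabilityTheory.measurable_gaussianPDF t v)
      (ae_of_all _ fun x => ProbabilityTheory.gaussianPDF_lt_top)] at hsq
    refine hsq.congr (ae_of_all _ fun x => ?_)
    simp only [ProbabilityTheory.toReal_gaussianPDF, smul_eq_mul]
  have h4 : ∀ τ : ℝ, τ ^ 2 * Real.exp (-((t - τ) ^ 2 / (2 * K))) =
      Real.sqrt (2 * Real.pi * K) * (ProbabilityTheory.gaussianPDFReal t v τ * τ ^ 2) := by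
    intro τ
    rw [gau K hK]
    ring
  simp only [h4]
  constructor
  · exact hsq'.const_mul _
  · rw [integral_const_mul]
    simp only [smul_eq_mul] at hm2
    rw [hm2]

end U2x

open U2x

theorem tilt_deriv (μ : Measure (EuclideanSpace ℝ ι)) [IsFiniteMeasure μ]
    (hb : ∃ R, μ (Metric.closedBall 0 R)ᶜ = 0) (e : EuclideanSpace ℝ ι) (K : ℝ) (hK : 0 < K)
    (g : EuclideanSpace ℝ ι → ℝ) (hg : Continuous g) :
    (∀ τ : ℝ, HasDerivAt (fun τ : ℝ => ∫ x, g x * Real.exp (-((⟪e, x⟫_ℝ - τ) ^ 2 / (2 * K))) ∂μ)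
      (∫ x, g x * ((⟪e, x⟫_ℝ - τ) / K) * Real.exp (-((⟪e, x⟫_ℝ - τ) ^ 2 / (2 * K))) ∂μ) τ) ∧
    (Continuous fun τ : ℝ => ∫ x, g x * ((⟪e, x⟫_ℝ - τ) / K) *
      Real.exp (-((⟪e, x⟫_ℝ - τ) ^ 2 / (2 * K))) ∂μ) := by
  have hin : Continuous fun x : EuclideanSpace ℝ ι => ⟪e, x⟫_ℝ :=
    continuous_const.inner continuous_id
  obtain ⟨B, hB0, hB⟩ := ae_bdd μ hb g hg
  obtain ⟨S, hS0, hS⟩ := ae_bdd μ hb _ hin
  have hexp : ∀ u : ℝ, Real.exp (-(u ^ 2 / (2 * K))) ≤ 1 := by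
    intro u
    apply Real.exp_le_one_iff.2
    have : 0 ≤ u ^ 2 / (2 * K) := by positivity
    linarith
  have hF : ∀ τ : ℝ, Continuous fun x : EuclideanSpace ℝ ι =>
      g x * Real.exp (-((⟪e, x⟫_ℝ - τ) ^ 2 / (2 * K))) := by
    intro τ
    fun_prop
  have hF' : ∀ τ : ℝ, Continuous fun x : EuclideanSpace ℝ ι =>
      g x * ((⟪e, x⟫_ℝ - τ) / K) * Real.exp (-((⟪e, x⟫_ℝ - τ) ^ 2 / (2 * K))) := by
    intro τ
    fun_prop
  have hbound : ∀ τ₀ : ℝ, ∀ᵐ x ∂μ, ∀ τ ∈ Metric.ball τ₀ 1,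
      ‖g x * ((⟪e, x⟫_ℝ - τ) / K) * Real.exp (-((⟪e, x⟫_ℝ - τ) ^ 2 / (2 * K)))‖ ≤
        B * ((S + |τ₀| + 1) / K) := by
    intro τ₀
    filter_upwards [hB, hS] with x h1 h2 τ hτ
    rw [Metric.mem_ball, Real.dist_eq] at hτ
    rw [norm_mul, norm_mul, norm_div, Real.norm_eq_abs, Real.norm_eq_abs, Real.norm_eq_abs,
      Real.norm_eq_abs, abs_of_pos hK, abs_of_pos (Real.exp_pos _)]
    have h3 : |⟪e, x⟫_ℝ - τ| ≤ S + |τ₀| + 1 := by
      have a1 := abs_sub ⟪e, x⟫_ℝ τ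
      have a2 : |τ| ≤ |τ₀| + 1 := by
        have := abs_sub_abs_le_abs_sub τ τ₀
        linarith
      linarith
    calc |g x| * (|⟪e, x⟫_ℝ - τ| / K) * Real.exp (-((⟪e, x⟫_ℝ - τ) ^ 2 / (2 * K)))
        ≤ (B * ((S + |τ₀| + 1) / K)) * 1 := by
          refine mul_le_mul ?_ (hexp _) (Real.exp_pos _).le (by positivity)
          exact mul_le_mul h1 (div_le_div_of_nonneg_right h3 hK.le) (by positivity) hB0
      _ = _ := mul_one _
  constructor
  · intro τ₀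
    refine (hasDerivAt_integral_of_dominated_loc_of_deriv_le
      (s := Metric.ball τ₀ 1) (Metric.ball_mem_nhds τ₀ one_pos)
      (F := fun τ x => g x * Real.exp (-((⟪e, x⟫_ℝ - τ) ^ 2 / (2 * K))))
      (F' := fun τ x => g x * ((⟪e, x⟫_ℝ - τ) / K) *
        Real.exp (-((⟪e, x⟫_ℝ - τ) ^ 2 / (2 * K))))
      (bound := fun _ => B * ((S + |τ₀| + 1) / K)) ?_ ?_ ?_ (hbound τ₀)
      (integrable_const _) ?_).2
    · exact Filter.Eventually.of_forall fun τ => (hF τ).aestronglyMeasurable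
    · exact int_bdd μ hb _ (hF τ₀)
    · exact (hF' τ₀).aestronglyMeasurable
    · refine ae_of_all _ fun x τ _ => ?_
      have h1 : HasDerivAt (fun τ : ℝ => -((⟪e, x⟫_ℝ - τ) ^ 2 / (2 * K)))
          ((⟪e, x⟫_ℝ - τ) / K) τ := by
        have h2 : HasDerivAt (fun τ : ℝ => ⟪e, x⟫_ℝ - τ) (-1) τ := by
          simpa using (hasDerivAt_id τ).const_sub ⟪e, x⟫_ℝ
        have h3 := ((h2.pow 2).div_const (2 * K)).neg
        refine h3.congr_deriv ?_
        field_simp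
        ring
      have h4 := (h1.exp).const_mul (g x)
      refine h4.congr_deriv ?_
      ring
  · rw [continuous_iff_continuousAt]
    intro τ₀
    refine continuousAt_of_dominated (bound := fun _ => B * ((S + |τ₀| + 1) / K)) ?_ ?_
      (integrable_const _) ?_
    · exact Filter.Eventually.of_forall fun τ => (hF' τ).aestronglyMeasurable
    · filter_upwards [Metric.ball_mem_nhds τ₀ one_pos] with τ hτ
      filter_upwards [hbound τ₀] with x hx
      exact hx τ hτ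
    · refine ae_of_all _ fun x => Continuous.continuousAt ?_
      fun_prop

theorem tilt_fub (μ : Measure (EuclideanSpace ℝ ι)) [IsFiniteMeasure μ]
    (hb : ∃ R, μ (Metric.closedBall 0 R)ᶜ = 0) (e : EuclideanSpace ℝ ι) (K : ℝ) (hK : 0 < K)
    (g : EuclideanSpace ℝ ι → ℝ) (hg : Continuous g) :
    (Integrable fun τ : ℝ => ∫ x, g x * Real.exp (-((⟪e, x⟫_ℝ - τ) ^ 2 / (2 * K))) ∂μ) ∧
    (∫ τ : ℝ, ∫ x, g x * Real.exp (-((⟪e, x⟫_ℝ - τ) ^ 2 / (2 * K))) ∂μ) =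
      Real.sqrt (2 * Real.pi * K) * ∫ x, g x ∂μ ∧
    (Integrable fun τ : ℝ => τ ^ 2 * ∫ x, Real.exp (-((⟪e, x⟫_ℝ - τ) ^ 2 / (2 * K))) ∂μ) ∧
    (∫ τ : ℝ, τ ^ 2 * ∫ x, Real.exp (-((⟪e, x⟫_ℝ - τ) ^ 2 / (2 * K))) ∂μ) =
      Real.sqrt (2 * Real.pi * K) * ∫ x, (⟪e, x⟫_ℝ ^ 2 + K) ∂μ := by
  obtain ⟨h1, h2⟩ := fub μ hb e K g hg (fun _ => 1) continuous_const (fun _ => zero_le_one)
    (fun _ => Real.sqrt (2 * Real.pi * K)) continuous_const (fun t => (gau1 K hK t).1)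
    (fun t => (gau1 K hK t).2)
  obtain ⟨h3, h4⟩ := fub μ hb e K (fun _ => 1) continuous_const (fun τ => τ ^ 2)
    (continuous_pow 2) (fun τ => sq_nonneg τ)
    (fun t => Real.sqrt (2 * Real.pi * K) * (t ^ 2 + K)) (by fun_prop)
    (fun t => (gau2 K hK t).1) (fun t => (gau2 K hK t).2)
  simp only [one_mul] at h1 h2 h3 h4
  simp only [integral_const_mul] at h3 h4
  refine ⟨h1, ?_, h3, h4⟩
  rw [h2, integral_mul_const, mul_comm]

end Pool.Agent.H888R2.KC
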