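import Pool.Agent.H888R2.KC.Defs
import Pool.Agent.H212R2.KLS.T1

/-! U2c: Gaussian tilts of a log-concave density have log-concave total mass
(helper778 for helper888). -/

set_option autoImplicit false

namespace Pool.Agent.H888R2.KC

open MeasureTheory Set Matrix
open scoped ENNReal InnerProductSpace
open Pool.Agent.H212R2.KLS (mu Bdd ev gr)

namespace U2cx

variable {ι : Type} [Fintype ι]

/-- the Gaussian weight -/
noncomputable def w (e : EuclideanSpace ℝ ι) (K a : ℝ) (x : EuclideanSpace ℝ ι) : ℝ :=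
  Real.exp (-((⟪e, x⟫_ℝ - a) ^ 2 / (2 * K)))

theorem w_pos (e : EuclideanSpace ℝ ι) (K a : ℝ) (x : EuclideanSpace ℝ ι) : 0 < w e K a x :=
  Real.exp_pos _

theorem w_cont (e : EuclideanSpace ℝ ι) (K a : ℝ) : Continuous (w e K a) := by
  unfold w
  fun_prop

theorem w_le (e : EuclideanSpace ℝ ι) (K a : ℝ) (hK : 0 < K) (x : EuclideanSpace ℝ ι) :
    w e K a x ≤ 1 := by
  unfold w
  rw [Real.exp_le_one_iff]
  have : 0 ≤ (⟪e, x⟫_ℝ - a) ^ 2 / (2 * K) := by positivity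
  linarith

theorem w_logc (e : EuclideanSpace ℝ ι) (K a b : ℝ) (hK : 0 < K) (x y : EuclideanSpace ℝ ι)
    (t : ℝ) (ht0 : 0 < t) (ht1 : t < 1) :
    w e K a x ^ (1 - t) * w e K b y ^ t ≤
      w e K ((1 - t) * a + t * b) ((1 - t) • x + t • y) := by
  unfold w
  rw [← Real.exp_mul, ← Real.exp_mul, ← Real.exp_add, Real.exp_le_exp]
  have h1 : ⟪e, (1 - t) • x + t • y⟫_ℝ - ((1 - t) * a + t * b) =
      (1 - t) * (⟪e, x⟫_ℝ - a) + t * (⟪e, y⟫_ℝ - b) := by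
    rw [inner_add_right, inner_smul_right, inner_smul_right]
    ring
  rw [h1]
  generalize ⟪e, x⟫_ℝ - a = A
  generalize ⟪e, y⟫_ℝ - b = B
  have h2 : ((1 - t) * A + t * B) ^ 2 ≤ (1 - t) * A ^ 2 + t * B ^ 2 := by
    have h3 : 0 ≤ (1 - t) * t * (A - B) ^ 2 := by
      have : 0 < 1 - t := by linarith
      positivity
    nlinarith
  have h4 : ((1 - t) * A + t * B) ^ 2 / (2 * K) ≤ ((1 - t) * A ^ 2 + t * B ^ 2) / (2 * K) :=
    div_le_div_of_nonneg_right h2 (by positivity)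
  have h5 : -(A ^ 2 / (2 * K)) * (1 - t) + -(B ^ 2 / (2 * K)) * t =
      -(((1 - t) * A ^ 2 + t * B ^ 2) / (2 * K)) := by ring
  rw [h5]
  linarith

theorem key (ρ : EuclideanSpace ℝ ι → ℝ) (h0 : ∀ x, 0 ≤ ρ x) (hm : Measurable ρ)
    (hfin : mu ρ univ ≠ ⊤) (e : EuclideanSpace ℝ ι) (K a : ℝ) (hK : 0 < K) :
    ENNReal.ofReal (∫ x, w e K a x ∂(mu ρ)) = ∫⁻ x, ENNReal.ofReal (ρ x * w e K a x) := by
  have hF : IsFiniteMeasure (mu ρ) := ⟨lt_of_le_of_ne le_top hfin⟩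
  have hint : Integrable (w e K a) (mu ρ) := by
    refine Integrable.mono' (integrable_const (1 : ℝ)) (w_cont e K a).aestronglyMeasurable ?_
    filter_upwards with x
    rw [Real.norm_eq_abs, abs_of_pos (w_pos e K a x)]
    exact w_le e K a hK x
  rw [ofReal_integral_eq_lintegral_ofReal hint (by
    filter_upwards with x using (w_pos e K a x).le)]
  unfold mu
  rw [lintegral_withDensity_eq_lintegral_mul _ (by fun_prop)
    (by exact (w_cont e K a).measurable.ennreal_ofReal)]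
  refine lintegral_congr fun x => ?_
  rw [Pi.mul_apply, ENNReal.ofReal_mul (h0 x)]

end U2cx

variable {ι : Type} [Fintype ι]

theorem tilt_lc (ρ : EuclideanSpace ℝ ι → ℝ) (h0 : ∀ x, 0 ≤ ρ x) (hm : Measurable ρ)
    (hlc : ∀ x y : EuclideanSpace ℝ ι, ∀ t : ℝ, 0 < t → t < 1 →
      ρ x ^ (1 - t) * ρ y ^ t ≤ ρ ((1 - t) • x + t • y)) (hfin : mu ρ univ ≠ ⊤)
    (e : EuclideanSpace ℝ ι) (K : ℝ) (hK : 0 < K) (a b t : ℝ) (ht0 : 0 < t) (ht1 : t < 1) :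
    (∫ x, Real.exp (-((⟪e, x⟫_ℝ - a) ^ 2 / (2 * K))) ∂(mu ρ)) ^ (1 - t) *
      (∫ x, Real.exp (-((⟪e, x⟫_ℝ - b) ^ 2 / (2 * K))) ∂(mu ρ)) ^ t ≤
      ∫ x, Real.exp (-((⟪e, x⟫_ℝ - ((1 - t) * a + t * b)) ^ 2 / (2 * K))) ∂(mu ρ) := by
  change (∫ x, U2cx.w e K a x ∂(mu ρ)) ^ (1 - t) * (∫ x, U2cx.w e K b x ∂(mu ρ)) ^ t ≤
    ∫ x, U2cx.w e K ((1 - t) * a + t * b) x ∂(mu ρ)
  have hpos : ∀ c : ℝ, 0 ≤ ∫ x, U2cx.w e K c x ∂(mu ρ) := fun c =>
    integral_nonneg fun x => (U2cx.w_pos e K c x).le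
  have t1 : 0 < 1 - t := by linarith
  rw [← ENNReal.ofReal_le_ofReal_iff (hpos _), ENNReal.ofReal_mul (Real.rpow_nonneg (hpos a) _),
    ← ENNReal.ofReal_rpow_of_nonneg (hpos a) t1.le, ← ENNReal.ofReal_rpow_of_nonneg (hpos b) ht0.le,
    U2cx.key ρ h0 hm hfin e K a hK, U2cx.key ρ h0 hm hfin e K b hK,
    U2cx.key ρ h0 hm hfin e K _ hK]
  refine Pool.Agent.H212R2.KLS.PL volume t ht0 ht1 _ _ _ ?_ ?_ ?_ ?_
  · exact (hm.mul (U2cx.w_cont e K a).measurable).ennreal_ofReal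
  · exact (hm.mul (U2cx.w_cont e K b).measurable).ennreal_ofReal
  · exact (hm.mul (U2cx.w_cont e K _).measurable).ennreal_ofReal
  · intro x y
    have hx : 0 ≤ ρ x * U2cx.w e K a x := mul_nonneg (h0 x) (U2cx.w_pos e K a x).le
    have hy : 0 ≤ ρ y * U2cx.w e K b y := mul_nonneg (h0 y) (U2cx.w_pos e K b y).le
    rw [ENNReal.ofReal_rpow_of_nonneg hx t1.le, ENNReal.ofReal_rpow_of_nonneg hy ht0.le,
      ← ENNReal.ofReal_mul (Real.rpow_nonneg hx _)]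
    refine ENNReal.ofReal_le_ofReal ?_
    rw [Real.mul_rpow (h0 x) (U2cx.w_pos e K a x).le, Real.mul_rpow (h0 y) (U2cx.w_pos e K b y).le]
    calc ρ x ^ (1 - t) * U2cx.w e K a x ^ (1 - t) * (ρ y ^ t * U2cx.w e K b y ^ t)
        = (ρ x ^ (1 - t) * ρ y ^ t) * (U2cx.w e K a x ^ (1 - t) * U2cx.w e K b y ^ t) := by ring
      _ ≤ ρ ((1 - t) • x + t • y) *
          U2cx.w e K ((1 - t) * a + t * b) ((1 - t) • x + t • y) := by
        refine mul_le_mul (hlc x y t ht0 ht1) (U2cx.w_logc e K a b hK x y t ht0 ht1) ?_ (h0 _)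
        exact mul_nonneg (Real.rpow_nonneg (U2cx.w_pos e K a x).le _)
          (Real.rpow_nonneg (U2cx.w_pos e K b y).le _)

end Pool.Agent.H888R2.KC
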