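import Pool.Agent.H888R2.KC.Defs
import Pool.Agent.H888R2.KC.F2
import Pool.Agent.H888R2.KC.F3
import Pool.Agent.H888R2.KC.G1
import Pool.Agent.H888R2.KC.L1
import Pool.Agent.H888R2.KC.L2
import Pool.Agent.H888R2.KC.T1
import Pool.Agent.H888R2.KC.T2
import Pool.Agent.H888R2.KC.T3
import Pool.Agent.H888R2.KC.T4
import Pool.Agent.H888R2.KC.T5
import Pool.Agent.H888R2.KC.T6
import Pool.Agent.H888R2.KC.U3
import Pool.Agent.H212R2.KLS.S1
import Pool.Agent.H212R2.KLS.S2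

/-!
# KLS for conjugation invariant log-concave measures on Hermitian matrices: assembly for
bounded support (task G2)
-/

set_option autoImplicit false

namespace Pool.Agent.H888R2.KC

open MeasureTheory Set Matrix
open scoped ENNReal InnerProductSpace
open Pool.Agent.H212R2.KLS (mu Bdd ev gr)

namespace G2x

theorem intg {F : Type*} [NormedAddCommGroup F] [NormedSpace ℝ F] [FiniteDimensional ℝ F]
    [MeasurableSpace F] [BorelSpace F] (μ : Measure F) [IsFiniteMeasure μ]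
    (hb : ∃ R, μ (Metric.closedBall 0 R)ᶜ = 0) (g : F → ℝ) (hg : Continuous g) :
    Integrable g μ := by
  obtain ⟨R, hR⟩ := hb
  have : ProperSpace F := FiniteDimensional.proper ℝ F
  obtain ⟨C, hC⟩ := (isCompact_closedBall (0 : F) R).exists_bound_of_continuousOn hg.continuousOn
  have h1 : Metric.closedBall (0 : F) R ∈ ae μ := mem_ae_iff.2 hR
  refine Integrable.of_bound hg.aestronglyMeasurable C ?_
  filter_upwards [h1] with x hx using hC x hx

/-- restriction of the density -/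
theorem mu_indicator {F : Type*} [MeasureSpace F] (ρ : F → ℝ) (U : Set F)
    (hU : MeasurableSet U) : mu (U.indicator ρ) = (mu ρ).restrict U := by
  rw [mu, mu, restrict_withDensity hU, ← withDensity_indicator hU]
  congr 1
  ext x
  by_cases hx : x ∈ U <;> simp [hx]

/-- integral against a product of densities -/
theorem integral_mu_mul {F : Type*} [MeasureSpace F] (ρ w g : F → ℝ) (h0 : ∀ x, 0 ≤ ρ x)
    (hm : Measurable ρ) (hw0 : ∀ x, 0 ≤ w x) (hwm : Measurable w) :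
    ∫ x, g x ∂(mu (fun x => ρ x * w x)) = ∫ x, g x * w x ∂(mu ρ) := by
  have h : mu (fun x => ρ x * w x) = (mu ρ).withDensity (fun x => ENNReal.ofReal (w x)) := by
    rw [mu, mu, ← withDensity_mul _ hm.ennreal_ofReal hwm.ennreal_ofReal]
    congr 1
    ext x
    simp [ENNReal.ofReal_mul (h0 x)]
  rw [h, integral_withDensity_eq_integral_toReal_smul hwm.ennreal_ofReal
    (ae_of_all _ fun x => ENNReal.ofReal_lt_top)]
  refine integral_congr_ae (ae_of_all _ fun x => ?_)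
  simp only [ENNReal.toReal_ofReal (hw0 x), smul_eq_mul]
  ring

theorem mu_mono {F : Type*} [MeasureSpace F] (ρ w : F → ℝ) (h : ∀ x, w x ≤ ρ x) (U : Set F) :
    mu w U ≤ mu ρ U := by
  have : mu w ≤ mu ρ := withDensity_mono (ae_of_all _ fun x => ENNReal.ofReal_le_ofReal (h x))
  exact this U

/-- the tail of the Euclidean norm -/
theorem ball_tail {𝕜 : Type} [RCLike 𝕜] {N : ℕ} {ι : Type} [Fintype ι]
    {Φ : EuclideanSpace ℝ ι →ₗ[ℝ] Matrix (Fin N) (Fin N) 𝕜} (h : Fr Φ) (hN : 3 ≤ N)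
    (ρ : EuclideanSpace ℝ ι → ℝ) (s : ℝ) (hs : 0 < s)
    (htail : ∀ u : ℝ, mu ρ {x | ¬ OpL (8 * u * Real.sqrt (N * s)) (Φ x)} ≤
      ENNReal.ofReal (Real.exp (N * (12 - u / 30)))) (r : ℝ)
    (hr : 2 * (480 * Real.sqrt s) * (6 * N) ≤ r) :
    mu ρ (Metric.closedBall 0 r)ᶜ ≤ ENNReal.ofReal (Real.exp (-(r / (480 * Real.sqrt s)))) := by
  have hss : 0 < Real.sqrt s := Real.sqrt_pos.2 hs
  have hN3 : (3:ℝ) ≤ N := by exact_mod_cast hN
  have hN0 : (0:ℝ) < N := by linarith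
  have hr0 : 0 < r := lt_of_lt_of_le (by positivity) hr
  have hsN : 0 < Real.sqrt N := Real.sqrt_pos.2 hN0
  have hNN : Real.sqrt N * Real.sqrt N = N := Real.mul_self_sqrt hN0.le
  obtain ⟨z, hz⟩ : ∃ z : ℝ, z = r / (480 * Real.sqrt s) := ⟨_, rfl⟩
  have hrz : r = z * (480 * Real.sqrt s) := by
    rw [hz]
    field_simp
  have hz12 : 12 * N ≤ z := by
    rw [hz, le_div_iff₀ (by positivity)]
    linarith
  have hz0 : 0 ≤ z := by linarith
  obtain ⟨u, hu⟩ : ∃ u : ℝ, u = 60 * z / N := ⟨_, rfl⟩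
  have hu0 : 0 ≤ u := by rw [hu]; positivity
  have hNu : N * u = 60 * z := by
    rw [hu]
    field_simp
  have hsub : (Metric.closedBall (0 : EuclideanSpace ℝ ι) r)ᶜ ⊆
      {x | ¬ OpL (8 * u * Real.sqrt (N * s)) (Φ x)} := by
    intro x hx hop
    refine hx ?_
    rw [mem_closedBall_zero_iff]
    have hpos : 0 ≤ 8 * u * Real.sqrt (N * s) := by positivity
    refine (norm_le_OpL h _ hpos x hop).trans (le_of_eq ?_)
    rw [Real.sqrt_mul hN0.le s]
    calc Real.sqrt N * (8 * u * (Real.sqrt N * Real.sqrt s)) =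
        8 * ((Real.sqrt N * Real.sqrt N) * u) * Real.sqrt s := by ring
      _ = 8 * (60 * z) * Real.sqrt s := by rw [hNN, hNu]
      _ = r := by rw [hrz]; ring
  refine (measure_mono hsub).trans ((htail u).trans ?_)
  refine ENNReal.ofReal_le_ofReal (Real.exp_le_exp.2 ?_)
  rw [← hz]
  have : N * (12 - u / 30) = N * 12 - (N * u) / 30 := by ring
  rw [this, hNu]
  linarith

/-- the local Poincare inequality on `U` -/
theorem local_U {𝕜 : Type} [RCLike 𝕜] {N : ℕ} {ι : Type} [Fintype ι]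
    {Φ : EuclideanSpace ℝ ι →ₗ[ℝ] Matrix (Fin N) (Fin N) 𝕜} (h : Fr Φ) (hN : 3 ≤ N)
    (ρ : EuclideanSpace ℝ ι → ℝ) (hρ : Dn Φ ρ) (hb : Bdd ρ) (h1 : mu ρ univ = 1)
    (hball : ∃ R, (mu ρ) (Metric.closedBall 0 R)ᶜ = 0) (s : ℝ) (hs : 0 < s)
    (hmom : ∀ θ : EuclideanSpace ℝ ι, ∫ x, ⟪θ, x⟫_ℝ ^ 2 ∂(mu ρ) ≤ s * ‖θ‖ ^ 2) (r : ℝ)
    (hr : 0 < r) (K : ℝ) (hK : K = 52 * r ^ 2 / N + 2 * s)
    (hhalf : 1 / 2 ≤ (mu ρ {x | OpL r (Φ x)}).toReal)
    (f : EuclideanSpace ℝ ι → ℝ) (hf : ContDiff ℝ 1 f) :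
    ∃ c : ℝ, ∫ x in {x | OpL r (Φ x)}, (f x - c) ^ 2 ∂(mu ρ) ≤
      1100 * K * ∫ x in {x | OpL r (Φ x)}, ‖fderiv ℝ f x‖ ^ 2 ∂(mu ρ) := by
  have hprob : IsProbabilityMeasure (mu ρ) := ⟨h1⟩
  have hN3 : (3:ℝ) ≤ N := by exact_mod_cast hN
  have hN0 : (0:ℝ) < N := by linarith
  have hK0 : 0 < K := by rw [hK]; positivity
  obtain ⟨U, hU⟩ : ∃ U : Set (EuclideanSpace ℝ ι), U = {x | OpL r (Φ x)} := ⟨_, rfl⟩
  rw [← hU] at hhalf ⊢
  have hUm : MeasurableSet U := by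
    rw [hU]
    exact (OpL_closed r).measurableSet
  obtain ⟨-, hDU, -, -, -⟩ := Dn.basic h hρ
  have hD := hDU r
  rw [← hU] at hD
  obtain ⟨-, -, -, -, hTU⟩ := Dn.basic h hD
  have hres : mu (U.indicator ρ) = (mu ρ).restrict U := mu_indicator ρ U hUm
  have htv : ‖tv Φ‖ = 1 := norm_tv h (by omega)
  have hle : ∀ x, U.indicator ρ x ≤ ρ x := fun x => Set.indicator_le_self' (fun _ _ => hρ.nonneg _) x
  have hbU : Bdd (U.indicator ρ) := by
    obtain ⟨R, hR⟩ := hb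
    refine ⟨R, fun x hx => le_antisymm ?_ (hD.nonneg x)⟩
    rw [← hR x hx]
    exact hle x
  have hfinU : mu (U.indicator ρ) univ ≠ ⊤ := by
    have := (mu_mono ρ (U.indicator ρ) hle univ).trans_eq h1
    exact ne_top_of_le_ne_top ENNReal.one_ne_top this
  obtain ⟨c, hc⟩ := untilt (U.indicator ρ) hD.nonneg hD.meas hD.logc hbU hfinU (tv Φ) htv.le
    K hK0 (by
      rw [hres, Measure.restrict_apply_univ]
      have h2 : ∫ x in U, ⟪tv Φ, x⟫_ℝ ^ 2 ∂(mu ρ) ≤ ∫ x, ⟪tv Φ, x⟫_ℝ ^ 2 ∂(mu ρ) :=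
        setIntegral_le_integral (intg (mu ρ) hball _ (by fun_prop))
          (ae_of_all _ fun x => by positivity)
      have h3 := hmom (tv Φ)
      rw [htv] at h3
      have h4 : 2 * s ≤ K := by
        rw [hK]
        have : 0 ≤ 52 * r ^ 2 / N := by positivity
        linarith
      have h5 : s ≤ K * (mu ρ U).toReal := by
        have h6 : K * (1 / 2) ≤ K * (mu ρ U).toReal := mul_le_mul_of_nonneg_left hhalf hK0.le
        linarith
      linarith)
    (by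
      intro τ g hg
      obtain ⟨hD', hT'⟩ := hTU K hK0 τ
      have hw0 : ∀ x : EuclideanSpace ℝ ι,
          0 ≤ Real.exp (-((⟪tv Φ, x⟫_ℝ - τ) ^ 2 / (2 * K))) := fun x => (Real.exp_pos _).le
      have hwm : Measurable fun x : EuclideanSpace ℝ ι =>
          Real.exp (-((⟪tv Φ, x⟫_ℝ - τ) ^ 2 / (2 * K))) := by
        apply Continuous.measurable
        fun_prop
      have hw1 : ∀ x : EuclideanSpace ℝ ι,
          Real.exp (-((⟪tv Φ, x⟫_ℝ - τ) ^ 2 / (2 * K))) ≤ 1 := fun x => by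
        rw [Real.exp_le_one_iff, neg_nonpos]
        positivity
      have hle' : ∀ x, U.indicator ρ x * Real.exp (-((⟪tv Φ, x⟫_ℝ - τ) ^ 2 / (2 * K))) ≤ ρ x :=
        fun x => (mul_le_of_le_one_right (hD.nonneg x) (hw1 x)).trans (hle x)
      have hb' : Bdd (fun x => U.indicator ρ x *
          Real.exp (-((⟪tv Φ, x⟫_ℝ - τ) ^ 2 / (2 * K)))) := by
        obtain ⟨R, hR⟩ := hbU
        exact ⟨R, fun x hx => by simp only [hR x hx, zero_mul]⟩
      have hfin' : mu (fun x => U.indicator ρ x *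
          Real.exp (-((⟪tv Φ, x⟫_ℝ - τ) ^ 2 / (2 * K)))) univ ≠ ⊤ := by
        have := (mu_mono ρ _ hle' univ).trans_eq h1
        exact ne_top_of_le_ne_top ENNReal.one_ne_top this
      obtain ⟨c, hc⟩ := local_poincare h hN _ hD' hb' hfin' r hr
        (fun x hx => by
          have : x ∉ U := by rw [hU]; exact hx
          simp only [Set.indicator_of_notMem this, zero_mul]) K hK0 hT' g hg
      rw [integral_mu_mul _ _ _ hD.nonneg hD.meas hw0 hwm,
        integral_mu_mul _ _ _ hD.nonneg hD.meas hw0 hwm] at hc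
      refine ⟨c, hc.trans (mul_le_mul_of_nonneg_right ?_ ?_)⟩
      · have : 52 * r ^ 2 / N ≤ K := by rw [hK]; linarith
        linarith
      · exact integral_nonneg fun x => by positivity)
    f hf
  rw [hres] at hc
  exact ⟨c, hc⟩

end G2x

open G2x in
theorem core : ∃ C : ℝ, 0 < C ∧ ∀ {𝕜 : Type} [RCLike 𝕜] {N : ℕ} {ι : Type} [Fintype ι]
    {Φ : EuclideanSpace ℝ ι →ₗ[ℝ] Matrix (Fin N) (Fin N) 𝕜}, Fr Φ → 3 ≤ N →
    ∀ ρ : EuclideanSpace ℝ ι → ℝ, Dn Φ ρ → Bdd ρ → mu ρ univ = 1 → ∀ s : ℝ, 0 < s →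
    (∀ θ : EuclideanSpace ℝ ι, ∫ x, ⟪θ, x⟫_ℝ ^ 2 ∂(mu ρ) ≤ s * ‖θ‖ ^ 2) →
    ∀ f : EuclideanSpace ℝ ι → ℝ, ContDiff ℝ 1 f →
    ∫ x, f x ^ 2 ∂(mu ρ) - (∫ x, f x ∂(mu ρ)) ^ 2 ≤
      C * s * ∫ x, ‖fderiv ℝ f x‖ ^ 2 ∂(mu ρ) := by
  obtain ⟨C₀, hC₀, hsmall⟩ := Pool.Agent.H212R2.KLS.small_l2
  refine ⟨2 * (2 * (1100 * (52 * (8 * 1080) ^ 2 + 2)) + 4 * (C₀ * 480) ^ 2), by positivity, ?_⟩
  intro 𝕜 _ N ι _ Φ h hN ρ hρ hb h1 s hs hmom f hf
  have hprob : IsProbabilityMeasure (mu ρ) := ⟨h1⟩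
  have hN3 : (3:ℝ) ≤ N := by exact_mod_cast hN
  have hN0 : (0:ℝ) < N := by linarith
  have hball : ∃ R, (mu ρ) (Metric.closedBall 0 R)ᶜ = 0 := by
    obtain ⟨R, hR⟩ := hb
    refine ⟨R, ?_⟩
    rw [mu, withDensity_apply_eq_zero' (hρ.meas.ennreal_ofReal.aemeasurable)]
    refine measure_mono_null ?_ (measure_empty (μ := (volume : Measure (EuclideanSpace ℝ ι))))
    intro x hx
    refine hx.1 ?_
    have : R < ‖x‖ := by simpa using hx.2
    simp [hR x this]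
  have htv : ‖tv Φ‖ = 1 := norm_tv h (by omega)
  -- tails
  have hcol := fun (i j : Fin N) (hij : i ≠ j) (u : ℝ) =>
    col_tail h (by omega) ρ hρ hb h1 s hs hmom i j hij u
  have hdiff := fun (i j : Fin N) (hij : i ≠ j) (u : ℝ) =>
    diff_tail h ρ hρ s hs hcol i j hij u
  have hlin := fun (b : ℝ) (hb0 : 0 ≤ b) =>
    lin_tail ρ hρ.nonneg hρ.meas hρ.logc h1 (tv Φ) s hs
      (intg (mu ρ) hball _ (by fun_prop)) (by
        have := hmom (tv Φ)
        rwa [htv, one_pow, mul_one] at this) b hb0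
  have hent := fun (i : Fin N) (u : ℝ) =>
    entry_tail h (by omega) ρ hρ h1 s hs hdiff hlin i u
  have hform := fun (v : EuclideanSpace 𝕜 (Fin N)) (hv : ‖v‖ ≤ 1) (u : ℝ) =>
    form_tail h (by omega) ρ hρ h1 s hs hent v hv u
  have htail : ∀ u : ℝ, mu ρ {x | ¬ OpL (8 * u * Real.sqrt (N * s)) (Φ x)} ≤
      ENNReal.ofReal (Real.exp (N * (12 - u / 30))) := fun u =>
    op_tail h (by omega) ρ hρ h1 s hs hform u
  have hss : 0 < Real.sqrt s := Real.sqrt_pos.2 hs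
  have hsNs : 0 < Real.sqrt (N * s) := Real.sqrt_pos.2 (by positivity)
  obtain ⟨r, hr⟩ : ∃ r : ℝ, r = 8 * 1080 * Real.sqrt (N * s) := ⟨_, rfl⟩
  have hr0 : 0 < r := by rw [hr]; positivity
  have hUm : MeasurableSet {x : EuclideanSpace ℝ ι | OpL r (Φ x)} :=
    (OpL_closed r).measurableSet
  have hUc : mu ρ {x : EuclideanSpace ℝ ι | OpL r (Φ x)}ᶜ ≤
      ENNReal.ofReal (Real.exp (-(4 * (6 * N)))) := by
    have h2 := htail 1080
    rw [← hr] at h2
    refine h2.trans (le_of_eq ?_)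
    congr 2
    ring
  have hhalf : 1 / 2 ≤ (mu ρ {x : EuclideanSpace ℝ ι | OpL r (Φ x)}).toReal := by
    have h2 : (mu ρ).real {x : EuclideanSpace ℝ ι | OpL r (Φ x)}ᶜ ≤
        Real.exp (-(4 * (6 * N))) := by
      rw [measureReal_def]
      exact ENNReal.toReal_le_of_le_ofReal (Real.exp_pos _).le hUc
    rw [probReal_compl_eq_one_sub hUm] at h2
    have h3 : Real.exp (-(4 * (6 * (N:ℝ)))) ≤ 1 / 2 := by
      rw [Real.exp_neg, inv_le_comm₀ (Real.exp_pos _) (by norm_num)]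
      have := Real.add_one_le_exp (4 * (6 * (N:ℝ)))
      linarith
    rw [← measureReal_def]
    linarith
  obtain ⟨K, hK⟩ : ∃ K : ℝ, K = 52 * r ^ 2 / N + 2 * s := ⟨_, rfl⟩
  have hKs : K = (52 * (8 * 1080) ^ 2 + 2) * s := by
    rw [hK, hr, mul_pow, Real.sq_sqrt (by positivity)]
    field_simp
  have hK0 : 0 < K := by rw [hKs]; positivity
  have hfinal := glue (mu ρ) hball (6 * N) (1100 * K) ((C₀ * 480) ^ 2 * s) (by linarith)
    (by positivity) (by positivity) ?_ {x : EuclideanSpace ℝ ι | OpL r (Φ x)} hUm hUc ?_ f hf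
  · refine hfinal.trans (le_of_eq ?_)
    rw [hKs]
    ring
  · intro g hg hgs
    have h2 := hsmall (mu ρ) h1 hball (fun f hf hf0 hf1 hfs r hr hBr =>
      Pool.Agent.H212R2.KLS.small_l1 volume ρ hρ.nonneg hρ.meas hρ.logc hb (mu ρ) rfl h1
        f hf hf0 hf1 hfs r hr hBr)
      (480 * Real.sqrt s) (6 * N) (by positivity) (by linarith)
      (fun r hr => ball_tail h hN ρ s hs htail r hr) g hg hgs
    have h3 : (C₀ * (480 * Real.sqrt s)) ^ 2 = (C₀ * 480) ^ 2 * s := by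
      rw [← mul_assoc, mul_pow, Real.sq_sqrt hs.le]
    rwa [h3] at h2
  · intro g hg
    exact local_U h hN ρ hρ hb h1 hball s hs hmom r hr0 K hK hhalf g hg

end Pool.Agent.H888R2.KC
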