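import Pool.Agent.H888R2.KC.Defs
import Pool.Agent.H888R2.KC.G3
import Pool.Agent.H888R2.KC.L1

/-!
# G4: general mean
-/

set_option autoImplicit false

namespace Pool.Agent.H888R2.KC

open MeasureTheory Set Matrix
open scoped ENNReal InnerProductSpace
open Pool.Agent.H212R2.KLS (mu Bdd ev gr)

namespace G4x

section

variable {ι : Type} [Fintype ι]

/-- the mean vector -/
noncomputable def mean (μ : Measure (EuclideanSpace ℝ ι)) : EuclideanSpace ℝ ι :=
  WithLp.toLp 2 fun k => ∫ x, x k ∂μ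

theorem lin_mean (μ : Measure (EuclideanSpace ℝ ι))
    (hint : ∀ k, Integrable (fun x : EuclideanSpace ℝ ι => x k) μ)
    (L : EuclideanSpace ℝ ι →ₗ[ℝ] ℝ) : L (mean μ) = ∫ x, L x ∂μ := by
  classical
  have h1 : ∀ x : EuclideanSpace ℝ ι, L x = ∑ k, x k * L (EuclideanSpace.single k 1) := by
    intro x
    have h2 : x = ∑ k, x k • EuclideanSpace.single k (1 : ℝ) := by
      ext j
      simp [Finset.sum_apply, Pi.single_apply]
    conv_lhs => rw [h2]
    rw [map_sum]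
    refine Finset.sum_congr rfl fun k _ => ?_
    rw [map_smul, smul_eq_mul]
  have h5 : ∫ x, L x ∂μ = ∫ x : EuclideanSpace ℝ ι,
      ∑ k, x k * L (EuclideanSpace.single k 1) ∂μ := by
    congr 1
    funext x
    exact h1 x
  rw [h5, h1 (mean μ), integral_finsetSum _ fun k _ => (hint k).mul_const _]
  refine Finset.sum_congr rfl fun k _ => ?_
  rw [integral_mul_const]
  rfl

theorem map_shift (ρ : EuclideanSpace ℝ ι → ℝ) (hm : Measurable ρ) (a : EuclideanSpace ℝ ι) :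
    (mu (fun x => ρ (x + a))).map (fun x => x + a) = mu ρ := by
  have hT : MeasurePreserving (fun x : EuclideanSpace ℝ ι => x + a) volume volume :=
    measurePreserving_add_right volume a
  ext s hs
  rw [Measure.map_apply (measurable_add_const a) hs]
  unfold mu
  rw [withDensity_apply _ hs, withDensity_apply _ (measurable_add_const a hs)]
  exact hT.setLIntegral_comp_preimage hs (f := fun x => ENNReal.ofReal (ρ x))
    hm.ennreal_ofReal

end

end G4x

open G4x in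
theorem main_centered : ∃ C : ℝ, 0 < C ∧ ∀ {𝕜 : Type} [RCLike 𝕜] {N : ℕ} {ι : Type} [Fintype ι]
    {Φ : EuclideanSpace ℝ ι →ₗ[ℝ] Matrix (Fin N) (Fin N) 𝕜}, Fr Φ → 3 ≤ N →
    ∀ ρ : EuclideanSpace ℝ ι → ℝ, Dn Φ ρ → mu ρ univ = 1 → ∀ s : ℝ, 0 < s →
    (∀ θ : EuclideanSpace ℝ ι, ProbabilityTheory.evariance (fun x => ⟪θ, x⟫_ℝ) (mu ρ) ≤
      ENNReal.ofReal (s * ‖θ‖ ^ 2)) →
    ∀ f : EuclideanSpace ℝ ι → ℝ, ContDiff ℝ 1 f → MemLp f 2 (mu ρ) →
    ENNReal.ofReal (∫ x, (f x - ∫ y, f y ∂(mu ρ)) ^ 2 ∂(mu ρ)) ≤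
      ENNReal.ofReal (C * s) * ∫⁻ x, ENNReal.ofReal (‖fderiv ℝ f x‖ ^ 2) ∂(mu ρ) := by
  obtain ⟨C, hC, H⟩ := main
  refine ⟨C, hC, ?_⟩
  intro 𝕜 _ N ι _ Φ hΦ hN ρ hρ h1 s hs hvar f hf hf2
  classical
  have : IsProbabilityMeasure (mu ρ) := ⟨h1⟩
  have hL2 : ∀ θ : EuclideanSpace ℝ ι, MemLp (fun x : EuclideanSpace ℝ ι => ⟪θ, x⟫_ℝ) 2 (mu ρ) := by
    intro θ
    have hmeas : AEStronglyMeasurable (fun x : EuclideanSpace ℝ ι => ⟪θ, x⟫_ℝ) (mu ρ) := by
      have : Continuous (fun x : EuclideanSpace ℝ ι => ⟪θ, x⟫_ℝ) := by fun_prop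
      exact this.aestronglyMeasurable
    rw [← ProbabilityTheory.evariance_lt_top_iff_memLp hmeas]
    exact lt_of_le_of_lt (hvar θ) ENNReal.ofReal_lt_top
  have hint : ∀ k, Integrable (fun x : EuclideanSpace ℝ ι => x k) (mu ρ) := by
    intro k
    have h2 := (hL2 (EuclideanSpace.single k 1)).integrable (by norm_num)
    refine h2.congr ?_
    filter_upwards with x
    rw [EuclideanSpace.inner_single_left]
    simp
  set a := mean (mu ρ) with ha
  have hcj : ∀ U ∈ Matrix.unitaryGroup (Fin N) 𝕜, cj Φ U a = a := by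
    intro U hU
    have hmap := (Dn.basic hΦ hρ).1 U hU
    have hc : Continuous (cj Φ U) := LinearMap.continuous_of_finiteDimensional _
    ext j
    let L : EuclideanSpace ℝ ι →ₗ[ℝ] ℝ := (EuclideanSpace.proj j : EuclideanSpace ℝ ι →L[ℝ] ℝ)
    have h2 := lin_mean (mu ρ) hint (L ∘ₗ cj Φ U)
    have h3 : ∫ y : EuclideanSpace ℝ ι, y j ∂((mu ρ).map (cj Φ U)) =
        ∫ x, (cj Φ U x) j ∂(mu ρ) := by
      refine integral_map hc.measurable.aemeasurable ?_
      have : Continuous (fun y : EuclideanSpace ℝ ι => y j) := by fun_prop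
      exact this.aestronglyMeasurable
    rw [hmap] at h3
    have h4 : (L ∘ₗ cj Φ U) (mean (mu ρ)) = (cj Φ U a) j := rfl
    rw [← h4, h2]
    exact h3.symm
  have hρ' : Dn Φ (fun x => ρ (x + a)) := by
    refine ⟨fun x => hρ.nonneg _, hρ.meas.comp (measurable_add_const a), ?_, ?_⟩
    · intro x y t ht0 ht1
      have h2 := hρ.logc (x + a) (y + a) t ht0 ht1
      have h3 : (1 - t) • (x + a) + t • (y + a) = (1 - t) • x + t • y + a := by
        module
      rw [h3] at h2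
      exact h2
    · intro U hU x
      have h2 : cj Φ U x + a = cj Φ U (x + a) := by
        rw [map_add, hcj U hU]
      show ρ (cj Φ U x + a) = ρ (x + a)
      rw [h2]
      exact hρ.inv U hU _
  have hmap := map_shift ρ hρ.meas a
  have hemb : MeasurableEmbedding (fun x : EuclideanSpace ℝ ι => x + a) :=
    measurableEmbedding_addRight a
  have h1' : mu (fun x => ρ (x + a)) univ = 1 := by
    have h2 := congrArg (fun m : Measure (EuclideanSpace ℝ ι) => m univ) hmap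
    rw [Measure.map_apply (measurable_add_const a) MeasurableSet.univ, preimage_univ, h1] at h2
    exact h2
  have hI : ∀ g : EuclideanSpace ℝ ι → ℝ,
      ∫ x, g x ∂(mu ρ) = ∫ x, g (x + a) ∂(mu fun x => ρ (x + a)) := by
    intro g
    conv_lhs => rw [← hmap]
    exact hemb.integral_map g
  have hLI : ∀ g : EuclideanSpace ℝ ι → ℝ≥0∞,
      ∫⁻ x, g x ∂(mu ρ) = ∫⁻ x, g (x + a) ∂(mu fun x => ρ (x + a)) := by
    intro g
    conv_lhs => rw [← hmap]
    exact hemb.lintegral_map g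
  have hvar' : ∀ θ : EuclideanSpace ℝ ι,
      ∫⁻ x, ENNReal.ofReal (⟪θ, x⟫_ℝ ^ 2) ∂(mu fun x => ρ (x + a)) ≤
        ENNReal.ofReal (s * ‖θ‖ ^ 2) := by
    intro θ
    have h2 := hvar θ
    unfold ProbabilityTheory.evariance at h2
    rw [hLI] at h2
    refine le_trans (le_of_eq ?_) h2
    refine lintegral_congr fun x => ?_
    have h3 : ∫ x, ⟪θ, x⟫_ℝ ∂(mu ρ) = ⟪θ, a⟫_ℝ := by
      have h4 := lin_mean (mu ρ) hint (innerₛₗ ℝ θ)
      simp only [innerₛₗ_apply_apply] at h4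
      exact h4.symm
    rw [h3]
    show ENNReal.ofReal (⟪θ, x⟫_ℝ ^ 2) = ‖⟪θ, x + a⟫_ℝ - ⟪θ, a⟫_ℝ‖ₑ ^ 2
    rw [inner_add_right, add_sub_cancel_right, ← ofReal_norm,
      ← ENNReal.ofReal_pow (norm_nonneg _), Real.norm_eq_abs, sq_abs]
  have hg : ContDiff ℝ 1 (fun x => f (x + a)) := hf.comp (contDiff_id.add contDiff_const)
  have hg2 : MemLp (fun x => f (x + a)) 2 (mu fun x => ρ (x + a)) := by
    rw [← hmap] at hf2
    exact (hemb.memLp_map_measure_iff).mp hf2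
  have key := H hΦ hN (fun x => ρ (x + a)) hρ' h1' s hs hvar' (fun x => f (x + a)) hg hg2
  have e1 : ∫ x, (f x - ∫ y, f y ∂(mu ρ)) ^ 2 ∂(mu ρ) =
      ∫ x, (f (x + a) - ∫ y, f (y + a) ∂(mu fun x => ρ (x + a))) ^ 2
        ∂(mu fun x => ρ (x + a)) := by
    rw [hI (fun x => (f x - ∫ y, f y ∂(mu ρ)) ^ 2), hI f]
  have e2 : ∫⁻ x, ENNReal.ofReal (‖fderiv ℝ f x‖ ^ 2) ∂(mu ρ) =
      ∫⁻ x, ENNReal.ofReal (‖fderiv ℝ (fun x => f (x + a)) x‖ ^ 2)
        ∂(mu fun x => ρ (x + a)) := by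
    rw [hLI (fun x => ENNReal.ofReal (‖fderiv ℝ f x‖ ^ 2))]
    refine lintegral_congr fun x => ?_
    rw [fderiv_comp_add_right]
  rw [e1, e2]
  exact key

end Pool.Agent.H888R2.KC
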