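import Pool.Agent.H888R2.KC.Defs

/-!
# KLS for conjugation invariant log-concave measures on Hermitian matrices: all statements
-/

set_option autoImplicit false

namespace Pool.Agent.H888R2.KC.Stubs

open MeasureTheory Set Matrix Pool.Agent.H888R2.KC
open scoped ENNReal InnerProductSpace
open Pool.Agent.H212R2.KLS (mu Bdd ev gr)

variable {𝕜 : Type} [RCLike 𝕜] {N : ℕ} {ι : Type} [Fintype ι]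
  {Φ : EuclideanSpace ℝ ι →ₗ[ℝ] Matrix (Fin N) (Fin N) 𝕜}

/-! ## F1: the frame -/

theorem ip_comm (A B : Matrix (Fin N) (Fin N) 𝕜) : ip A B = ip B A := sorry

theorem ps_Phi (h : Fr Φ) (x : EuclideanSpace ℝ ι) : ps Φ (Φ x) = x := sorry

theorem Phi_ps (h : Fr Φ) (A : Matrix (Fin N) (Fin N) 𝕜) (hA : Aᴴ = A) : Φ (ps Φ A) = A := sorry

theorem inner_ps (A : Matrix (Fin N) (Fin N) 𝕜) (x : EuclideanSpace ℝ ι) :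
    ⟪ps Φ A, x⟫_ℝ = ip A (Φ x) := sorry

theorem inner_Phi (h : Fr Φ) (x y : EuclideanSpace ℝ ι) : ⟪x, y⟫_ℝ = ip (Φ x) (Φ y) := sorry

/-! ## F2: conjugation, commutators, diagonal matrices -/

theorem Phi_cj (h : Fr Φ) (U : Matrix (Fin N) (Fin N) 𝕜) (x : EuclideanSpace ℝ ι) :
    Φ (cj Φ U x) = U * Φ x * Uᴴ := sorry

theorem cj_cj (h : Fr Φ) (U W : Matrix (Fin N) (Fin N) 𝕜) (x : EuclideanSpace ℝ ι) :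
    cj Φ U (cj Φ W x) = cj Φ (U * W) x := sorry

theorem cj_one (h : Fr Φ) (x : EuclideanSpace ℝ ι) : cj Φ 1 x = x := sorry

theorem norm_cj (h : Fr Φ) (U : Matrix (Fin N) (Fin N) 𝕜) (hU : U ∈ Matrix.unitaryGroup (Fin N) 𝕜)
    (x : EuclideanSpace ℝ ι) : ‖cj Φ U x‖ = ‖x‖ := sorry

theorem mp_cj (h : Fr Φ) (U : Matrix (Fin N) (Fin N) 𝕜) (hU : U ∈ Matrix.unitaryGroup (Fin N) 𝕜) :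
    MeasurePreserving (cj Φ U) (volume : Measure (EuclideanSpace ℝ ι)) volume := sorry

theorem Phi_ad (h : Fr Φ) (K : Matrix (Fin N) (Fin N) 𝕜) (hK : Kᴴ = -K)
    (x : EuclideanSpace ℝ ι) : Φ (ad Φ K x) = K * Φ x - Φ x * K := sorry

theorem ad_skew (h : Fr Φ) (K : Matrix (Fin N) (Fin N) 𝕜) (hK : Kᴴ = -K)
    (x y : EuclideanSpace ℝ ι) : ⟪ad Φ K x, y⟫_ℝ = - ⟪x, ad Φ K y⟫_ℝ := sorry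

theorem Phi_dg (h : Fr Φ) (l : EuclideanSpace ℝ (Fin N)) : Φ (dg Φ l) = dm 𝕜 l := sorry

theorem norm_dg (h : Fr Φ) (l : EuclideanSpace ℝ (Fin N)) : ‖dg Φ l‖ = ‖l‖ := sorry

theorem norm_tv (h : Fr Φ) (hN : 1 ≤ N) : ‖tv Φ‖ = 1 := sorry

theorem inner_tv_dg (h : Fr Φ) (l : EuclideanSpace ℝ (Fin N)) :
    ⟪tv Φ, dg Φ l⟫_ℝ = (Real.sqrt N)⁻¹ * ∑ i, l i := sorry

theorem inner_tv_cj (h : Fr Φ) (U : Matrix (Fin N) (Fin N) 𝕜)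
    (hU : U ∈ Matrix.unitaryGroup (Fin N) 𝕜) (x : EuclideanSpace ℝ ι) :
    ⟪tv Φ, cj Φ U x⟫_ℝ = ⟪tv Φ, x⟫_ℝ := sorry

/-! ## F3: the operator norm -/

theorem OpL_cj (h : Fr Φ) (U : Matrix (Fin N) (Fin N) 𝕜) (hU : U ∈ Matrix.unitaryGroup (Fin N) 𝕜)
    (r : ℝ) (x : EuclideanSpace ℝ ι) : OpL r (Φ (cj Φ U x)) ↔ OpL r (Φ x) := sorry

theorem OpL_dm (r : ℝ) (l : EuclideanSpace ℝ (Fin N)) (hl : OpL r (dm 𝕜 l)) (i : Fin N) :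
    |l i| ≤ r := sorry

theorem norm_le_OpL (h : Fr Φ) (r : ℝ) (hr : 0 ≤ r) (x : EuclideanSpace ℝ ι)
    (hx : OpL r (Φ x)) : ‖x‖ ≤ Real.sqrt N * r := sorry

theorem OpL_closed (r : ℝ) : IsClosed {x : EuclideanSpace ℝ ι | OpL r (Φ x)} := sorry

theorem OpL_convex (r : ℝ) : Convex ℝ {x : EuclideanSpace ℝ ι | OpL r (Φ x)} := sorry

/-! ## F4: the structure constants -/

theorem Km_skew (k : KI N) : (Km 𝕜 k)ᴴ = - Km 𝕜 k := sorry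

theorem Km_complete (K : Matrix (Fin N) (Fin N) 𝕜) (hK : Kᴴ = -K) :
    ∑ k, ip (Km 𝕜 k) K • Km 𝕜 k = K := sorry

theorem Km_parseval (K : Matrix (Fin N) (Fin N) 𝕜) (hK : Kᴴ = -K) :
    ∑ k, ip (Km 𝕜 k) K ^ 2 = ip K K := sorry

/-! ## F5 -/

theorem struc (h : Fr Φ) (hN : 1 ≤ N) : ∃ (c : KI N → KI N → KI N → ℝ) (κ : ℝ), (N : ℝ) - 2 ≤ κ ∧
    (∀ i j k, c j i k = - c i j k) ∧ (∀ i j k, c i k j = - c i j k) ∧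
    (∀ i j x, ad Φ (Km 𝕜 i) (ad Φ (Km 𝕜 j) x) - ad Φ (Km 𝕜 j) (ad Φ (Km 𝕜 i) x) =
      ∑ k, c i j k • ad Φ (Km 𝕜 k) x) ∧
    (∀ k x, ∑ l, (∑ i, ∑ j, c i j k * c i j l) • ad Φ (Km 𝕜 l) x = κ • ad Φ (Km 𝕜 k) x) := sorry

/-! ## A1: the derivations -/

theorem ev_dl (A : EuclideanSpace ℝ ι →ₗ[ℝ] EuclideanSpace ℝ ι) (p : MvPolynomial ι ℝ)
    (x : EuclideanSpace ℝ ι) : ev (dl A p) x = fderiv ℝ (ev p) x (A x) := sorry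

theorem dl_sum {κ : Type} [Fintype κ] (A : κ → (EuclideanSpace ℝ ι →ₗ[ℝ] EuclideanSpace ℝ ι))
    (c : κ → ℝ) (B : EuclideanSpace ℝ ι →ₗ[ℝ] EuclideanSpace ℝ ι)
    (hB : ∀ x, B x = ∑ k, c k • A k x) (p : MvPolynomial ι ℝ) :
    dl B p = ∑ k, c k • dl (A k) p := sorry

theorem dl_comm (A B C : EuclideanSpace ℝ ι →ₗ[ℝ] EuclideanSpace ℝ ι)
    (hC : ∀ x, B (A x) - A (B x) = C x) (p : MvPolynomial ι ℝ) :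
    dl A (dl B p) - dl B (dl A p) = dl C p := sorry

theorem dl_deg (A : EuclideanSpace ℝ ι →ₗ[ℝ] EuclideanSpace ℝ ι) (p : MvPolynomial ι ℝ) :
    (dl A p).totalDegree ≤ p.totalDegree := sorry

theorem dl_gr (A : EuclideanSpace ℝ ι →ₗ[ℝ] EuclideanSpace ℝ ι)
    (hA : ∀ x y, ⟪A x, y⟫_ℝ = - ⟪x, A y⟫_ℝ) (p q : MvPolynomial ι ℝ) :
    dl A (gr p q) = gr (dl A p) q + gr p (dl A q) := sorry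

/-! ## A2: the Bochner gap (algebra) -/

theorem gap {W : Type*} [AddCommGroup W] [Module ℝ W] {κ : Type*} [Fintype κ]
    (b : W →ₗ[ℝ] W →ₗ[ℝ] ℝ) (hsymm : ∀ x y, b x y = b y x) (hpos : ∀ x, 0 ≤ b x x)
    (D : κ → W →ₗ[ℝ] W) (hskew : ∀ i x y, b (D i x) y = - b x (D i y))
    (c : κ → κ → κ → ℝ) (hc1 : ∀ i j k, c j i k = - c i j k) (hc2 : ∀ i j k, c i k j = - c i j k)
    (hcomm : ∀ i j x, D i (D j x) - D j (D i x) = ∑ k, c i j k • D k x) (κ0 : ℝ)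
    (hkil : ∀ k x, ∑ l, (∑ i, ∑ j, c i j k * c i j l) • D l x = κ0 • D k x) (x : W) :
    κ0 / 4 * ∑ i, b (D i x) (D i x) ≤ b (∑ i, D i (D i x)) (∑ i, D i (D i x)) := sorry

/-! ## A3: the angular part, general form -/

theorem angular_gen {κ : Type} [Fintype κ]
    (A : κ → (EuclideanSpace ℝ ι →ₗ[ℝ] EuclideanSpace ℝ ι))
    (hA : ∀ k x y, ⟪A k x, y⟫_ℝ = - ⟪x, A k y⟫_ℝ)
    (c : κ → κ → κ → ℝ) (hc1 : ∀ i j k, c j i k = - c i j k) (hc2 : ∀ i j k, c i k j = - c i j k)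
    (hcomm : ∀ i j x, A i (A j x) - A j (A i x) = ∑ k, c i j k • A k x) (κ0 : ℝ) (hκ : 0 < κ0)
    (hkil : ∀ k x, ∑ l, (∑ i, ∑ j, c i j k * c i j l) • A l x = κ0 • A k x)
    (μ : Measure (EuclideanSpace ℝ ι)) [IsFiniteMeasure μ]
    (hb : ∃ R, μ (Metric.closedBall 0 R)ᶜ = 0)
    (hint : ∀ k p, ∫ x, ev (dl (A k) p) x ∂μ = 0)
    (hpos : ∀ p : MvPolynomial ι ℝ, ∫ x, (ev p x) ^ 2 ∂μ = 0 → p = 0)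
    (p : MvPolynomial ι ℝ) :
    ∃ p0 : MvPolynomial ι ℝ, (∀ k, dl (A k) p0 = 0) ∧
      ∫ x, (ev p x - ev p0 x) ∂μ = 0 ∧ ∫ x, ev p0 x * (ev p x - ev p0 x) ∂μ = 0 ∧
      κ0 / 4 * ∫ x, (ev p x - ev p0 x) ^ 2 ∂μ ≤ ∑ k, ∫ x, (ev (dl (A k) p) x) ^ 2 ∂μ ∧
      ∫ x, ev (gr p0 p0) x ∂μ ≤ ∫ x, ev (gr p p) x ∂μ := sorry

/-! ## A4 -/

theorem ev_pos (ρ : EuclideanSpace ℝ ι → ℝ) (h0 : ∀ x, 0 ≤ ρ x) (hm : Measurable ρ)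
    (hlc : ∀ x y : EuclideanSpace ℝ ι, ∀ t : ℝ, 0 < t → t < 1 →
      ρ x ^ (1 - t) * ρ y ^ t ≤ ρ ((1 - t) • x + t • y)) (hb : Bdd ρ) [IsFiniteMeasure (mu ρ)]
    (hne : mu ρ ≠ 0) (p : MvPolynomial ι ℝ) (hp : ∫ x, (ev p x) ^ 2 ∂(mu ρ) = 0) : p = 0 := sorry

/-! ## A5 -/

theorem dl_ad_integral (h : Fr Φ) (μ : Measure (EuclideanSpace ℝ ι)) [IsFiniteMeasure μ]
    (hinv : ∀ U ∈ Matrix.unitaryGroup (Fin N) 𝕜, μ.map (cj Φ U) = μ)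
    (hb : ∃ R, μ (Metric.closedBall 0 R)ᶜ = 0) (K : Matrix (Fin N) (Fin N) 𝕜) (hK : Kᴴ = -K)
    (p : MvPolynomial ι ℝ) : ∫ x, ev (dl (ad Φ K) p) x ∂μ = 0 := sorry

/-! ## A6 -/

theorem inv_of_dl (h : Fr Φ) (p : MvPolynomial ι ℝ) (hp : ∀ k, dl (ad Φ (Km 𝕜 k)) p = 0) :
    ∀ U ∈ Matrix.unitaryGroup (Fin N) 𝕜, ∀ x, ev p (cj Φ U x) = ev p x := sorry

/-! ## A7 -/

theorem dl_bound (h : Fr Φ) (p : MvPolynomial ι ℝ) (x : EuclideanSpace ℝ ι) (r : ℝ)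
    (hr : 0 ≤ r) (hx : OpL r (Φ x)) :
    ∑ k, (ev (dl (ad Φ (Km 𝕜 k)) p) x) ^ 2 ≤ 4 * r ^ 2 * ‖fderiv ℝ (ev p) x‖ ^ 2 := sorry

/-! ## A8: assembly of the angular part -/

theorem angular (h : Fr Φ) (hN : 3 ≤ N) (ρ : EuclideanSpace ℝ ι → ℝ) (hρ : Dn Φ ρ)
    [IsFiniteMeasure (mu ρ)] (hb : Bdd ρ) (hne : mu ρ ≠ 0) (r : ℝ) (hr : 0 < r)
    (hs : ∀ x, ¬ OpL r (Φ x) → ρ x = 0) (p : MvPolynomial ι ℝ) :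
    ∃ p0 : MvPolynomial ι ℝ, (∀ U ∈ Matrix.unitaryGroup (Fin N) 𝕜, ∀ x, ev p0 (cj Φ U x) = ev p0 x) ∧
      ∫ x, (ev p x - ev p0 x) ∂(mu ρ) = 0 ∧ ∫ x, ev p0 x * (ev p x - ev p0 x) ∂(mu ρ) = 0 ∧
      ∫ x, (ev p x - ev p0 x) ^ 2 ∂(mu ρ) ≤
        48 * r ^ 2 / N * ∫ x, ‖fderiv ℝ (ev p) x‖ ^ 2 ∂(mu ρ) ∧
      ∫ x, ‖fderiv ℝ (ev p0) x‖ ^ 2 ∂(mu ρ) ≤ ∫ x, ‖fderiv ℝ (ev p) x‖ ^ 2 ∂(mu ρ) := sorry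

/-! ## W: the Weyl integration formula -/

-- W1
theorem spectral (h : Fr Φ) (x : EuclideanSpace ℝ ι) :
    ∃ U ∈ Matrix.unitaryGroup (Fin N) 𝕜, ∃ l : EuclideanSpace ℝ (Fin N),
      (Monotone fun i => l i) ∧ x = cj Φ U (dg Φ l) := sorry

-- W2
theorem sign_lemma (U : Matrix (Fin N) (Fin N) 𝕜) : ∃ ε : Fin N → ℝ, (∀ i, ε i = 1 ∨ ε i = -1) ∧
    (1 + U * Matrix.diagonal fun i => ((ε i : ℝ) : 𝕜)).det ≠ 0 := sorry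

-- W2b
theorem cay_unit (K : Matrix (Fin N) (Fin N) 𝕜) (hK : Kᴴ = -K) :
    IsUnit (1 + K).det ∧ IsUnit (1 - K).det ∧ cay K ∈ Matrix.unitaryGroup (Fin N) 𝕜 := sorry

theorem exists_cay (U : Matrix (Fin N) (Fin N) 𝕜) (hU : U ∈ Matrix.unitaryGroup (Fin N) 𝕜)
    (hd : (1 + U).det ≠ 0) : ∃ K, Kᴴ = -K ∧ U = cay K := sorry

-- W3
theorem ae_simple (h : Fr Φ) : ∀ᵐ x : EuclideanSpace ℝ ι,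
    ∃ U ∈ Matrix.unitaryGroup (Fin N) 𝕜, ∃ l ∈ Ch N, x = cj Φ U (dg Φ l) := sorry

-- W4a
theorem spec_unique (U W : Matrix (Fin N) (Fin N) 𝕜) (hU : U ∈ Matrix.unitaryGroup (Fin N) 𝕜)
    (hW : W ∈ Matrix.unitaryGroup (Fin N) 𝕜) (l m : EuclideanSpace ℝ (Fin N)) (hl : l ∈ Ch N)
    (hm : m ∈ Ch N) (h : U * dm 𝕜 l * Uᴴ = W * dm 𝕜 m * Wᴴ) :
    l = m ∧ ∃ d : Fin N → 𝕜, U = W * Matrix.diagonal d ∧ ∀ i, ‖d i‖ = 1 := sorry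

-- W4b
theorem cay_inj (K K' : Matrix (Fin N) (Fin N) 𝕜) (hK : Kᴴ = -K) (hK' : K'ᴴ = -K')
    (h0 : ∀ i, K i i = 0) (h0' : ∀ i, K' i i = 0) (hn : ip K K < 1 / 100)
    (hn' : ip K' K' < 1 / 100) (d : Fin N → 𝕜) (h : cay K' = cay K * Matrix.diagonal d) :
    K = K' := sorry

-- W4c
theorem G0_injOn (h : Fr Φ) : InjOn (G0 Φ) (DD Φ) := sorry

-- W5a
theorem det_TT (h : Fr Φ) (l : EuclideanSpace ℝ (Fin N)) :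
    LinearMap.det (TT Φ l) = vd l ^ (Module.finrank ℝ 𝕜) := sorry

-- W5b
theorem G0_deriv (h : Fr Φ) (y : EuclideanSpace ℝ ι) :
    HasFDerivAt (G0 Φ) (LinearMap.toContinuousLinearMap
      (cj Φ (cay (sk (Φ y))) ∘ₗ TT Φ (dp Φ y) ∘ₗ MM Φ (sk (Φ y)))) y := sorry

-- W5c
theorem MM_facts (h : Fr Φ) :
    (Continuous fun y : EuclideanSpace ℝ ι => LinearMap.det (MM Φ (sk (Φ y)))) ∧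
    LinearMap.det (MM Φ 0) ≠ 0 ∧
    (∀ (y : EuclideanSpace ℝ ι) (l : EuclideanSpace ℝ (Fin N)), sk (Φ (y + dg Φ l)) = sk (Φ y)) := sorry

-- W5d (explicit frame)
theorem F0_frame (𝕜 : Type) [RCLike 𝕜] (N : ℕ) : Fr (F0 𝕜 N) := sorry

theorem dp_F0 (y : EuclideanSpace ℝ (II 𝕜 N)) (i : Fin N) : dp (F0 𝕜 N) y i = y (Sum.inl i) :=
  sorry

theorem ip_F0 (y : EuclideanSpace ℝ (II 𝕜 N)) :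
    ip (sk (F0 𝕜 N y)) (sk (F0 𝕜 N y)) = ∑ j : JJ 𝕜 N, y (Sum.inr j) ^ 2 := sorry

-- W6a (Fubini on the explicit frame)
theorem fub_F0 (𝕜 : Type) [RCLike 𝕜] (N : ℕ) (j : EuclideanSpace ℝ (II 𝕜 N) → ℝ≥0∞)
    (hj : Measurable j) (hj' : ∀ y l, j (y + dg (F0 𝕜 N) l) = j y)
    (H : EuclideanSpace ℝ (Fin N) → ℝ≥0∞) (hH : Measurable H) :
    MeasurableSet (DD (F0 𝕜 N)) ∧ ∫⁻ y in DD (F0 𝕜 N), H (dp (F0 𝕜 N) y) * j y =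
      (∫⁻ l in Ch N, H l) * ∫⁻ z in {z : EuclideanSpace ℝ (JJ 𝕜 N) | ‖z‖ ^ 2 < 1 / 100},
        j (WithLp.toLp 2 (Sum.elim (fun _ => 0) z.ofLp)) := sorry

-- W6b (change of variables)
theorem slice (𝕜 : Type) [RCLike 𝕜] (N : ℕ) :
    MeasurableSet (DD (F0 𝕜 N)) ∧ MeasurableSet (G0 (F0 𝕜 N) '' DD (F0 𝕜 N)) ∧
    ∃ c : ℝ≥0∞, c ≠ 0 ∧ c ≠ ⊤ ∧ ∀ F : EuclideanSpace ℝ (II 𝕜 N) → ℝ≥0∞, Measurable F →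
      (∀ U ∈ Matrix.unitaryGroup (Fin N) 𝕜, ∀ x, F (cj (F0 𝕜 N) U x) = F x) →
      ∫⁻ x in G0 (F0 𝕜 N) '' DD (F0 𝕜 N), F x =
        c * ∫⁻ l in Ch N, F (dg (F0 𝕜 N) l) * ENNReal.ofReal (vd l ^ (Module.finrank ℝ 𝕜)) := sorry

-- W7 (averaging over the unitary group)
theorem weyl_F0 (𝕜 : Type) [RCLike 𝕜] (N : ℕ) :
    ∃ c : ℝ≥0∞, c ≠ 0 ∧ c ≠ ⊤ ∧ ∀ F : EuclideanSpace ℝ (II 𝕜 N) → ℝ≥0∞, Measurable F →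
      (∀ U ∈ Matrix.unitaryGroup (Fin N) 𝕜, ∀ x, F (cj (F0 𝕜 N) U x) = F x) →
      ∫⁻ x, F x =
        c * ∫⁻ l in Ch N, F (dg (F0 𝕜 N) l) * ENNReal.ofReal (vd l ^ (Module.finrank ℝ 𝕜)) := sorry

-- W8 (transfer to a general frame)
theorem weyl (h : Fr Φ) :
    ∃ c : ℝ≥0∞, c ≠ 0 ∧ c ≠ ⊤ ∧ ∀ F : EuclideanSpace ℝ ι → ℝ≥0∞, Measurable F →
      (∀ U ∈ Matrix.unitaryGroup (Fin N) 𝕜, ∀ x, F (cj Φ U x) = F x) →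
      ∫⁻ x, F x =
        c * ∫⁻ l in Ch N, F (dg Φ l) * ENNReal.ofReal (vd l ^ (Module.finrank ℝ 𝕜)) := sorry

/-! ## R: invariant functions -/

-- R1
theorem cw_mid (β : ℕ) (hβ : 1 ≤ β) (r : ℝ) (hr : 0 < r) (l m : EuclideanSpace ℝ (Fin N))
    (hl : l ∈ Ch N) (hm : m ∈ Ch N) (hlr : ∀ i, |l i| ≤ r) (hmr : ∀ i, |m i| ≤ r) :
    vd l ^ β * vd m ^ β ≤ (vd ((1 / 2 : ℝ) • (l + m)) ^ β) ^ 2 *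
      Real.exp (-((N * ‖l - m‖ ^ 2 - (∑ i, (l i - m i)) ^ 2) / (16 * r ^ 2))) := sorry

-- R2
theorem bdd_of_finite {F : Type} [NormedAddCommGroup F] [InnerProductSpace ℝ F]
    [FiniteDimensional ℝ F] [MeasurableSpace F] [BorelSpace F] (ρ : F → ℝ) (h0 : ∀ x, 0 ≤ ρ x)
    (hm : Measurable ρ) (hlc : ∀ x y : F, ∀ t : ℝ, 0 < t → t < 1 →
      ρ x ^ (1 - t) * ρ y ^ t ≤ ρ ((1 - t) • x + t • y)) (hfin : mu ρ univ ≠ ⊤) (hne : mu ρ ≠ 0) :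
    ∃ B, ∀ x, ρ x ≤ B := sorry

-- R3
theorem radial (h : Fr Φ) (hN : 1 ≤ N) (ρ : EuclideanSpace ℝ ι → ℝ) (hρ : Dn Φ ρ) (hb : Bdd ρ)
    (hbd : ∃ B, ∀ x, ρ x ≤ B) (r : ℝ) (hr : 0 < r) (hs : ∀ x, ¬ OpL r (Φ x) → ρ x = 0) (K : ℝ)
    (hK : 0 < K) (hT : Ts Φ K ρ) (f : EuclideanSpace ℝ ι → ℝ) (hf : ContDiff ℝ 1 f)
    (hinv : ∀ U ∈ Matrix.unitaryGroup (Fin N) 𝕜, ∀ x, f (cj Φ U x) = f x) :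
    ∃ c : ℝ, ∫ x, (f x - c) ^ 2 ∂(mu ρ) ≤
      (4 * r ^ 2 / N + K) * ∫ x, ‖fderiv ℝ f x‖ ^ 2 ∂(mu ρ) := sorry

/-! ## L: local Poincare inequality -/

-- L1
theorem Dn.basic (h : Fr Φ) {ρ : EuclideanSpace ℝ ι → ℝ} (hρ : Dn Φ ρ) :
    (∀ U ∈ Matrix.unitaryGroup (Fin N) 𝕜, (mu ρ).map (cj Φ U) = mu ρ) ∧
    (∀ r, Dn Φ ({x | OpL r (Φ x)}.indicator ρ)) ∧ (∀ r, Dn Φ ({x | ‖x‖ ≤ r}.indicator ρ)) ∧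
    (∀ c, 0 ≤ c → Dn Φ (fun x => c * ρ x)) ∧
    (∀ K : ℝ, 0 < K → ∀ τ : ℝ,
      Dn Φ (fun x => ρ x * Real.exp (-((⟪tv Φ, x⟫_ℝ - τ) ^ 2 / (2 * K)))) ∧
      Ts Φ K (fun x => ρ x * Real.exp (-((⟪tv Φ, x⟫_ℝ - τ) ^ 2 / (2 * K))))) := sorry

-- L2
theorem local_poincare (h : Fr Φ) (hN : 3 ≤ N) (ρ : EuclideanSpace ℝ ι → ℝ) (hρ : Dn Φ ρ)
    (hb : Bdd ρ) (hfin : mu ρ univ ≠ ⊤) (r : ℝ) (hr : 0 < r)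
    (hs : ∀ x, ¬ OpL r (Φ x) → ρ x = 0) (K : ℝ) (hK : 0 < K) (hT : Ts Φ K ρ)
    (f : EuclideanSpace ℝ ι → ℝ) (hf : ContDiff ℝ 1 f) :
    ∃ c : ℝ, ∫ x, (f x - c) ^ 2 ∂(mu ρ) ≤
      (52 * r ^ 2 / N + K) * ∫ x, ‖fderiv ℝ f x‖ ^ 2 ∂(mu ρ) := sorry

/-! ## U: removing the tilt -/

-- U1
theorem one_dim (Z M : ℝ → ℝ) (hZ : ∀ x, 0 < Z x) (hZc : Continuous Z)
    (hlc : ∀ a b t : ℝ, 0 < t → t < 1 → Z a ^ (1 - t) * Z b ^ t ≤ Z ((1 - t) * a + t * b))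
    (hZi : Integrable Z) (σ : ℝ) (hσ : 0 < σ) (hZ2 : Integrable fun x => x ^ 2 * Z x)
    (hmom : ∫ x, x ^ 2 * Z x ≤ σ ^ 2 * ∫ x, Z x) (hM : ContDiff ℝ 1 M)
    (hMb : ∃ B, ∀ x, |M x| ≤ B) (hMi : Integrable fun x => (deriv M x) ^ 2 * Z x) :
    ∃ c : ℝ, ∫ x, (M x - c) ^ 2 * Z x ≤ 128 * σ ^ 2 * ∫ x, (deriv M x) ^ 2 * Z x := sorry

-- U2a
theorem tilt_deriv (μ : Measure (EuclideanSpace ℝ ι)) [IsFiniteMeasure μ]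
    (hb : ∃ R, μ (Metric.closedBall 0 R)ᶜ = 0) (e : EuclideanSpace ℝ ι) (K : ℝ) (hK : 0 < K)
    (g : EuclideanSpace ℝ ι → ℝ) (hg : Continuous g) :
    (∀ τ : ℝ, HasDerivAt (fun τ : ℝ => ∫ x, g x * Real.exp (-((⟪e, x⟫_ℝ - τ) ^ 2 / (2 * K))) ∂μ)
      (∫ x, g x * ((⟪e, x⟫_ℝ - τ) / K) * Real.exp (-((⟪e, x⟫_ℝ - τ) ^ 2 / (2 * K))) ∂μ) τ) ∧
    (Continuous fun τ : ℝ => ∫ x, g x * ((⟪e, x⟫_ℝ - τ) / K) *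
      Real.exp (-((⟪e, x⟫_ℝ - τ) ^ 2 / (2 * K))) ∂μ) := sorry

-- U2b
theorem tilt_fub (μ : Measure (EuclideanSpace ℝ ι)) [IsFiniteMeasure μ]
    (hb : ∃ R, μ (Metric.closedBall 0 R)ᶜ = 0) (e : EuclideanSpace ℝ ι) (K : ℝ) (hK : 0 < K)
    (g : EuclideanSpace ℝ ι → ℝ) (hg : Continuous g) :
    (Integrable fun τ : ℝ => ∫ x, g x * Real.exp (-((⟪e, x⟫_ℝ - τ) ^ 2 / (2 * K))) ∂μ) ∧
    (∫ τ : ℝ, ∫ x, g x * Real.exp (-((⟪e, x⟫_ℝ - τ) ^ 2 / (2 * K))) ∂μ) =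
      Real.sqrt (2 * Real.pi * K) * ∫ x, g x ∂μ ∧
    (Integrable fun τ : ℝ => τ ^ 2 * ∫ x, Real.exp (-((⟪e, x⟫_ℝ - τ) ^ 2 / (2 * K))) ∂μ) ∧
    (∫ τ : ℝ, τ ^ 2 * ∫ x, Real.exp (-((⟪e, x⟫_ℝ - τ) ^ 2 / (2 * K))) ∂μ) =
      Real.sqrt (2 * Real.pi * K) * ∫ x, (⟪e, x⟫_ℝ ^ 2 + K) ∂μ := sorry

-- U2c
theorem tilt_lc (ρ : EuclideanSpace ℝ ι → ℝ) (h0 : ∀ x, 0 ≤ ρ x) (hm : Measurable ρ)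
    (hlc : ∀ x y : EuclideanSpace ℝ ι, ∀ t : ℝ, 0 < t → t < 1 →
      ρ x ^ (1 - t) * ρ y ^ t ≤ ρ ((1 - t) • x + t • y)) (hfin : mu ρ univ ≠ ⊤)
    (e : EuclideanSpace ℝ ι) (K : ℝ) (hK : 0 < K) (a b t : ℝ) (ht0 : 0 < t) (ht1 : t < 1) :
    (∫ x, Real.exp (-((⟪e, x⟫_ℝ - a) ^ 2 / (2 * K))) ∂(mu ρ)) ^ (1 - t) *
      (∫ x, Real.exp (-((⟪e, x⟫_ℝ - b) ^ 2 / (2 * K))) ∂(mu ρ)) ^ t ≤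
      ∫ x, Real.exp (-((⟪e, x⟫_ℝ - ((1 - t) * a + t * b)) ^ 2 / (2 * K))) ∂(mu ρ) := sorry

-- U3
theorem untilt (ρ : EuclideanSpace ℝ ι → ℝ) (h0 : ∀ x, 0 ≤ ρ x) (hm : Measurable ρ)
    (hlc : ∀ x y : EuclideanSpace ℝ ι, ∀ t : ℝ, 0 < t → t < 1 →
      ρ x ^ (1 - t) * ρ y ^ t ≤ ρ ((1 - t) • x + t • y)) (hb : Bdd ρ) (hfin : mu ρ univ ≠ ⊤)
    (e : EuclideanSpace ℝ ι) (he : ‖e‖ ≤ 1) (K : ℝ) (hK : 0 < K)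
    (hmom : ∫ x, ⟪e, x⟫_ℝ ^ 2 ∂(mu ρ) ≤ K * (mu ρ univ).toReal)
    (hloc : ∀ (τ : ℝ) (f : EuclideanSpace ℝ ι → ℝ), ContDiff ℝ 1 f →
      ∃ c : ℝ, ∫ x, (f x - c) ^ 2 * Real.exp (-((⟪e, x⟫_ℝ - τ) ^ 2 / (2 * K))) ∂(mu ρ) ≤
        2 * K * ∫ x, ‖fderiv ℝ f x‖ ^ 2 * Real.exp (-((⟪e, x⟫_ℝ - τ) ^ 2 / (2 * K))) ∂(mu ρ))
    (f : EuclideanSpace ℝ ι → ℝ) (hf : ContDiff ℝ 1 f) :
    ∃ c : ℝ, ∫ x, (f x - c) ^ 2 ∂(mu ρ) ≤ 1100 * K * ∫ x, ‖fderiv ℝ f x‖ ^ 2 ∂(mu ρ) := sorry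

/-! ## T: tails -/

-- T1
theorem col_tail (h : Fr Φ) (hN : 2 ≤ N) (ρ : EuclideanSpace ℝ ι → ℝ) (hρ : Dn Φ ρ) (hb : Bdd ρ)
    (h1 : mu ρ univ = 1) (s : ℝ) (hs : 0 < s)
    (hmom : ∀ θ : EuclideanSpace ℝ ι, ∫ x, ⟪θ, x⟫_ℝ ^ 2 ∂(mu ρ) ≤ s * ‖θ‖ ^ 2)
    (i j : Fin N) (hij : i ≠ j) (u : ℝ) :
    mu ρ {x | u * Real.sqrt (N * s) ≤ ‖Φ x i j‖} ≤
      ENNReal.ofReal (Real.exp (N * (5 - u / 30))) := sorry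

-- T2
theorem diff_tail (h : Fr Φ) (ρ : EuclideanSpace ℝ ι → ℝ) (hρ : Dn Φ ρ) (s : ℝ) (hs : 0 < s)
    (hcol : ∀ i j : Fin N, i ≠ j → ∀ u : ℝ, mu ρ {x | u * Real.sqrt (N * s) ≤ ‖Φ x i j‖} ≤
      ENNReal.ofReal (Real.exp (N * (5 - u / 30)))) (i j : Fin N) (hij : i ≠ j) (u : ℝ) :
    mu ρ {x | 2 * u * Real.sqrt (N * s) ≤ ‖Φ x i i - Φ x j j‖} ≤
      ENNReal.ofReal (Real.exp (N * (5 - u / 30))) := sorry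

-- T3
theorem lin_tail (ρ : EuclideanSpace ℝ ι → ℝ) (h0 : ∀ x, 0 ≤ ρ x) (hm : Measurable ρ)
    (hlc : ∀ x y : EuclideanSpace ℝ ι, ∀ t : ℝ, 0 < t → t < 1 →
      ρ x ^ (1 - t) * ρ y ^ t ≤ ρ ((1 - t) • x + t • y)) (h1 : mu ρ univ = 1)
    (e : EuclideanSpace ℝ ι) (s : ℝ) (hs : 0 < s)
    (hint : Integrable (fun x => ⟪e, x⟫_ℝ ^ 2) (mu ρ)) (hmom : ∫ x, ⟪e, x⟫_ℝ ^ 2 ∂(mu ρ) ≤ s)
    (b : ℝ) (hb : 0 ≤ b) :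
    mu ρ {x | b ≤ |⟪e, x⟫_ℝ|} ≤ 2 * ENNReal.ofReal (Real.exp (-(b / (4 * Real.sqrt s)))) := sorry

-- T4
theorem entry_tail (h : Fr Φ) (hN : 2 ≤ N) (ρ : EuclideanSpace ℝ ι → ℝ) (hρ : Dn Φ ρ)
    (h1 : mu ρ univ = 1) (s : ℝ) (hs : 0 < s)
    (hdiff : ∀ i j : Fin N, i ≠ j → ∀ u : ℝ,
      mu ρ {x | 2 * u * Real.sqrt (N * s) ≤ ‖Φ x i i - Φ x j j‖} ≤
      ENNReal.ofReal (Real.exp (N * (5 - u / 30))))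
    (htr : ∀ b : ℝ, 0 ≤ b → mu ρ {x | b ≤ |⟪tv Φ, x⟫_ℝ|} ≤
      2 * ENNReal.ofReal (Real.exp (-(b / (4 * Real.sqrt s))))) (i : Fin N) (u : ℝ) :
    mu ρ {x | 3 * u * Real.sqrt (N * s) ≤ ‖Φ x i i‖} ≤
      ENNReal.ofReal (Real.exp (N * (6 - u / 30))) := sorry

-- T5
theorem form_tail (h : Fr Φ) (hN : 1 ≤ N) (ρ : EuclideanSpace ℝ ι → ℝ) (hρ : Dn Φ ρ)
    (h1 : mu ρ univ = 1) (s : ℝ) (hs : 0 < s)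
    (hent : ∀ (i : Fin N) (u : ℝ), mu ρ {x | 3 * u * Real.sqrt (N * s) ≤ ‖Φ x i i‖} ≤
      ENNReal.ofReal (Real.exp (N * (6 - u / 30))))
    (v : EuclideanSpace 𝕜 (Fin N)) (hv : ‖v‖ ≤ 1) (u : ℝ) :
    mu ρ {x | 3 * u * Real.sqrt (N * s) ≤ ‖star v.ofLp ⬝ᵥ (Φ x *ᵥ v.ofLp)‖} ≤
      ENNReal.ofReal (Real.exp (N * (6 - u / 30))) := sorry

-- T6
theorem op_tail (h : Fr Φ) (hN : 1 ≤ N) (ρ : EuclideanSpace ℝ ι → ℝ) (hρ : Dn Φ ρ)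
    (h1 : mu ρ univ = 1) (s : ℝ) (hs : 0 < s)
    (hform : ∀ v : EuclideanSpace 𝕜 (Fin N), ‖v‖ ≤ 1 → ∀ u : ℝ,
      mu ρ {x | 3 * u * Real.sqrt (N * s) ≤ ‖star v.ofLp ⬝ᵥ (Φ x *ᵥ v.ofLp)‖} ≤
      ENNReal.ofReal (Real.exp (N * (6 - u / 30)))) (u : ℝ) :
    mu ρ {x | ¬ OpL (8 * u * Real.sqrt (N * s)) (Φ x)} ≤
      ENNReal.ofReal (Real.exp (N * (12 - u / 30))) := sorry

/-! ## G: gluing -/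

-- G1
theorem glue {F : Type} [NormedAddCommGroup F] [InnerProductSpace ℝ F]
    [FiniteDimensional ℝ F] [MeasurableSpace F] [BorelSpace F] (μ : Measure F)
    [IsProbabilityMeasure μ] (hball : ∃ R, μ (Metric.closedBall 0 R)ᶜ = 0) (a A B : ℝ)
    (ha : 6 ≤ a) (hA : 0 ≤ A) (hB : 0 ≤ B)
    (hsm : ∀ g : F → ℝ, ContDiff ℝ 1 g → μ {x | g x ≠ 0} ≤ ENNReal.ofReal (Real.exp (-a)) →
      ∫ x, g x ^ 2 ∂μ ≤ B * ∫ x, ‖fderiv ℝ g x‖ ^ 2 ∂μ)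
    (U : Set F) (hUm : MeasurableSet U) (hUc : μ Uᶜ ≤ ENNReal.ofReal (Real.exp (-(4 * a))))
    (hloc : ∀ h : F → ℝ, ContDiff ℝ 1 h → ∃ c : ℝ, ∫ x in U, (h x - c) ^ 2 ∂μ ≤
      A * ∫ x in U, ‖fderiv ℝ h x‖ ^ 2 ∂μ)
    (f : F → ℝ) (hf : ContDiff ℝ 1 f) :
    ∫ x, f x ^ 2 ∂μ - (∫ x, f x ∂μ) ^ 2 ≤
      (2 * (2 * A + 4 * B)) * ∫ x, ‖fderiv ℝ f x‖ ^ 2 ∂μ := sorry

-- G2
theorem core : ∃ C : ℝ, 0 < C ∧ ∀ {𝕜 : Type} [RCLike 𝕜] {N : ℕ} {ι : Type} [Fintype ι]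
    {Φ : EuclideanSpace ℝ ι →ₗ[ℝ] Matrix (Fin N) (Fin N) 𝕜}, Fr Φ → 3 ≤ N →
    ∀ ρ : EuclideanSpace ℝ ι → ℝ, Dn Φ ρ → Bdd ρ → mu ρ univ = 1 → ∀ s : ℝ, 0 < s →
    (∀ θ : EuclideanSpace ℝ ι, ∫ x, ⟪θ, x⟫_ℝ ^ 2 ∂(mu ρ) ≤ s * ‖θ‖ ^ 2) →
    ∀ f : EuclideanSpace ℝ ι → ℝ, ContDiff ℝ 1 f →
    ∫ x, f x ^ 2 ∂(mu ρ) - (∫ x, f x ∂(mu ρ)) ^ 2 ≤
      C * s * ∫ x, ‖fderiv ℝ f x‖ ^ 2 ∂(mu ρ) := sorry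

-- G3
theorem main : ∃ C : ℝ, 0 < C ∧ ∀ {𝕜 : Type} [RCLike 𝕜] {N : ℕ} {ι : Type} [Fintype ι]
    {Φ : EuclideanSpace ℝ ι →ₗ[ℝ] Matrix (Fin N) (Fin N) 𝕜}, Fr Φ → 3 ≤ N →
    ∀ ρ : EuclideanSpace ℝ ι → ℝ, Dn Φ ρ → mu ρ univ = 1 → ∀ s : ℝ, 0 < s →
    (∀ θ : EuclideanSpace ℝ ι, ∫⁻ x, ENNReal.ofReal (⟪θ, x⟫_ℝ ^ 2) ∂(mu ρ) ≤
      ENNReal.ofReal (s * ‖θ‖ ^ 2)) →
    ∀ f : EuclideanSpace ℝ ι → ℝ, ContDiff ℝ 1 f → MemLp f 2 (mu ρ) →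
    ENNReal.ofReal (∫ x, (f x - ∫ y, f y ∂(mu ρ)) ^ 2 ∂(mu ρ)) ≤
      ENNReal.ofReal (C * s) * ∫⁻ x, ENNReal.ofReal (‖fderiv ℝ f x‖ ^ 2) ∂(mu ρ) := sorry

-- G4 (general mean)
theorem main_centered : ∃ C : ℝ, 0 < C ∧ ∀ {𝕜 : Type} [RCLike 𝕜] {N : ℕ} {ι : Type} [Fintype ι]
    {Φ : EuclideanSpace ℝ ι →ₗ[ℝ] Matrix (Fin N) (Fin N) 𝕜}, Fr Φ → 3 ≤ N →
    ∀ ρ : EuclideanSpace ℝ ι → ℝ, Dn Φ ρ → mu ρ univ = 1 → ∀ s : ℝ, 0 < s →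
    (∀ θ : EuclideanSpace ℝ ι, ProbabilityTheory.evariance (fun x => ⟪θ, x⟫_ℝ) (mu ρ) ≤
      ENNReal.ofReal (s * ‖θ‖ ^ 2)) →
    ∀ f : EuclideanSpace ℝ ι → ℝ, ContDiff ℝ 1 f → MemLp f 2 (mu ρ) →
    ENNReal.ofReal (∫ x, (f x - ∫ y, f y ∂(mu ρ)) ^ 2 ∂(mu ρ)) ≤
      ENNReal.ofReal (C * s) * ∫⁻ x, ENNReal.ofReal (‖fderiv ℝ f x‖ ^ 2) ∂(mu ρ) := sorry

end Pool.Agent.H888R2.KC.Stubs
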